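import Pool.Agent.Lib.MP_afdd4d_co.K10.LS.Blk
import Pool.Agent.Lib.MP_afdd4d_co.K10.TH.V
import Pool.Agent.Lib.MP_afdd4d_co.K10.LR.VQ
import Pool.Agent.Lib.MP_afdd4d_co.L9.LInst

/-!
# The data of the rows of the links
-/

namespace Pool.Agent.Lib.MP_afdd4d_co.K10.LR

open K8 K8.L9

/-- The kernel tables. -/
noncomputable def D : LT2 := LD.mk2 LS.ls LS.ls_ok

/-- The data. -/
noncomputable def I : LIn where
  D := D
  VR := TH.VR
  VQ := VQ
  O' := TH.OR
  OB := OB
  B2 := TH.BR
  B3 := B3
  hVR := TH.VR_le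
  hVQ := VQ_le
  hB2 := by
    show (9361947559590 : ℕ) ≤ 21 * 72620535334306050 + 7 * 6957715106610 + 8796093022208
    norm_num
  hbd := by
    show 35 * (2 * 72620535334306050 + 9361947559590) + 2 * 10268132709135 < 2 ^ 63
    norm_num

/-- The check of one base with the fast blocks. -/
theorem one_eq (c : ℕ) : I.C.oneB c = oneF I LS.bkF c :=
  oneF_eq I LS.bkF (fun p hp x hx y hy => LS.bkF_eq p hp x hx y hy) c

attribute [local irreducible] oneF

/-- The check of a base of the list. -/
noncomputable def oneJ (j : ℕ) : Bool := oneF I LS.bkF (reE j)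

theorem one_of (j : ℕ) (h : oneJ j = true) : I.C.oneB (reE j) = true := by
  unfold oneJ at h
  rw [one_eq]
  exact h

attribute [local irreducible] oneJ

theorem two_l (i j : ℕ) (h : twoG oneJ i j = true) : I.C.oneB (reE i) = true :=
  one_of i (twoG_spec oneJ i j h).1

theorem two_r (i j : ℕ) (h : twoG oneJ i j = true) : I.C.oneB (reE j) = true :=
  one_of j (twoG_spec oneJ i j h).2

end Pool.Agent.Lib.MP_afdd4d_co.K10.LR
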