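import Pool.Agent.Lib.MP_afdd4d_co.K10.LR.R001

/-!
# The rows of the links, part 33
-/

namespace Pool.Agent.Lib.MP_afdd4d_co.K10.LR

open K8 K8.L9

theorem q33 : twoG oneJ 65 75 = true := by decide +kernel

theorem r65 : I.C.oneB (reE 65) = true := two_l 65 75 q33

theorem r75 : I.C.oneB (reE 75) = true := two_r 65 75 q33

end Pool.Agent.Lib.MP_afdd4d_co.K10.LR
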