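import Pool.Agent.Lib.MP_afdd4d_co.K10.LR.R002

/-!
# The rows of the links, part 34
-/

namespace Pool.Agent.Lib.MP_afdd4d_co.K10.LR

open K8 K8.L9

theorem q34 : twoG oneJ 66 77 = true := by decide +kernel

theorem r66 : I.C.oneB (reE 66) = true := two_l 66 77 q34

theorem r77 : I.C.oneB (reE 77) = true := two_r 66 77 q34

end Pool.Agent.Lib.MP_afdd4d_co.K10.LR
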