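import Pool.Agent.Lib.MP_afdd4d_co.K10.LR.R003

/-!
# The rows of the links, part 35
-/

namespace Pool.Agent.Lib.MP_afdd4d_co.K10.LR

open K8 K8.L9

theorem q35 : twoG oneJ 67 82 = true := by decide +kernel

theorem r67 : I.C.oneB (reE 67) = true := two_l 67 82 q35

theorem r82 : I.C.oneB (reE 82) = true := two_r 67 82 q35

end Pool.Agent.Lib.MP_afdd4d_co.K10.LR
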