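import Pool.Agent.Lib.MP_afdd4d_co.K10.LR.R004

/-!
# The rows of the links, part 36
-/

namespace Pool.Agent.Lib.MP_afdd4d_co.K10.LR

open K8 K8.L9

theorem q36 : twoG oneJ 68 81 = true := by decide +kernel

theorem r68 : I.C.oneB (reE 68) = true := two_l 68 81 q36

theorem r81 : I.C.oneB (reE 81) = true := two_r 68 81 q36

end Pool.Agent.Lib.MP_afdd4d_co.K10.LR
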