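import Pool.Agent.Lib.MP_afdd4d_co.K10.LR.R005

/-!
# The rows of the links, part 37
-/

namespace Pool.Agent.Lib.MP_afdd4d_co.K10.LR

open K8 K8.L9

theorem q37 : twoG oneJ 69 97 = true := by decide +kernel

theorem r69 : I.C.oneB (reE 69) = true := two_l 69 97 q37

theorem r97 : I.C.oneB (reE 97) = true := two_r 69 97 q37

end Pool.Agent.Lib.MP_afdd4d_co.K10.LR
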