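import Pool.Agent.Lib.MP_afdd4d_co.K10.LR.R006

/-!
# The rows of the links, part 38
-/

namespace Pool.Agent.Lib.MP_afdd4d_co.K10.LR

open K8 K8.L9

theorem q38 : twoG oneJ 70 74 = true := by decide +kernel

theorem r70 : I.C.oneB (reE 70) = true := two_l 70 74 q38

theorem r74 : I.C.oneB (reE 74) = true := two_r 70 74 q38

end Pool.Agent.Lib.MP_afdd4d_co.K10.LR
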