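import Pool.Agent.Lib.MP_afdd4d_co.K10.LR.R007

/-!
# The rows of the links, part 39
-/

namespace Pool.Agent.Lib.MP_afdd4d_co.K10.LR

open K8 K8.L9

theorem q39 : twoG oneJ 71 83 = true := by decide +kernel

theorem r71 : I.C.oneB (reE 71) = true := two_l 71 83 q39

theorem r83 : I.C.oneB (reE 83) = true := two_r 71 83 q39

end Pool.Agent.Lib.MP_afdd4d_co.K10.LR
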