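import Pool.Agent.Lib.MP_afdd4d_co.K10.LR.R008

/-!
# The rows of the links, part 40
-/

namespace Pool.Agent.Lib.MP_afdd4d_co.K10.LR

open K8 K8.L9

theorem q40 : twoG oneJ 72 78 = true := by decide +kernel

theorem r72 : I.C.oneB (reE 72) = true := two_l 72 78 q40

theorem r78 : I.C.oneB (reE 78) = true := two_r 72 78 q40

end Pool.Agent.Lib.MP_afdd4d_co.K10.LR
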