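import Pool.Agent.Lib.MP_afdd4d_co.K10.LR.R009

/-!
# The rows of the links, part 41
-/

namespace Pool.Agent.Lib.MP_afdd4d_co.K10.LR

open K8 K8.L9

theorem q41 : twoG oneJ 73 99 = true := by decide +kernel

theorem r73 : I.C.oneB (reE 73) = true := two_l 73 99 q41

theorem r99 : I.C.oneB (reE 99) = true := two_r 73 99 q41

end Pool.Agent.Lib.MP_afdd4d_co.K10.LR
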