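import Pool.Agent.Lib.MP_afdd4d_co.K10.LR.R011

/-!
# The rows of the links, part 43
-/

namespace Pool.Agent.Lib.MP_afdd4d_co.K10.LR

open K8 K8.L9

theorem q43 : twoG oneJ 80 84 = true := by decide +kernel

theorem r80 : I.C.oneB (reE 80) = true := two_l 80 84 q43

theorem r84 : I.C.oneB (reE 84) = true := two_r 80 84 q43

end Pool.Agent.Lib.MP_afdd4d_co.K10.LR
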