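import Pool.Agent.Lib.MP_afdd4d_co.K10.LR.R012

/-!
# The rows of the links, part 44
-/

namespace Pool.Agent.Lib.MP_afdd4d_co.K10.LR

open K8 K8.L9

theorem q44 : twoG oneJ 85 90 = true := by decide +kernel

theorem r85 : I.C.oneB (reE 85) = true := two_l 85 90 q44

theorem r90 : I.C.oneB (reE 90) = true := two_r 85 90 q44

end Pool.Agent.Lib.MP_afdd4d_co.K10.LR
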