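import Pool.Agent.Lib.MP_afdd4d_co.K10.LR.R013

/-!
# The rows of the links, part 45
-/

namespace Pool.Agent.Lib.MP_afdd4d_co.K10.LR

open K8 K8.L9

theorem q45 : twoG oneJ 86 88 = true := by decide +kernel

theorem r86 : I.C.oneB (reE 86) = true := two_l 86 88 q45

theorem r88 : I.C.oneB (reE 88) = true := two_r 86 88 q45

end Pool.Agent.Lib.MP_afdd4d_co.K10.LR
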