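import Pool.Agent.Lib.MP_afdd4d_co.K10.LR.R014

/-!
# The rows of the links, part 46
-/

namespace Pool.Agent.Lib.MP_afdd4d_co.K10.LR

open K8 K8.L9

theorem q46 : twoG oneJ 87 89 = true := by decide +kernel

theorem r87 : I.C.oneB (reE 87) = true := two_l 87 89 q46

theorem r89 : I.C.oneB (reE 89) = true := two_r 87 89 q46

end Pool.Agent.Lib.MP_afdd4d_co.K10.LR
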