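import Pool.Agent.Lib.MP_afdd4d_co.K10.LR.R015

/-!
# The rows of the links, part 47
-/

namespace Pool.Agent.Lib.MP_afdd4d_co.K10.LR

open K8 K8.L9

theorem q47 : twoG oneJ 91 92 = true := by decide +kernel

theorem r91 : I.C.oneB (reE 91) = true := two_l 91 92 q47

theorem r92 : I.C.oneB (reE 92) = true := two_r 91 92 q47

end Pool.Agent.Lib.MP_afdd4d_co.K10.LR
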