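import Pool.Agent.Lib.MP_afdd4d_co.K10.LR.R016

/-!
# The rows of the links, part 48
-/

namespace Pool.Agent.Lib.MP_afdd4d_co.K10.LR

open K8 K8.L9

theorem q48 : twoG oneJ 93 114 = true := by decide +kernel

theorem r93 : I.C.oneB (reE 93) = true := two_l 93 114 q48

theorem r114 : I.C.oneB (reE 114) = true := two_r 93 114 q48

end Pool.Agent.Lib.MP_afdd4d_co.K10.LR
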