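import Pool.Agent.Lib.MP_afdd4d_co.K10.LR.R017

/-!
# The rows of the links, part 49
-/

namespace Pool.Agent.Lib.MP_afdd4d_co.K10.LR

open K8 K8.L9

theorem q49 : twoG oneJ 94 113 = true := by decide +kernel

theorem r94 : I.C.oneB (reE 94) = true := two_l 94 113 q49

theorem r113 : I.C.oneB (reE 113) = true := two_r 94 113 q49

end Pool.Agent.Lib.MP_afdd4d_co.K10.LR
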