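import Pool.Agent.Lib.MP_afdd4d_co.K10.LR.R018

/-!
# The rows of the links, part 50
-/

namespace Pool.Agent.Lib.MP_afdd4d_co.K10.LR

open K8 K8.L9

theorem q50 : twoG oneJ 95 106 = true := by decide +kernel

theorem r95 : I.C.oneB (reE 95) = true := two_l 95 106 q50

theorem r106 : I.C.oneB (reE 106) = true := two_r 95 106 q50

end Pool.Agent.Lib.MP_afdd4d_co.K10.LR
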