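import Pool.Agent.Lib.MP_afdd4d_co.K10.LR.R019

/-!
# The rows of the links, part 51
-/

namespace Pool.Agent.Lib.MP_afdd4d_co.K10.LR

open K8 K8.L9

theorem q51 : twoG oneJ 96 118 = true := by decide +kernel

theorem r96 : I.C.oneB (reE 96) = true := two_l 96 118 q51

theorem r118 : I.C.oneB (reE 118) = true := two_r 96 118 q51

end Pool.Agent.Lib.MP_afdd4d_co.K10.LR
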