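import Pool.Agent.Lib.MP_afdd4d_co.K10.LR.R020

/-!
# The rows of the links, part 52
-/

namespace Pool.Agent.Lib.MP_afdd4d_co.K10.LR

open K8 K8.L9

theorem q52 : twoG oneJ 98 103 = true := by decide +kernel

theorem r98 : I.C.oneB (reE 98) = true := two_l 98 103 q52

theorem r103 : I.C.oneB (reE 103) = true := two_r 98 103 q52

end Pool.Agent.Lib.MP_afdd4d_co.K10.LR
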