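import Pool.Agent.Lib.MP_afdd4d_co.K10.LR.R022

/-!
# The rows of the links, part 54
-/

namespace Pool.Agent.Lib.MP_afdd4d_co.K10.LR

open K8 K8.L9

theorem q54 : twoG oneJ 101 116 = true := by decide +kernel

theorem r101 : I.C.oneB (reE 101) = true := two_l 101 116 q54

theorem r116 : I.C.oneB (reE 116) = true := two_r 101 116 q54

end Pool.Agent.Lib.MP_afdd4d_co.K10.LR
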