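import Pool.Agent.Lib.MP_afdd4d_co.K10.LR.R023

/-!
# The rows of the links, part 55
-/

namespace Pool.Agent.Lib.MP_afdd4d_co.K10.LR

open K8 K8.L9

theorem q55 : twoG oneJ 102 126 = true := by decide +kernel

theorem r102 : I.C.oneB (reE 102) = true := two_l 102 126 q55

theorem r126 : I.C.oneB (reE 126) = true := two_r 102 126 q55

end Pool.Agent.Lib.MP_afdd4d_co.K10.LR
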