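import Pool.Agent.Lib.MP_afdd4d_co.K10.LR.R024

/-!
# The rows of the links, part 56
-/

namespace Pool.Agent.Lib.MP_afdd4d_co.K10.LR

open K8 K8.L9

theorem q56 : twoG oneJ 104 121 = true := by decide +kernel

theorem r104 : I.C.oneB (reE 104) = true := two_l 104 121 q56

theorem r121 : I.C.oneB (reE 121) = true := two_r 104 121 q56

end Pool.Agent.Lib.MP_afdd4d_co.K10.LR
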