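import Pool.Agent.Lib.MP_afdd4d_co.K10.LR.R025

/-!
# The rows of the links, part 57
-/

namespace Pool.Agent.Lib.MP_afdd4d_co.K10.LR

open K8 K8.L9

theorem q57 : twoG oneJ 105 122 = true := by decide +kernel

theorem r105 : I.C.oneB (reE 105) = true := two_l 105 122 q57

theorem r122 : I.C.oneB (reE 122) = true := two_r 105 122 q57

end Pool.Agent.Lib.MP_afdd4d_co.K10.LR
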