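import Pool.Agent.Lib.MP_afdd4d_co.K10.LR.R026

/-!
# The rows of the links, part 58
-/

namespace Pool.Agent.Lib.MP_afdd4d_co.K10.LR

open K8 K8.L9

theorem q58 : twoG oneJ 107 112 = true := by decide +kernel

theorem r107 : I.C.oneB (reE 107) = true := two_l 107 112 q58

theorem r112 : I.C.oneB (reE 112) = true := two_r 107 112 q58

end Pool.Agent.Lib.MP_afdd4d_co.K10.LR
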