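import Pool.Agent.Lib.MP_afdd4d_co.K10.LR.R027

/-!
# The rows of the links, part 59
-/

namespace Pool.Agent.Lib.MP_afdd4d_co.K10.LR

open K8 K8.L9

theorem q59 : twoG oneJ 108 109 = true := by decide +kernel

theorem r108 : I.C.oneB (reE 108) = true := two_l 108 109 q59

theorem r109 : I.C.oneB (reE 109) = true := two_r 108 109 q59

end Pool.Agent.Lib.MP_afdd4d_co.K10.LR
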