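import Pool.Agent.Lib.MP_afdd4d_co.K10.LR.R028

/-!
# The rows of the links, part 60
-/

namespace Pool.Agent.Lib.MP_afdd4d_co.K10.LR

open K8 K8.L9

theorem q60 : twoG oneJ 110 115 = true := by decide +kernel

theorem r110 : I.C.oneB (reE 110) = true := two_l 110 115 q60

theorem r115 : I.C.oneB (reE 115) = true := two_r 110 115 q60

end Pool.Agent.Lib.MP_afdd4d_co.K10.LR
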