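import Pool.Agent.Lib.MP_afdd4d_co.K10.LR.R029

/-!
# The rows of the links, part 61
-/

namespace Pool.Agent.Lib.MP_afdd4d_co.K10.LR

open K8 K8.L9

theorem q61 : twoG oneJ 111 117 = true := by decide +kernel

theorem r111 : I.C.oneB (reE 111) = true := two_l 111 117 q61

theorem r117 : I.C.oneB (reE 117) = true := two_r 111 117 q61

end Pool.Agent.Lib.MP_afdd4d_co.K10.LR
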