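import Pool.Agent.Lib.MP_afdd4d_co.K10.LR.R030

/-!
# The rows of the links, part 62
-/

namespace Pool.Agent.Lib.MP_afdd4d_co.K10.LR

open K8 K8.L9

theorem q62 : twoG oneJ 120 127 = true := by decide +kernel

theorem r120 : I.C.oneB (reE 120) = true := two_l 120 127 q62

theorem r127 : I.C.oneB (reE 127) = true := two_r 120 127 q62

end Pool.Agent.Lib.MP_afdd4d_co.K10.LR
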