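import Pool.Agent.Lib.MP_afdd4d_co.K10.LR.R031

/-!
# The rows of the links, part 63
-/

namespace Pool.Agent.Lib.MP_afdd4d_co.K10.LR

open K8 K8.L9

theorem q63 : twoG oneJ 124 125 = true := by decide +kernel

theorem r124 : I.C.oneB (reE 124) = true := two_l 124 125 q63

theorem r125 : I.C.oneB (reE 125) = true := two_r 124 125 q63

end Pool.Agent.Lib.MP_afdd4d_co.K10.LR
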