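import Pool.Agent.Lib.MP_afdd4d_co.K10.LR.R032
import Pool.Agent.Lib.MP_afdd4d_co.K10.LR.R033
import Pool.Agent.Lib.MP_afdd4d_co.K10.LR.R034
import Pool.Agent.Lib.MP_afdd4d_co.K10.LR.R035
import Pool.Agent.Lib.MP_afdd4d_co.K10.LR.R036
import Pool.Agent.Lib.MP_afdd4d_co.K10.LR.R037
import Pool.Agent.Lib.MP_afdd4d_co.K10.LR.R038
import Pool.Agent.Lib.MP_afdd4d_co.K10.LR.R039
import Pool.Agent.Lib.MP_afdd4d_co.K10.LR.R040
import Pool.Agent.Lib.MP_afdd4d_co.K10.LR.R041
import Pool.Agent.Lib.MP_afdd4d_co.K10.LR.R042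
import Pool.Agent.Lib.MP_afdd4d_co.K10.LR.R043
import Pool.Agent.Lib.MP_afdd4d_co.K10.LR.R044
import Pool.Agent.Lib.MP_afdd4d_co.K10.LR.R045
import Pool.Agent.Lib.MP_afdd4d_co.K10.LR.R046
import Pool.Agent.Lib.MP_afdd4d_co.K10.LR.R047
import Pool.Agent.Lib.MP_afdd4d_co.K10.LR.R048
import Pool.Agent.Lib.MP_afdd4d_co.K10.LR.R049
import Pool.Agent.Lib.MP_afdd4d_co.K10.LR.R050
import Pool.Agent.Lib.MP_afdd4d_co.K10.LR.R051
import Pool.Agent.Lib.MP_afdd4d_co.K10.LR.R052
import Pool.Agent.Lib.MP_afdd4d_co.K10.LR.R053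
import Pool.Agent.Lib.MP_afdd4d_co.K10.LR.R054
import Pool.Agent.Lib.MP_afdd4d_co.K10.LR.R055
import Pool.Agent.Lib.MP_afdd4d_co.K10.LR.R056
import Pool.Agent.Lib.MP_afdd4d_co.K10.LR.R057
import Pool.Agent.Lib.MP_afdd4d_co.K10.LR.R058
import Pool.Agent.Lib.MP_afdd4d_co.K10.LR.R059
import Pool.Agent.Lib.MP_afdd4d_co.K10.LR.R060
import Pool.Agent.Lib.MP_afdd4d_co.K10.LR.R061
import Pool.Agent.Lib.MP_afdd4d_co.K10.LR.R062
import Pool.Agent.Lib.MP_afdd4d_co.K10.LR.R063

/-!
# The rows of the links, group 1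
-/

namespace Pool.Agent.Lib.MP_afdd4d_co.K10.LR

open K8 K8.L9

theorem j1 : ∀ j, 64 ≤ j → j < 128 → I.C.oneB (reE j) = true := by
  intro j h1 h2
  interval_cases j
  · exact r64
  · exact r65
  · exact r66
  · exact r67
  · exact r68
  · exact r69
  · exact r70
  · exact r71
  · exact r72
  · exact r73
  · exact r74
  · exact r75
  · exact r76
  · exact r77
  · exact r78
  · exact r79
  · exact r80
  · exact r81
  · exact r82
  · exact r83
  · exact r84
  · exact r85
  · exact r86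
  · exact r87
  · exact r88
  · exact r89
  · exact r90
  · exact r91
  · exact r92
  · exact r93
  · exact r94
  · exact r95
  · exact r96
  · exact r97
  · exact r98
  · exact r99
  · exact r100
  · exact r101
  · exact r102
  · exact r103
  · exact r104
  · exact r105
  · exact r106
  · exact r107
  · exact r108
  · exact r109
  · exact r110
  · exact r111
  · exact r112
  · exact r113
  · exact r114
  · exact r115
  · exact r116
  · exact r117
  · exact r118
  · exact r119
  · exact r120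
  · exact r121
  · exact r122
  · exact r123
  · exact r124
  · exact r125
  · exact r126
  · exact r127

end Pool.Agent.Lib.MP_afdd4d_co.K10.LR
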