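import Pool.Agent.Lib.MP_afdd4d_co.K10.LR.R033

/-!
# The rows of the links, part 65
-/

namespace Pool.Agent.Lib.MP_afdd4d_co.K10.LR

open K8 K8.L9

theorem q65 : twoG oneJ 129 131 = true := by decide +kernel

theorem r129 : I.C.oneB (reE 129) = true := two_l 129 131 q65

theorem r131 : I.C.oneB (reE 131) = true := two_r 129 131 q65

end Pool.Agent.Lib.MP_afdd4d_co.K10.LR
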