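import Pool.Agent.Lib.MP_afdd4d_co.K10.LR.R034

/-!
# The rows of the links, part 66
-/

namespace Pool.Agent.Lib.MP_afdd4d_co.K10.LR

open K8 K8.L9

theorem q66 : twoG oneJ 132 175 = true := by decide +kernel

theorem r132 : I.C.oneB (reE 132) = true := two_l 132 175 q66

theorem r175 : I.C.oneB (reE 175) = true := two_r 132 175 q66

end Pool.Agent.Lib.MP_afdd4d_co.K10.LR
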