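import Pool.Agent.Lib.MP_afdd4d_co.K10.LR.R035

/-!
# The rows of the links, part 67
-/

namespace Pool.Agent.Lib.MP_afdd4d_co.K10.LR

open K8 K8.L9

theorem q67 : twoG oneJ 133 139 = true := by decide +kernel

theorem r133 : I.C.oneB (reE 133) = true := two_l 133 139 q67

theorem r139 : I.C.oneB (reE 139) = true := two_r 133 139 q67

end Pool.Agent.Lib.MP_afdd4d_co.K10.LR
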