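import Pool.Agent.Lib.MP_afdd4d_co.K10.LR.R036

/-!
# The rows of the links, part 68
-/

namespace Pool.Agent.Lib.MP_afdd4d_co.K10.LR

open K8 K8.L9

theorem q68 : twoG oneJ 134 167 = true := by decide +kernel

theorem r134 : I.C.oneB (reE 134) = true := two_l 134 167 q68

theorem r167 : I.C.oneB (reE 167) = true := two_r 134 167 q68

end Pool.Agent.Lib.MP_afdd4d_co.K10.LR
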