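import Pool.Agent.Lib.MP_afdd4d_co.K10.LR.R037

/-!
# The rows of the links, part 69
-/

namespace Pool.Agent.Lib.MP_afdd4d_co.K10.LR

open K8 K8.L9

theorem q69 : twoG oneJ 135 168 = true := by decide +kernel

theorem r135 : I.C.oneB (reE 135) = true := two_l 135 168 q69

theorem r168 : I.C.oneB (reE 168) = true := two_r 135 168 q69

end Pool.Agent.Lib.MP_afdd4d_co.K10.LR
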