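import Pool.Agent.Lib.MP_afdd4d_co.K10.LR.R038

/-!
# The rows of the links, part 70
-/

namespace Pool.Agent.Lib.MP_afdd4d_co.K10.LR

open K8 K8.L9

theorem q70 : twoG oneJ 136 143 = true := by decide +kernel

theorem r136 : I.C.oneB (reE 136) = true := two_l 136 143 q70

theorem r143 : I.C.oneB (reE 143) = true := two_r 136 143 q70

end Pool.Agent.Lib.MP_afdd4d_co.K10.LR
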