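import Pool.Agent.Lib.MP_afdd4d_co.K10.LR.R039

/-!
# The rows of the links, part 71
-/

namespace Pool.Agent.Lib.MP_afdd4d_co.K10.LR

open K8 K8.L9

theorem q71 : twoG oneJ 137 142 = true := by decide +kernel

theorem r137 : I.C.oneB (reE 137) = true := two_l 137 142 q71

theorem r142 : I.C.oneB (reE 142) = true := two_r 137 142 q71

end Pool.Agent.Lib.MP_afdd4d_co.K10.LR
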