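import Pool.Agent.Lib.MP_afdd4d_co.K10.LR.R040

/-!
# The rows of the links, part 72
-/

namespace Pool.Agent.Lib.MP_afdd4d_co.K10.LR

open K8 K8.L9

theorem q72 : twoG oneJ 138 147 = true := by decide +kernel

theorem r138 : I.C.oneB (reE 138) = true := two_l 138 147 q72

theorem r147 : I.C.oneB (reE 147) = true := two_r 138 147 q72

end Pool.Agent.Lib.MP_afdd4d_co.K10.LR
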