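import Pool.Agent.Lib.MP_afdd4d_co.K10.LR.R041

/-!
# The rows of the links, part 73
-/

namespace Pool.Agent.Lib.MP_afdd4d_co.K10.LR

open K8 K8.L9

theorem q73 : twoG oneJ 140 190 = true := by decide +kernel

theorem r140 : I.C.oneB (reE 140) = true := two_l 140 190 q73

theorem r190 : I.C.oneB (reE 190) = true := two_r 140 190 q73

end Pool.Agent.Lib.MP_afdd4d_co.K10.LR
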