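import Pool.Agent.Lib.MP_afdd4d_co.K10.LR.R043

/-!
# The rows of the links, part 75
-/

namespace Pool.Agent.Lib.MP_afdd4d_co.K10.LR

open K8 K8.L9

theorem q75 : twoG oneJ 144 171 = true := by decide +kernel

theorem r144 : I.C.oneB (reE 144) = true := two_l 144 171 q75

theorem r171 : I.C.oneB (reE 171) = true := two_r 144 171 q75

end Pool.Agent.Lib.MP_afdd4d_co.K10.LR
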