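import Pool.Agent.Lib.MP_afdd4d_co.K10.LR.R044

/-!
# The rows of the links, part 76
-/

namespace Pool.Agent.Lib.MP_afdd4d_co.K10.LR

open K8 K8.L9

theorem q76 : twoG oneJ 145 172 = true := by decide +kernel

theorem r145 : I.C.oneB (reE 145) = true := two_l 145 172 q76

theorem r172 : I.C.oneB (reE 172) = true := two_r 145 172 q76

end Pool.Agent.Lib.MP_afdd4d_co.K10.LR
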