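import Pool.Agent.Lib.MP_afdd4d_co.K10.LR.R045

/-!
# The rows of the links, part 77
-/

namespace Pool.Agent.Lib.MP_afdd4d_co.K10.LR

open K8 K8.L9

theorem q77 : twoG oneJ 146 173 = true := by decide +kernel

theorem r146 : I.C.oneB (reE 146) = true := two_l 146 173 q77

theorem r173 : I.C.oneB (reE 173) = true := two_r 146 173 q77

end Pool.Agent.Lib.MP_afdd4d_co.K10.LR
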