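import Pool.Agent.Lib.MP_afdd4d_co.K10.LR.R046

/-!
# The rows of the links, part 78
-/

namespace Pool.Agent.Lib.MP_afdd4d_co.K10.LR

open K8 K8.L9

theorem q78 : twoG oneJ 148 174 = true := by decide +kernel

theorem r148 : I.C.oneB (reE 148) = true := two_l 148 174 q78

theorem r174 : I.C.oneB (reE 174) = true := two_r 148 174 q78

end Pool.Agent.Lib.MP_afdd4d_co.K10.LR
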