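import Pool.Agent.Lib.MP_afdd4d_co.K10.LR.R047

/-!
# The rows of the links, part 79
-/

namespace Pool.Agent.Lib.MP_afdd4d_co.K10.LR

open K8 K8.L9

theorem q79 : twoG oneJ 149 189 = true := by decide +kernel

theorem r149 : I.C.oneB (reE 149) = true := two_l 149 189 q79

theorem r189 : I.C.oneB (reE 189) = true := two_r 149 189 q79

end Pool.Agent.Lib.MP_afdd4d_co.K10.LR
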