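import Pool.Agent.Lib.MP_afdd4d_co.K10.LR.R048

/-!
# The rows of the links, part 80
-/

namespace Pool.Agent.Lib.MP_afdd4d_co.K10.LR

open K8 K8.L9

theorem q80 : twoG oneJ 150 176 = true := by decide +kernel

theorem r150 : I.C.oneB (reE 150) = true := two_l 150 176 q80

theorem r176 : I.C.oneB (reE 176) = true := two_r 150 176 q80

end Pool.Agent.Lib.MP_afdd4d_co.K10.LR
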