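import Pool.Agent.Lib.MP_afdd4d_co.K10.LR.R049

/-!
# The rows of the links, part 81
-/

namespace Pool.Agent.Lib.MP_afdd4d_co.K10.LR

open K8 K8.L9

theorem q81 : twoG oneJ 151 187 = true := by decide +kernel

theorem r151 : I.C.oneB (reE 151) = true := two_l 151 187 q81

theorem r187 : I.C.oneB (reE 187) = true := two_r 151 187 q81

end Pool.Agent.Lib.MP_afdd4d_co.K10.LR
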