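import Pool.Agent.Lib.MP_afdd4d_co.K10.LR.R050

/-!
# The rows of the links, part 82
-/

namespace Pool.Agent.Lib.MP_afdd4d_co.K10.LR

open K8 K8.L9

theorem q82 : twoG oneJ 152 177 = true := by decide +kernel

theorem r152 : I.C.oneB (reE 152) = true := two_l 152 177 q82

theorem r177 : I.C.oneB (reE 177) = true := two_r 152 177 q82

end Pool.Agent.Lib.MP_afdd4d_co.K10.LR
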