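import Pool.Agent.Lib.MP_afdd4d_co.K10.LR.R051

/-!
# The rows of the links, part 83
-/

namespace Pool.Agent.Lib.MP_afdd4d_co.K10.LR

open K8 K8.L9

theorem q83 : twoG oneJ 153 178 = true := by decide +kernel

theorem r153 : I.C.oneB (reE 153) = true := two_l 153 178 q83

theorem r178 : I.C.oneB (reE 178) = true := two_r 153 178 q83

end Pool.Agent.Lib.MP_afdd4d_co.K10.LR
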