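import Pool.Agent.Lib.MP_afdd4d_co.K10.LR.R052

/-!
# The rows of the links, part 84
-/

namespace Pool.Agent.Lib.MP_afdd4d_co.K10.LR

open K8 K8.L9

theorem q84 : twoG oneJ 154 179 = true := by decide +kernel

theorem r154 : I.C.oneB (reE 154) = true := two_l 154 179 q84

theorem r179 : I.C.oneB (reE 179) = true := two_r 154 179 q84

end Pool.Agent.Lib.MP_afdd4d_co.K10.LR
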