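import Pool.Agent.Lib.MP_afdd4d_co.K10.LR.R054

/-!
# The rows of the links, part 86
-/

namespace Pool.Agent.Lib.MP_afdd4d_co.K10.LR

open K8 K8.L9

theorem q86 : twoG oneJ 156 181 = true := by decide +kernel

theorem r156 : I.C.oneB (reE 156) = true := two_l 156 181 q86

theorem r181 : I.C.oneB (reE 181) = true := two_r 156 181 q86

end Pool.Agent.Lib.MP_afdd4d_co.K10.LR
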