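import Pool.Agent.Lib.MP_afdd4d_co.K10.LR.R055

/-!
# The rows of the links, part 87
-/

namespace Pool.Agent.Lib.MP_afdd4d_co.K10.LR

open K8 K8.L9

theorem q87 : twoG oneJ 157 158 = true := by decide +kernel

theorem r157 : I.C.oneB (reE 157) = true := two_l 157 158 q87

theorem r158 : I.C.oneB (reE 158) = true := two_r 157 158 q87

end Pool.Agent.Lib.MP_afdd4d_co.K10.LR
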