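import Pool.Agent.Lib.MP_afdd4d_co.K10.LR.R056

/-!
# The rows of the links, part 88
-/

namespace Pool.Agent.Lib.MP_afdd4d_co.K10.LR

open K8 K8.L9

theorem q88 : twoG oneJ 159 182 = true := by decide +kernel

theorem r159 : I.C.oneB (reE 159) = true := two_l 159 182 q88

theorem r182 : I.C.oneB (reE 182) = true := two_r 159 182 q88

end Pool.Agent.Lib.MP_afdd4d_co.K10.LR
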