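import Pool.Agent.Lib.MP_afdd4d_co.K10.LR.R057

/-!
# The rows of the links, part 89
-/

namespace Pool.Agent.Lib.MP_afdd4d_co.K10.LR

open K8 K8.L9

theorem q89 : twoG oneJ 160 163 = true := by decide +kernel

theorem r160 : I.C.oneB (reE 160) = true := two_l 160 163 q89

theorem r163 : I.C.oneB (reE 163) = true := two_r 160 163 q89

end Pool.Agent.Lib.MP_afdd4d_co.K10.LR
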