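import Pool.Agent.Lib.MP_afdd4d_co.K10.LR.R058

/-!
# The rows of the links, part 90
-/

namespace Pool.Agent.Lib.MP_afdd4d_co.K10.LR

open K8 K8.L9

theorem q90 : twoG oneJ 161 165 = true := by decide +kernel

theorem r161 : I.C.oneB (reE 161) = true := two_l 161 165 q90

theorem r165 : I.C.oneB (reE 165) = true := two_r 161 165 q90

end Pool.Agent.Lib.MP_afdd4d_co.K10.LR
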