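import Pool.Agent.Lib.MP_afdd4d_co.K10.LR.R059

/-!
# The rows of the links, part 91
-/

namespace Pool.Agent.Lib.MP_afdd4d_co.K10.LR

open K8 K8.L9

theorem q91 : twoG oneJ 162 164 = true := by decide +kernel

theorem r162 : I.C.oneB (reE 162) = true := two_l 162 164 q91

theorem r164 : I.C.oneB (reE 164) = true := two_r 162 164 q91

end Pool.Agent.Lib.MP_afdd4d_co.K10.LR
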