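import Pool.Agent.Lib.MP_afdd4d_co.K10.LR.R060

/-!
# The rows of the links, part 92
-/

namespace Pool.Agent.Lib.MP_afdd4d_co.K10.LR

open K8 K8.L9

theorem q92 : twoG oneJ 169 170 = true := by decide +kernel

theorem r169 : I.C.oneB (reE 169) = true := two_l 169 170 q92

theorem r170 : I.C.oneB (reE 170) = true := two_r 169 170 q92

end Pool.Agent.Lib.MP_afdd4d_co.K10.LR
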