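import Pool.Agent.Lib.MP_afdd4d_co.K10.LR.R061

/-!
# The rows of the links, part 93
-/

namespace Pool.Agent.Lib.MP_afdd4d_co.K10.LR

open K8 K8.L9

theorem q93 : twoG oneJ 183 186 = true := by decide +kernel

theorem r183 : I.C.oneB (reE 183) = true := two_l 183 186 q93

theorem r186 : I.C.oneB (reE 186) = true := two_r 183 186 q93

end Pool.Agent.Lib.MP_afdd4d_co.K10.LR
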