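import Pool.Agent.Lib.MP_afdd4d_co.K10.LR.R062

/-!
# The rows of the links, part 94
-/

namespace Pool.Agent.Lib.MP_afdd4d_co.K10.LR

open K8 K8.L9

theorem q94 : twoG oneJ 184 191 = true := by decide +kernel

theorem r184 : I.C.oneB (reE 184) = true := two_l 184 191 q94

theorem r191 : I.C.oneB (reE 191) = true := two_r 184 191 q94

end Pool.Agent.Lib.MP_afdd4d_co.K10.LR
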