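import Pool.Agent.Lib.MP_afdd4d_co.K10.LR.R063

/-!
# The rows of the links, part 95
-/

namespace Pool.Agent.Lib.MP_afdd4d_co.K10.LR

open K8 K8.L9

theorem q95 : twoG oneJ 185 188 = true := by decide +kernel

theorem r185 : I.C.oneB (reE 185) = true := two_l 185 188 q95

theorem r188 : I.C.oneB (reE 188) = true := two_r 185 188 q95

end Pool.Agent.Lib.MP_afdd4d_co.K10.LR
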