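import Pool.Agent.Lib.MP_afdd4d_co.K10.LR.R064
import Pool.Agent.Lib.MP_afdd4d_co.K10.LR.R065
import Pool.Agent.Lib.MP_afdd4d_co.K10.LR.R066
import Pool.Agent.Lib.MP_afdd4d_co.K10.LR.R067
import Pool.Agent.Lib.MP_afdd4d_co.K10.LR.R068
import Pool.Agent.Lib.MP_afdd4d_co.K10.LR.R069
import Pool.Agent.Lib.MP_afdd4d_co.K10.LR.R070
import Pool.Agent.Lib.MP_afdd4d_co.K10.LR.R071
import Pool.Agent.Lib.MP_afdd4d_co.K10.LR.R072
import Pool.Agent.Lib.MP_afdd4d_co.K10.LR.R073
import Pool.Agent.Lib.MP_afdd4d_co.K10.LR.R074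
import Pool.Agent.Lib.MP_afdd4d_co.K10.LR.R075
import Pool.Agent.Lib.MP_afdd4d_co.K10.LR.R076
import Pool.Agent.Lib.MP_afdd4d_co.K10.LR.R077
import Pool.Agent.Lib.MP_afdd4d_co.K10.LR.R078
import Pool.Agent.Lib.MP_afdd4d_co.K10.LR.R079
import Pool.Agent.Lib.MP_afdd4d_co.K10.LR.R080
import Pool.Agent.Lib.MP_afdd4d_co.K10.LR.R081
import Pool.Agent.Lib.MP_afdd4d_co.K10.LR.R082
import Pool.Agent.Lib.MP_afdd4d_co.K10.LR.R083
import Pool.Agent.Lib.MP_afdd4d_co.K10.LR.R084
import Pool.Agent.Lib.MP_afdd4d_co.K10.LR.R085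
import Pool.Agent.Lib.MP_afdd4d_co.K10.LR.R086
import Pool.Agent.Lib.MP_afdd4d_co.K10.LR.R087
import Pool.Agent.Lib.MP_afdd4d_co.K10.LR.R088
import Pool.Agent.Lib.MP_afdd4d_co.K10.LR.R089
import Pool.Agent.Lib.MP_afdd4d_co.K10.LR.R090
import Pool.Agent.Lib.MP_afdd4d_co.K10.LR.R091
import Pool.Agent.Lib.MP_afdd4d_co.K10.LR.R092
import Pool.Agent.Lib.MP_afdd4d_co.K10.LR.R093
import Pool.Agent.Lib.MP_afdd4d_co.K10.LR.R094
import Pool.Agent.Lib.MP_afdd4d_co.K10.LR.R095

/-!
# The rows of the links, group 2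
-/

namespace Pool.Agent.Lib.MP_afdd4d_co.K10.LR

open K8 K8.L9

theorem j2 : ∀ j, 128 ≤ j → j < 192 → I.C.oneB (reE j) = true := by
  intro j h1 h2
  interval_cases j
  · exact r128
  · exact r129
  · exact r130
  · exact r131
  · exact r132
  · exact r133
  · exact r134
  · exact r135
  · exact r136
  · exact r137
  · exact r138
  · exact r139
  · exact r140
  · exact r141
  · exact r142
  · exact r143
  · exact r144
  · exact r145
  · exact r146
  · exact r147
  · exact r148
  · exact r149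
  · exact r150
  · exact r151
  · exact r152
  · exact r153
  · exact r154
  · exact r155
  · exact r156
  · exact r157
  · exact r158
  · exact r159
  · exact r160
  · exact r161
  · exact r162
  · exact r163
  · exact r164
  · exact r165
  · exact r166
  · exact r167
  · exact r168
  · exact r169
  · exact r170
  · exact r171
  · exact r172
  · exact r173
  · exact r174
  · exact r175
  · exact r176
  · exact r177
  · exact r178
  · exact r179
  · exact r180
  · exact r181
  · exact r182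
  · exact r183
  · exact r184
  · exact r185
  · exact r186
  · exact r187
  · exact r188
  · exact r189
  · exact r190
  · exact r191

end Pool.Agent.Lib.MP_afdd4d_co.K10.LR
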