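import Pool.Agent.Lib.MP_afdd4d_co.K10.LR.R065

/-!
# The rows of the links, part 97
-/

namespace Pool.Agent.Lib.MP_afdd4d_co.K10.LR

open K8 K8.L9

theorem q97 : twoG oneJ 193 194 = true := by decide +kernel

theorem r193 : I.C.oneB (reE 193) = true := two_l 193 194 q97

theorem r194 : I.C.oneB (reE 194) = true := two_r 193 194 q97

end Pool.Agent.Lib.MP_afdd4d_co.K10.LR
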