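import Pool.Agent.Lib.MP_afdd4d_co.K10.LR.R066

/-!
# The rows of the links, part 98
-/

namespace Pool.Agent.Lib.MP_afdd4d_co.K10.LR

open K8 K8.L9

theorem q98 : twoG oneJ 195 205 = true := by decide +kernel

theorem r195 : I.C.oneB (reE 195) = true := two_l 195 205 q98

theorem r205 : I.C.oneB (reE 205) = true := two_r 195 205 q98

end Pool.Agent.Lib.MP_afdd4d_co.K10.LR
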