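import Pool.Agent.Lib.MP_afdd4d_co.K10.LR.R067

/-!
# The rows of the links, part 99
-/

namespace Pool.Agent.Lib.MP_afdd4d_co.K10.LR

open K8 K8.L9

theorem q99 : twoG oneJ 196 203 = true := by decide +kernel

theorem r196 : I.C.oneB (reE 196) = true := two_l 196 203 q99

theorem r203 : I.C.oneB (reE 203) = true := two_r 196 203 q99

end Pool.Agent.Lib.MP_afdd4d_co.K10.LR
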