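import Pool.Agent.Lib.MP_afdd4d_co.K10.LR.R068

/-!
# The rows of the links, part 100
-/

namespace Pool.Agent.Lib.MP_afdd4d_co.K10.LR

open K8 K8.L9

theorem q100 : twoG oneJ 198 204 = true := by decide +kernel

theorem r198 : I.C.oneB (reE 198) = true := two_l 198 204 q100

theorem r204 : I.C.oneB (reE 204) = true := two_r 198 204 q100

end Pool.Agent.Lib.MP_afdd4d_co.K10.LR
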