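import Pool.Agent.Lib.MP_afdd4d_co.K10.LR.R069

/-!
# The rows of the links, part 101
-/

namespace Pool.Agent.Lib.MP_afdd4d_co.K10.LR

open K8 K8.L9

theorem q101 : twoG oneJ 199 245 = true := by decide +kernel

theorem r199 : I.C.oneB (reE 199) = true := two_l 199 245 q101

theorem r245 : I.C.oneB (reE 245) = true := two_r 199 245 q101

end Pool.Agent.Lib.MP_afdd4d_co.K10.LR
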