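import Pool.Agent.Lib.MP_afdd4d_co.K10.LR.R070

/-!
# The rows of the links, part 102
-/

namespace Pool.Agent.Lib.MP_afdd4d_co.K10.LR

open K8 K8.L9

theorem q102 : twoG oneJ 200 201 = true := by decide +kernel

theorem r200 : I.C.oneB (reE 200) = true := two_l 200 201 q102

theorem r201 : I.C.oneB (reE 201) = true := two_r 200 201 q102

end Pool.Agent.Lib.MP_afdd4d_co.K10.LR
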