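import Pool.Agent.Lib.MP_afdd4d_co.K10.LR.R071

/-!
# The rows of the links, part 103
-/

namespace Pool.Agent.Lib.MP_afdd4d_co.K10.LR

open K8 K8.L9

theorem q103 : twoG oneJ 202 239 = true := by decide +kernel

theorem r202 : I.C.oneB (reE 202) = true := two_l 202 239 q103

theorem r239 : I.C.oneB (reE 239) = true := two_r 202 239 q103

end Pool.Agent.Lib.MP_afdd4d_co.K10.LR
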