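import Pool.Agent.Lib.MP_afdd4d_co.K10.LR.R072

/-!
# The rows of the links, part 104
-/

namespace Pool.Agent.Lib.MP_afdd4d_co.K10.LR

open K8 K8.L9

theorem q104 : twoG oneJ 206 247 = true := by decide +kernel

theorem r206 : I.C.oneB (reE 206) = true := two_l 206 247 q104

theorem r247 : I.C.oneB (reE 247) = true := two_r 206 247 q104

end Pool.Agent.Lib.MP_afdd4d_co.K10.LR
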