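import Pool.Agent.Lib.MP_afdd4d_co.K10.LR.R073

/-!
# The rows of the links, part 105
-/

namespace Pool.Agent.Lib.MP_afdd4d_co.K10.LR

open K8 K8.L9

theorem q105 : twoG oneJ 207 235 = true := by decide +kernel

theorem r207 : I.C.oneB (reE 207) = true := two_l 207 235 q105

theorem r235 : I.C.oneB (reE 235) = true := two_r 207 235 q105

end Pool.Agent.Lib.MP_afdd4d_co.K10.LR
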