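import Pool.Agent.Lib.MP_afdd4d_co.K10.LR.R075

/-!
# The rows of the links, part 107
-/

namespace Pool.Agent.Lib.MP_afdd4d_co.K10.LR

open K8 K8.L9

theorem q107 : twoG oneJ 209 230 = true := by decide +kernel

theorem r209 : I.C.oneB (reE 209) = true := two_l 209 230 q107

theorem r230 : I.C.oneB (reE 230) = true := two_r 209 230 q107

end Pool.Agent.Lib.MP_afdd4d_co.K10.LR
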