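import Pool.Agent.Lib.MP_afdd4d_co.K10.LR.R076

/-!
# The rows of the links, part 108
-/

namespace Pool.Agent.Lib.MP_afdd4d_co.K10.LR

open K8 K8.L9

theorem q108 : twoG oneJ 210 216 = true := by decide +kernel

theorem r210 : I.C.oneB (reE 210) = true := two_l 210 216 q108

theorem r216 : I.C.oneB (reE 216) = true := two_r 210 216 q108

end Pool.Agent.Lib.MP_afdd4d_co.K10.LR
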