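import Pool.Agent.Lib.MP_afdd4d_co.K10.LR.R077

/-!
# The rows of the links, part 109
-/

namespace Pool.Agent.Lib.MP_afdd4d_co.K10.LR

open K8 K8.L9

theorem q109 : twoG oneJ 211 217 = true := by decide +kernel

theorem r211 : I.C.oneB (reE 211) = true := two_l 211 217 q109

theorem r217 : I.C.oneB (reE 217) = true := two_r 211 217 q109

end Pool.Agent.Lib.MP_afdd4d_co.K10.LR
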