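import Pool.Agent.Lib.MP_afdd4d_co.K10.LR.R078

/-!
# The rows of the links, part 110
-/

namespace Pool.Agent.Lib.MP_afdd4d_co.K10.LR

open K8 K8.L9

theorem q110 : twoG oneJ 212 219 = true := by decide +kernel

theorem r212 : I.C.oneB (reE 212) = true := two_l 212 219 q110

theorem r219 : I.C.oneB (reE 219) = true := two_r 212 219 q110

end Pool.Agent.Lib.MP_afdd4d_co.K10.LR
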