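import Pool.Agent.Lib.MP_afdd4d_co.K10.LR.R079

/-!
# The rows of the links, part 111
-/

namespace Pool.Agent.Lib.MP_afdd4d_co.K10.LR

open K8 K8.L9

theorem q111 : twoG oneJ 213 214 = true := by decide +kernel

theorem r213 : I.C.oneB (reE 213) = true := two_l 213 214 q111

theorem r214 : I.C.oneB (reE 214) = true := two_r 213 214 q111

end Pool.Agent.Lib.MP_afdd4d_co.K10.LR
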