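import Pool.Agent.Lib.MP_afdd4d_co.K10.LR.R080

/-!
# The rows of the links, part 112
-/

namespace Pool.Agent.Lib.MP_afdd4d_co.K10.LR

open K8 K8.L9

theorem q112 : twoG oneJ 218 234 = true := by decide +kernel

theorem r218 : I.C.oneB (reE 218) = true := two_l 218 234 q112

theorem r234 : I.C.oneB (reE 234) = true := two_r 218 234 q112

end Pool.Agent.Lib.MP_afdd4d_co.K10.LR
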