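import Pool.Agent.Lib.MP_afdd4d_co.K10.LR.R081

/-!
# The rows of the links, part 113
-/

namespace Pool.Agent.Lib.MP_afdd4d_co.K10.LR

open K8 K8.L9

theorem q113 : twoG oneJ 220 246 = true := by decide +kernel

theorem r220 : I.C.oneB (reE 220) = true := two_l 220 246 q113

theorem r246 : I.C.oneB (reE 246) = true := two_r 220 246 q113

end Pool.Agent.Lib.MP_afdd4d_co.K10.LR
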