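import Pool.Agent.Lib.MP_afdd4d_co.K10.LR.R082

/-!
# The rows of the links, part 114
-/

namespace Pool.Agent.Lib.MP_afdd4d_co.K10.LR

open K8 K8.L9

theorem q114 : twoG oneJ 221 226 = true := by decide +kernel

theorem r221 : I.C.oneB (reE 221) = true := two_l 221 226 q114

theorem r226 : I.C.oneB (reE 226) = true := two_r 221 226 q114

end Pool.Agent.Lib.MP_afdd4d_co.K10.LR
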