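import Pool.Agent.Lib.MP_afdd4d_co.K10.LR.R083

/-!
# The rows of the links, part 115
-/

namespace Pool.Agent.Lib.MP_afdd4d_co.K10.LR

open K8 K8.L9

theorem q115 : twoG oneJ 222 225 = true := by decide +kernel

theorem r222 : I.C.oneB (reE 222) = true := two_l 222 225 q115

theorem r225 : I.C.oneB (reE 225) = true := two_r 222 225 q115

end Pool.Agent.Lib.MP_afdd4d_co.K10.LR
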