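import Pool.Agent.Lib.MP_afdd4d_co.K10.LR.R084

/-!
# The rows of the links, part 116
-/

namespace Pool.Agent.Lib.MP_afdd4d_co.K10.LR

open K8 K8.L9

theorem q116 : twoG oneJ 223 229 = true := by decide +kernel

theorem r223 : I.C.oneB (reE 223) = true := two_l 223 229 q116

theorem r229 : I.C.oneB (reE 229) = true := two_r 223 229 q116

end Pool.Agent.Lib.MP_afdd4d_co.K10.LR
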