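import Pool.Agent.Lib.MP_afdd4d_co.K10.LR.R086

/-!
# The rows of the links, part 118
-/

namespace Pool.Agent.Lib.MP_afdd4d_co.K10.LR

open K8 K8.L9

theorem q118 : twoG oneJ 228 232 = true := by decide +kernel

theorem r228 : I.C.oneB (reE 228) = true := two_l 228 232 q118

theorem r232 : I.C.oneB (reE 232) = true := two_r 228 232 q118

end Pool.Agent.Lib.MP_afdd4d_co.K10.LR
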