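import Pool.Agent.Lib.MP_afdd4d_co.K10.LR.R087

/-!
# The rows of the links, part 119
-/

namespace Pool.Agent.Lib.MP_afdd4d_co.K10.LR

open K8 K8.L9

theorem q119 : twoG oneJ 231 233 = true := by decide +kernel

theorem r231 : I.C.oneB (reE 231) = true := two_l 231 233 q119

theorem r233 : I.C.oneB (reE 233) = true := two_r 231 233 q119

end Pool.Agent.Lib.MP_afdd4d_co.K10.LR
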