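import Pool.Agent.Lib.MP_afdd4d_co.K10.LR.R088

/-!
# The rows of the links, part 120
-/

namespace Pool.Agent.Lib.MP_afdd4d_co.K10.LR

open K8 K8.L9

theorem q120 : twoG oneJ 236 254 = true := by decide +kernel

theorem r236 : I.C.oneB (reE 236) = true := two_l 236 254 q120

theorem r254 : I.C.oneB (reE 254) = true := two_r 236 254 q120

end Pool.Agent.Lib.MP_afdd4d_co.K10.LR
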