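import Pool.Agent.Lib.MP_afdd4d_co.K10.LR.R089

/-!
# The rows of the links, part 121
-/

namespace Pool.Agent.Lib.MP_afdd4d_co.K10.LR

open K8 K8.L9

theorem q121 : twoG oneJ 237 240 = true := by decide +kernel

theorem r237 : I.C.oneB (reE 237) = true := two_l 237 240 q121

theorem r240 : I.C.oneB (reE 240) = true := two_r 237 240 q121

end Pool.Agent.Lib.MP_afdd4d_co.K10.LR
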