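import Pool.Agent.Lib.MP_afdd4d_co.K10.LR.R090

/-!
# The rows of the links, part 122
-/

namespace Pool.Agent.Lib.MP_afdd4d_co.K10.LR

open K8 K8.L9

theorem q122 : twoG oneJ 238 241 = true := by decide +kernel

theorem r238 : I.C.oneB (reE 238) = true := two_l 238 241 q122

theorem r241 : I.C.oneB (reE 241) = true := two_r 238 241 q122

end Pool.Agent.Lib.MP_afdd4d_co.K10.LR
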