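import Pool.Agent.Lib.MP_afdd4d_co.K10.LR.R091

/-!
# The rows of the links, part 123
-/

namespace Pool.Agent.Lib.MP_afdd4d_co.K10.LR

open K8 K8.L9

theorem q123 : twoG oneJ 242 243 = true := by decide +kernel

theorem r242 : I.C.oneB (reE 242) = true := two_l 242 243 q123

theorem r243 : I.C.oneB (reE 243) = true := two_r 242 243 q123

end Pool.Agent.Lib.MP_afdd4d_co.K10.LR
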