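import Pool.Agent.Lib.MP_afdd4d_co.K10.LR.R092

/-!
# The rows of the links, part 124
-/

namespace Pool.Agent.Lib.MP_afdd4d_co.K10.LR

open K8 K8.L9

theorem q124 : twoG oneJ 244 248 = true := by decide +kernel

theorem r244 : I.C.oneB (reE 244) = true := two_l 244 248 q124

theorem r248 : I.C.oneB (reE 248) = true := two_r 244 248 q124

end Pool.Agent.Lib.MP_afdd4d_co.K10.LR
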