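import Pool.Agent.Lib.MP_afdd4d_co.K10.LR.R093

/-!
# The rows of the links, part 125
-/

namespace Pool.Agent.Lib.MP_afdd4d_co.K10.LR

open K8 K8.L9

theorem q125 : twoG oneJ 249 251 = true := by decide +kernel

theorem r249 : I.C.oneB (reE 249) = true := two_l 249 251 q125

theorem r251 : I.C.oneB (reE 251) = true := two_r 249 251 q125

end Pool.Agent.Lib.MP_afdd4d_co.K10.LR
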