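import Pool.Agent.Lib.MP_afdd4d_co.K10.LR.R094

/-!
# The rows of the links, part 126
-/

namespace Pool.Agent.Lib.MP_afdd4d_co.K10.LR

open K8 K8.L9

theorem q126 : twoG oneJ 250 253 = true := by decide +kernel

theorem r250 : I.C.oneB (reE 250) = true := two_l 250 253 q126

theorem r253 : I.C.oneB (reE 253) = true := two_r 250 253 q126

end Pool.Agent.Lib.MP_afdd4d_co.K10.LR
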