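import Pool.Agent.Lib.MP_afdd4d_co.K10.LR.R095

/-!
# The rows of the links, part 127
-/

namespace Pool.Agent.Lib.MP_afdd4d_co.K10.LR

open K8 K8.L9

theorem q127 : twoG oneJ 252 255 = true := by decide +kernel

theorem r252 : I.C.oneB (reE 252) = true := two_l 252 255 q127

theorem r255 : I.C.oneB (reE 255) = true := two_r 252 255 q127

end Pool.Agent.Lib.MP_afdd4d_co.K10.LR
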