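import Pool.Agent.Lib.MP_afdd4d_co.K10.LR.R096
import Pool.Agent.Lib.MP_afdd4d_co.K10.LR.R097
import Pool.Agent.Lib.MP_afdd4d_co.K10.LR.R098
import Pool.Agent.Lib.MP_afdd4d_co.K10.LR.R099
import Pool.Agent.Lib.MP_afdd4d_co.K10.LR.R100
import Pool.Agent.Lib.MP_afdd4d_co.K10.LR.R101
import Pool.Agent.Lib.MP_afdd4d_co.K10.LR.R102
import Pool.Agent.Lib.MP_afdd4d_co.K10.LR.R103
import Pool.Agent.Lib.MP_afdd4d_co.K10.LR.R104
import Pool.Agent.Lib.MP_afdd4d_co.K10.LR.R105
import Pool.Agent.Lib.MP_afdd4d_co.K10.LR.R106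
import Pool.Agent.Lib.MP_afdd4d_co.K10.LR.R107
import Pool.Agent.Lib.MP_afdd4d_co.K10.LR.R108
import Pool.Agent.Lib.MP_afdd4d_co.K10.LR.R109
import Pool.Agent.Lib.MP_afdd4d_co.K10.LR.R110
import Pool.Agent.Lib.MP_afdd4d_co.K10.LR.R111
import Pool.Agent.Lib.MP_afdd4d_co.K10.LR.R112
import Pool.Agent.Lib.MP_afdd4d_co.K10.LR.R113
import Pool.Agent.Lib.MP_afdd4d_co.K10.LR.R114
import Pool.Agent.Lib.MP_afdd4d_co.K10.LR.R115
import Pool.Agent.Lib.MP_afdd4d_co.K10.LR.R116
import Pool.Agent.Lib.MP_afdd4d_co.K10.LR.R117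
import Pool.Agent.Lib.MP_afdd4d_co.K10.LR.R118
import Pool.Agent.Lib.MP_afdd4d_co.K10.LR.R119
import Pool.Agent.Lib.MP_afdd4d_co.K10.LR.R120
import Pool.Agent.Lib.MP_afdd4d_co.K10.LR.R121
import Pool.Agent.Lib.MP_afdd4d_co.K10.LR.R122
import Pool.Agent.Lib.MP_afdd4d_co.K10.LR.R123
import Pool.Agent.Lib.MP_afdd4d_co.K10.LR.R124
import Pool.Agent.Lib.MP_afdd4d_co.K10.LR.R125
import Pool.Agent.Lib.MP_afdd4d_co.K10.LR.R126
import Pool.Agent.Lib.MP_afdd4d_co.K10.LR.R127

/-!
# The rows of the links, group 3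
-/

namespace Pool.Agent.Lib.MP_afdd4d_co.K10.LR

open K8 K8.L9

theorem j3 : ∀ j, 192 ≤ j → j < 256 → I.C.oneB (reE j) = true := by
  intro j h1 h2
  interval_cases j
  · exact r192
  · exact r193
  · exact r194
  · exact r195
  · exact r196
  · exact r197
  · exact r198
  · exact r199
  · exact r200
  · exact r201
  · exact r202
  · exact r203
  · exact r204
  · exact r205
  · exact r206
  · exact r207
  · exact r208
  · exact r209
  · exact r210
  · exact r211
  · exact r212
  · exact r213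
  · exact r214
  · exact r215
  · exact r216
  · exact r217
  · exact r218
  · exact r219
  · exact r220
  · exact r221
  · exact r222
  · exact r223
  · exact r224
  · exact r225
  · exact r226
  · exact r227
  · exact r228
  · exact r229
  · exact r230
  · exact r231
  · exact r232
  · exact r233
  · exact r234
  · exact r235
  · exact r236
  · exact r237
  · exact r238
  · exact r239
  · exact r240
  · exact r241
  · exact r242
  · exact r243
  · exact r244
  · exact r245
  · exact r246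
  · exact r247
  · exact r248
  · exact r249
  · exact r250
  · exact r251
  · exact r252
  · exact r253
  · exact r254
  · exact r255

end Pool.Agent.Lib.MP_afdd4d_co.K10.LR
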