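import Pool.Agent.Lib.MP_afdd4d_co.K10.LR.R097

/-!
# The rows of the links, part 129
-/

namespace Pool.Agent.Lib.MP_afdd4d_co.K10.LR

open K8 K8.L9

theorem q129 : twoG oneJ 257 264 = true := by decide +kernel

theorem r257 : I.C.oneB (reE 257) = true := two_l 257 264 q129

theorem r264 : I.C.oneB (reE 264) = true := two_r 257 264 q129

end Pool.Agent.Lib.MP_afdd4d_co.K10.LR
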