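import Pool.Agent.Lib.MP_afdd4d_co.K10.LR.R098

/-!
# The rows of the links, part 130
-/

namespace Pool.Agent.Lib.MP_afdd4d_co.K10.LR

open K8 K8.L9

theorem q130 : twoG oneJ 258 289 = true := by decide +kernel

theorem r258 : I.C.oneB (reE 258) = true := two_l 258 289 q130

theorem r289 : I.C.oneB (reE 289) = true := two_r 258 289 q130

end Pool.Agent.Lib.MP_afdd4d_co.K10.LR
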