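import Pool.Agent.Lib.MP_afdd4d_co.K10.LR.R099

/-!
# The rows of the links, part 131
-/

namespace Pool.Agent.Lib.MP_afdd4d_co.K10.LR

open K8 K8.L9

theorem q131 : twoG oneJ 259 276 = true := by decide +kernel

theorem r259 : I.C.oneB (reE 259) = true := two_l 259 276 q131

theorem r276 : I.C.oneB (reE 276) = true := two_r 259 276 q131

end Pool.Agent.Lib.MP_afdd4d_co.K10.LR
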