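import Pool.Agent.Lib.MP_afdd4d_co.K10.LR.R100

/-!
# The rows of the links, part 132
-/

namespace Pool.Agent.Lib.MP_afdd4d_co.K10.LR

open K8 K8.L9

theorem q132 : twoG oneJ 260 261 = true := by decide +kernel

theorem r260 : I.C.oneB (reE 260) = true := two_l 260 261 q132

theorem r261 : I.C.oneB (reE 261) = true := two_r 260 261 q132

end Pool.Agent.Lib.MP_afdd4d_co.K10.LR
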