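import Pool.Agent.Lib.MP_afdd4d_co.K10.LR.R101

/-!
# The rows of the links, part 133
-/

namespace Pool.Agent.Lib.MP_afdd4d_co.K10.LR

open K8 K8.L9

theorem q133 : twoG oneJ 262 279 = true := by decide +kernel

theorem r262 : I.C.oneB (reE 262) = true := two_l 262 279 q133

theorem r279 : I.C.oneB (reE 279) = true := two_r 262 279 q133

end Pool.Agent.Lib.MP_afdd4d_co.K10.LR
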