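import Pool.Agent.Lib.MP_afdd4d_co.K10.LR.R102

/-!
# The rows of the links, part 134
-/

namespace Pool.Agent.Lib.MP_afdd4d_co.K10.LR

open K8 K8.L9

theorem q134 : twoG oneJ 263 280 = true := by decide +kernel

theorem r263 : I.C.oneB (reE 263) = true := two_l 263 280 q134

theorem r280 : I.C.oneB (reE 280) = true := two_r 263 280 q134

end Pool.Agent.Lib.MP_afdd4d_co.K10.LR
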