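import Pool.Agent.Lib.MP_afdd4d_co.K10.LR.R103

/-!
# The rows of the links, part 135
-/

namespace Pool.Agent.Lib.MP_afdd4d_co.K10.LR

open K8 K8.L9

theorem q135 : twoG oneJ 265 295 = true := by decide +kernel

theorem r265 : I.C.oneB (reE 265) = true := two_l 265 295 q135

theorem r295 : I.C.oneB (reE 295) = true := two_r 265 295 q135

end Pool.Agent.Lib.MP_afdd4d_co.K10.LR
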