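import Pool.Agent.Lib.MP_afdd4d_co.K10.LR.R104

/-!
# The rows of the links, part 136
-/

namespace Pool.Agent.Lib.MP_afdd4d_co.K10.LR

open K8 K8.L9

theorem q136 : twoG oneJ 266 267 = true := by decide +kernel

theorem r266 : I.C.oneB (reE 266) = true := two_l 266 267 q136

theorem r267 : I.C.oneB (reE 267) = true := two_r 266 267 q136

end Pool.Agent.Lib.MP_afdd4d_co.K10.LR
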