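import Pool.Agent.Lib.MP_afdd4d_co.K10.LR.R105

/-!
# The rows of the links, part 137
-/

namespace Pool.Agent.Lib.MP_afdd4d_co.K10.LR

open K8 K8.L9

theorem q137 : twoG oneJ 268 317 = true := by decide +kernel

theorem r268 : I.C.oneB (reE 268) = true := two_l 268 317 q137

theorem r317 : I.C.oneB (reE 317) = true := two_r 268 317 q137

end Pool.Agent.Lib.MP_afdd4d_co.K10.LR
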