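import Pool.Agent.Lib.MP_afdd4d_co.K10.LR.R107

/-!
# The rows of the links, part 139
-/

namespace Pool.Agent.Lib.MP_afdd4d_co.K10.LR

open K8 K8.L9

theorem q139 : twoG oneJ 270 275 = true := by decide +kernel

theorem r270 : I.C.oneB (reE 270) = true := two_l 270 275 q139

theorem r275 : I.C.oneB (reE 275) = true := two_r 270 275 q139

end Pool.Agent.Lib.MP_afdd4d_co.K10.LR
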