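import Pool.Agent.Lib.MP_afdd4d_co.K10.LR.R108

/-!
# The rows of the links, part 140
-/

namespace Pool.Agent.Lib.MP_afdd4d_co.K10.LR

open K8 K8.L9

theorem q140 : twoG oneJ 271 310 = true := by decide +kernel

theorem r271 : I.C.oneB (reE 271) = true := two_l 271 310 q140

theorem r310 : I.C.oneB (reE 310) = true := two_r 271 310 q140

end Pool.Agent.Lib.MP_afdd4d_co.K10.LR
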