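import Pool.Agent.Lib.MP_afdd4d_co.K10.LR.R109

/-!
# The rows of the links, part 141
-/

namespace Pool.Agent.Lib.MP_afdd4d_co.K10.LR

open K8 K8.L9

theorem q141 : twoG oneJ 272 303 = true := by decide +kernel

theorem r272 : I.C.oneB (reE 272) = true := two_l 272 303 q141

theorem r303 : I.C.oneB (reE 303) = true := two_r 272 303 q141

end Pool.Agent.Lib.MP_afdd4d_co.K10.LR
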