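import Pool.Agent.Lib.MP_afdd4d_co.K10.LR.R110

/-!
# The rows of the links, part 142
-/

namespace Pool.Agent.Lib.MP_afdd4d_co.K10.LR

open K8 K8.L9

theorem q142 : twoG oneJ 273 281 = true := by decide +kernel

theorem r273 : I.C.oneB (reE 273) = true := two_l 273 281 q142

theorem r281 : I.C.oneB (reE 281) = true := two_r 273 281 q142

end Pool.Agent.Lib.MP_afdd4d_co.K10.LR
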