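import Pool.Agent.Lib.MP_afdd4d_co.K10.LR.R111

/-!
# The rows of the links, part 143
-/

namespace Pool.Agent.Lib.MP_afdd4d_co.K10.LR

open K8 K8.L9

theorem q143 : twoG oneJ 274 282 = true := by decide +kernel

theorem r274 : I.C.oneB (reE 274) = true := two_l 274 282 q143

theorem r282 : I.C.oneB (reE 282) = true := two_r 274 282 q143

end Pool.Agent.Lib.MP_afdd4d_co.K10.LR
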