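import Pool.Agent.Lib.MP_afdd4d_co.K10.LR.R112

/-!
# The rows of the links, part 144
-/

namespace Pool.Agent.Lib.MP_afdd4d_co.K10.LR

open K8 K8.L9

theorem q144 : twoG oneJ 277 278 = true := by decide +kernel

theorem r277 : I.C.oneB (reE 277) = true := two_l 277 278 q144

theorem r278 : I.C.oneB (reE 278) = true := two_r 277 278 q144

end Pool.Agent.Lib.MP_afdd4d_co.K10.LR
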