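import Pool.Agent.Lib.MP_afdd4d_co.K10.LR.R113

/-!
# The rows of the links, part 145
-/

namespace Pool.Agent.Lib.MP_afdd4d_co.K10.LR

open K8 K8.L9

theorem q145 : twoG oneJ 283 290 = true := by decide +kernel

theorem r283 : I.C.oneB (reE 283) = true := two_l 283 290 q145

theorem r290 : I.C.oneB (reE 290) = true := two_r 283 290 q145

end Pool.Agent.Lib.MP_afdd4d_co.K10.LR
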