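import Pool.Agent.Lib.MP_afdd4d_co.K10.LR.R114

/-!
# The rows of the links, part 146
-/

namespace Pool.Agent.Lib.MP_afdd4d_co.K10.LR

open K8 K8.L9

theorem q146 : twoG oneJ 284 312 = true := by decide +kernel

theorem r284 : I.C.oneB (reE 284) = true := two_l 284 312 q146

theorem r312 : I.C.oneB (reE 312) = true := two_r 284 312 q146

end Pool.Agent.Lib.MP_afdd4d_co.K10.LR
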