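import Pool.Agent.Lib.MP_afdd4d_co.K10.LR.R115

/-!
# The rows of the links, part 147
-/

namespace Pool.Agent.Lib.MP_afdd4d_co.K10.LR

open K8 K8.L9

theorem q147 : twoG oneJ 285 307 = true := by decide +kernel

theorem r285 : I.C.oneB (reE 285) = true := two_l 285 307 q147

theorem r307 : I.C.oneB (reE 307) = true := two_r 285 307 q147

end Pool.Agent.Lib.MP_afdd4d_co.K10.LR
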