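import Pool.Agent.Lib.MP_afdd4d_co.K10.LR.R116

/-!
# The rows of the links, part 148
-/

namespace Pool.Agent.Lib.MP_afdd4d_co.K10.LR

open K8 K8.L9

theorem q148 : twoG oneJ 286 305 = true := by decide +kernel

theorem r286 : I.C.oneB (reE 286) = true := two_l 286 305 q148

theorem r305 : I.C.oneB (reE 305) = true := two_r 286 305 q148

end Pool.Agent.Lib.MP_afdd4d_co.K10.LR
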