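import Pool.Agent.Lib.MP_afdd4d_co.K10.LR.R118

/-!
# The rows of the links, part 150
-/

namespace Pool.Agent.Lib.MP_afdd4d_co.K10.LR

open K8 K8.L9

theorem q150 : twoG oneJ 288 309 = true := by decide +kernel

theorem r288 : I.C.oneB (reE 288) = true := two_l 288 309 q150

theorem r309 : I.C.oneB (reE 309) = true := two_r 288 309 q150

end Pool.Agent.Lib.MP_afdd4d_co.K10.LR
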