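import Pool.Agent.Lib.MP_afdd4d_co.K10.LR.R119

/-!
# The rows of the links, part 151
-/

namespace Pool.Agent.Lib.MP_afdd4d_co.K10.LR

open K8 K8.L9

theorem q151 : twoG oneJ 292 304 = true := by decide +kernel

theorem r292 : I.C.oneB (reE 292) = true := two_l 292 304 q151

theorem r304 : I.C.oneB (reE 304) = true := two_r 292 304 q151

end Pool.Agent.Lib.MP_afdd4d_co.K10.LR
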