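import Pool.Agent.Lib.MP_afdd4d_co.K10.LR.R120

/-!
# The rows of the links, part 152
-/

namespace Pool.Agent.Lib.MP_afdd4d_co.K10.LR

open K8 K8.L9

theorem q152 : twoG oneJ 293 294 = true := by decide +kernel

theorem r293 : I.C.oneB (reE 293) = true := two_l 293 294 q152

theorem r294 : I.C.oneB (reE 294) = true := two_r 293 294 q152

end Pool.Agent.Lib.MP_afdd4d_co.K10.LR
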