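import Pool.Agent.Lib.MP_afdd4d_co.K10.LR.R121

/-!
# The rows of the links, part 153
-/

namespace Pool.Agent.Lib.MP_afdd4d_co.K10.LR

open K8 K8.L9

theorem q153 : twoG oneJ 296 297 = true := by decide +kernel

theorem r296 : I.C.oneB (reE 296) = true := two_l 296 297 q153

theorem r297 : I.C.oneB (reE 297) = true := two_r 296 297 q153

end Pool.Agent.Lib.MP_afdd4d_co.K10.LR
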