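import Pool.Agent.Lib.MP_afdd4d_co.K10.LR.R122

/-!
# The rows of the links, part 154
-/

namespace Pool.Agent.Lib.MP_afdd4d_co.K10.LR

open K8 K8.L9

theorem q154 : twoG oneJ 298 299 = true := by decide +kernel

theorem r298 : I.C.oneB (reE 298) = true := two_l 298 299 q154

theorem r299 : I.C.oneB (reE 299) = true := two_r 298 299 q154

end Pool.Agent.Lib.MP_afdd4d_co.K10.LR
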