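import Pool.Agent.Lib.MP_afdd4d_co.K10.LR.R123

/-!
# The rows of the links, part 155
-/

namespace Pool.Agent.Lib.MP_afdd4d_co.K10.LR

open K8 K8.L9

theorem q155 : twoG oneJ 300 314 = true := by decide +kernel

theorem r300 : I.C.oneB (reE 300) = true := two_l 300 314 q155

theorem r314 : I.C.oneB (reE 314) = true := two_r 300 314 q155

end Pool.Agent.Lib.MP_afdd4d_co.K10.LR
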