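import Pool.Agent.Lib.MP_afdd4d_co.K10.LR.R124

/-!
# The rows of the links, part 156
-/

namespace Pool.Agent.Lib.MP_afdd4d_co.K10.LR

open K8 K8.L9

theorem q156 : twoG oneJ 301 302 = true := by decide +kernel

theorem r301 : I.C.oneB (reE 301) = true := two_l 301 302 q156

theorem r302 : I.C.oneB (reE 302) = true := two_r 301 302 q156

end Pool.Agent.Lib.MP_afdd4d_co.K10.LR
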