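import Pool.Agent.Lib.MP_afdd4d_co.K10.LR.R125

/-!
# The rows of the links, part 157
-/

namespace Pool.Agent.Lib.MP_afdd4d_co.K10.LR

open K8 K8.L9

theorem q157 : twoG oneJ 308 311 = true := by decide +kernel

theorem r308 : I.C.oneB (reE 308) = true := two_l 308 311 q157

theorem r311 : I.C.oneB (reE 311) = true := two_r 308 311 q157

end Pool.Agent.Lib.MP_afdd4d_co.K10.LR
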