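import Pool.Agent.Lib.MP_afdd4d_co.K10.LR.R126

/-!
# The rows of the links, part 158
-/

namespace Pool.Agent.Lib.MP_afdd4d_co.K10.LR

open K8 K8.L9

theorem q158 : twoG oneJ 313 316 = true := by decide +kernel

theorem r313 : I.C.oneB (reE 313) = true := two_l 313 316 q158

theorem r316 : I.C.oneB (reE 316) = true := two_r 313 316 q158

end Pool.Agent.Lib.MP_afdd4d_co.K10.LR
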