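import Pool.Agent.Lib.MP_afdd4d_co.K10.LR.R127

/-!
# The rows of the links, part 159
-/

namespace Pool.Agent.Lib.MP_afdd4d_co.K10.LR

open K8 K8.L9

theorem q159 : twoG oneJ 315 318 = true := by decide +kernel

theorem r315 : I.C.oneB (reE 315) = true := two_l 315 318 q159

theorem r318 : I.C.oneB (reE 318) = true := two_r 315 318 q159

end Pool.Agent.Lib.MP_afdd4d_co.K10.LR
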