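import Pool.Agent.Lib.MP_afdd4d_co.K10.LR.R128
import Pool.Agent.Lib.MP_afdd4d_co.K10.LR.R129
import Pool.Agent.Lib.MP_afdd4d_co.K10.LR.R130
import Pool.Agent.Lib.MP_afdd4d_co.K10.LR.R131
import Pool.Agent.Lib.MP_afdd4d_co.K10.LR.R132
import Pool.Agent.Lib.MP_afdd4d_co.K10.LR.R133
import Pool.Agent.Lib.MP_afdd4d_co.K10.LR.R134
import Pool.Agent.Lib.MP_afdd4d_co.K10.LR.R135
import Pool.Agent.Lib.MP_afdd4d_co.K10.LR.R136
import Pool.Agent.Lib.MP_afdd4d_co.K10.LR.R137
import Pool.Agent.Lib.MP_afdd4d_co.K10.LR.R138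
import Pool.Agent.Lib.MP_afdd4d_co.K10.LR.R139
import Pool.Agent.Lib.MP_afdd4d_co.K10.LR.R140
import Pool.Agent.Lib.MP_afdd4d_co.K10.LR.R141
import Pool.Agent.Lib.MP_afdd4d_co.K10.LR.R142
import Pool.Agent.Lib.MP_afdd4d_co.K10.LR.R143
import Pool.Agent.Lib.MP_afdd4d_co.K10.LR.R144
import Pool.Agent.Lib.MP_afdd4d_co.K10.LR.R145
import Pool.Agent.Lib.MP_afdd4d_co.K10.LR.R146
import Pool.Agent.Lib.MP_afdd4d_co.K10.LR.R147
import Pool.Agent.Lib.MP_afdd4d_co.K10.LR.R148
import Pool.Agent.Lib.MP_afdd4d_co.K10.LR.R149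
import Pool.Agent.Lib.MP_afdd4d_co.K10.LR.R150
import Pool.Agent.Lib.MP_afdd4d_co.K10.LR.R151
import Pool.Agent.Lib.MP_afdd4d_co.K10.LR.R152
import Pool.Agent.Lib.MP_afdd4d_co.K10.LR.R153
import Pool.Agent.Lib.MP_afdd4d_co.K10.LR.R154
import Pool.Agent.Lib.MP_afdd4d_co.K10.LR.R155
import Pool.Agent.Lib.MP_afdd4d_co.K10.LR.R156
import Pool.Agent.Lib.MP_afdd4d_co.K10.LR.R157
import Pool.Agent.Lib.MP_afdd4d_co.K10.LR.R158
import Pool.Agent.Lib.MP_afdd4d_co.K10.LR.R159

/-!
# The rows of the links, group 4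
-/

namespace Pool.Agent.Lib.MP_afdd4d_co.K10.LR

open K8 K8.L9

theorem j4 : ∀ j, 256 ≤ j → j < 320 → I.C.oneB (reE j) = true := by
  intro j h1 h2
  interval_cases j
  · exact r256
  · exact r257
  · exact r258
  · exact r259
  · exact r260
  · exact r261
  · exact r262
  · exact r263
  · exact r264
  · exact r265
  · exact r266
  · exact r267
  · exact r268
  · exact r269
  · exact r270
  · exact r271
  · exact r272
  · exact r273
  · exact r274
  · exact r275
  · exact r276
  · exact r277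
  · exact r278
  · exact r279
  · exact r280
  · exact r281
  · exact r282
  · exact r283
  · exact r284
  · exact r285
  · exact r286
  · exact r287
  · exact r288
  · exact r289
  · exact r290
  · exact r291
  · exact r292
  · exact r293
  · exact r294
  · exact r295
  · exact r296
  · exact r297
  · exact r298
  · exact r299
  · exact r300
  · exact r301
  · exact r302
  · exact r303
  · exact r304
  · exact r305
  · exact r306
  · exact r307
  · exact r308
  · exact r309
  · exact r310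
  · exact r311
  · exact r312
  · exact r313
  · exact r314
  · exact r315
  · exact r316
  · exact r317
  · exact r318
  · exact r319

end Pool.Agent.Lib.MP_afdd4d_co.K10.LR
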