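import Pool.Agent.Lib.MP_afdd4d_co.K10.LR.R129

/-!
# The rows of the links, part 161
-/

namespace Pool.Agent.Lib.MP_afdd4d_co.K10.LR

open K8 K8.L9

theorem q161 : twoG oneJ 321 368 = true := by decide +kernel

theorem r321 : I.C.oneB (reE 321) = true := two_l 321 368 q161

theorem r368 : I.C.oneB (reE 368) = true := two_r 321 368 q161

end Pool.Agent.Lib.MP_afdd4d_co.K10.LR
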