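import Pool.Agent.Lib.MP_afdd4d_co.K10.LR.R130

/-!
# The rows of the links, part 162
-/

namespace Pool.Agent.Lib.MP_afdd4d_co.K10.LR

open K8 K8.L9

theorem q162 : twoG oneJ 322 369 = true := by decide +kernel

theorem r322 : I.C.oneB (reE 322) = true := two_l 322 369 q162

theorem r369 : I.C.oneB (reE 369) = true := two_r 322 369 q162

end Pool.Agent.Lib.MP_afdd4d_co.K10.LR
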