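import Pool.Agent.Lib.MP_afdd4d_co.K10.LR.R131

/-!
# The rows of the links, part 163
-/

namespace Pool.Agent.Lib.MP_afdd4d_co.K10.LR

open K8 K8.L9

theorem q163 : twoG oneJ 323 342 = true := by decide +kernel

theorem r323 : I.C.oneB (reE 323) = true := two_l 323 342 q163

theorem r342 : I.C.oneB (reE 342) = true := two_r 323 342 q163

end Pool.Agent.Lib.MP_afdd4d_co.K10.LR
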