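import Pool.Agent.Lib.MP_afdd4d_co.K10.LR.R132

/-!
# The rows of the links, part 164
-/

namespace Pool.Agent.Lib.MP_afdd4d_co.K10.LR

open K8 K8.L9

theorem q164 : twoG oneJ 324 376 = true := by decide +kernel

theorem r324 : I.C.oneB (reE 324) = true := two_l 324 376 q164

theorem r376 : I.C.oneB (reE 376) = true := two_r 324 376 q164

end Pool.Agent.Lib.MP_afdd4d_co.K10.LR
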