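import Pool.Agent.Lib.MP_afdd4d_co.K10.LR.R133

/-!
# The rows of the links, part 165
-/

namespace Pool.Agent.Lib.MP_afdd4d_co.K10.LR

open K8 K8.L9

theorem q165 : twoG oneJ 325 364 = true := by decide +kernel

theorem r325 : I.C.oneB (reE 325) = true := two_l 325 364 q165

theorem r364 : I.C.oneB (reE 364) = true := two_r 325 364 q165

end Pool.Agent.Lib.MP_afdd4d_co.K10.LR
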