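import Pool.Agent.Lib.MP_afdd4d_co.K10.LR.R134

/-!
# The rows of the links, part 166
-/

namespace Pool.Agent.Lib.MP_afdd4d_co.K10.LR

open K8 K8.L9

theorem q166 : twoG oneJ 326 327 = true := by decide +kernel

theorem r326 : I.C.oneB (reE 326) = true := two_l 326 327 q166

theorem r327 : I.C.oneB (reE 327) = true := two_r 326 327 q166

end Pool.Agent.Lib.MP_afdd4d_co.K10.LR
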