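import Pool.Agent.Lib.MP_afdd4d_co.K10.LR.R135

/-!
# The rows of the links, part 167
-/

namespace Pool.Agent.Lib.MP_afdd4d_co.K10.LR

open K8 K8.L9

theorem q167 : twoG oneJ 328 379 = true := by decide +kernel

theorem r328 : I.C.oneB (reE 328) = true := two_l 328 379 q167

theorem r379 : I.C.oneB (reE 379) = true := two_r 328 379 q167

end Pool.Agent.Lib.MP_afdd4d_co.K10.LR
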