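import Pool.Agent.Lib.MP_afdd4d_co.K10.LR.R136

/-!
# The rows of the links, part 168
-/

namespace Pool.Agent.Lib.MP_afdd4d_co.K10.LR

open K8 K8.L9

theorem q168 : twoG oneJ 329 361 = true := by decide +kernel

theorem r329 : I.C.oneB (reE 329) = true := two_l 329 361 q168

theorem r361 : I.C.oneB (reE 361) = true := two_r 329 361 q168

end Pool.Agent.Lib.MP_afdd4d_co.K10.LR
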