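import Pool.Agent.Lib.MP_afdd4d_co.K10.LR.R137

/-!
# The rows of the links, part 169
-/

namespace Pool.Agent.Lib.MP_afdd4d_co.K10.LR

open K8 K8.L9

theorem q169 : twoG oneJ 330 353 = true := by decide +kernel

theorem r330 : I.C.oneB (reE 330) = true := two_l 330 353 q169

theorem r353 : I.C.oneB (reE 353) = true := two_r 330 353 q169

end Pool.Agent.Lib.MP_afdd4d_co.K10.LR
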