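import Pool.Agent.Lib.MP_afdd4d_co.K10.LR.R139

/-!
# The rows of the links, part 171
-/

namespace Pool.Agent.Lib.MP_afdd4d_co.K10.LR

open K8 K8.L9

theorem q171 : twoG oneJ 332 339 = true := by decide +kernel

theorem r332 : I.C.oneB (reE 332) = true := two_l 332 339 q171

theorem r339 : I.C.oneB (reE 339) = true := two_r 332 339 q171

end Pool.Agent.Lib.MP_afdd4d_co.K10.LR
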