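import Pool.Agent.Lib.MP_afdd4d_co.K10.LR.R140

/-!
# The rows of the links, part 172
-/

namespace Pool.Agent.Lib.MP_afdd4d_co.K10.LR

open K8 K8.L9

theorem q172 : twoG oneJ 333 349 = true := by decide +kernel

theorem r333 : I.C.oneB (reE 333) = true := two_l 333 349 q172

theorem r349 : I.C.oneB (reE 349) = true := two_r 333 349 q172

end Pool.Agent.Lib.MP_afdd4d_co.K10.LR
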