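import Pool.Agent.Lib.MP_afdd4d_co.K10.LR.R141

/-!
# The rows of the links, part 173
-/

namespace Pool.Agent.Lib.MP_afdd4d_co.K10.LR

open K8 K8.L9

theorem q173 : twoG oneJ 334 344 = true := by decide +kernel

theorem r334 : I.C.oneB (reE 334) = true := two_l 334 344 q173

theorem r344 : I.C.oneB (reE 344) = true := two_r 334 344 q173

end Pool.Agent.Lib.MP_afdd4d_co.K10.LR
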