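import Pool.Agent.Lib.MP_afdd4d_co.K10.LR.R142

/-!
# The rows of the links, part 174
-/

namespace Pool.Agent.Lib.MP_afdd4d_co.K10.LR

open K8 K8.L9

theorem q174 : twoG oneJ 335 351 = true := by decide +kernel

theorem r335 : I.C.oneB (reE 335) = true := two_l 335 351 q174

theorem r351 : I.C.oneB (reE 351) = true := two_r 335 351 q174

end Pool.Agent.Lib.MP_afdd4d_co.K10.LR
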