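import Pool.Agent.Lib.MP_afdd4d_co.K10.LR.R143

/-!
# The rows of the links, part 175
-/

namespace Pool.Agent.Lib.MP_afdd4d_co.K10.LR

open K8 K8.L9

theorem q175 : twoG oneJ 337 338 = true := by decide +kernel

theorem r337 : I.C.oneB (reE 337) = true := two_l 337 338 q175

theorem r338 : I.C.oneB (reE 338) = true := two_r 337 338 q175

end Pool.Agent.Lib.MP_afdd4d_co.K10.LR
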