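import Pool.Agent.Lib.MP_afdd4d_co.K10.LR.R144

/-!
# The rows of the links, part 176
-/

namespace Pool.Agent.Lib.MP_afdd4d_co.K10.LR

open K8 K8.L9

theorem q176 : twoG oneJ 340 357 = true := by decide +kernel

theorem r340 : I.C.oneB (reE 340) = true := two_l 340 357 q176

theorem r357 : I.C.oneB (reE 357) = true := two_r 340 357 q176

end Pool.Agent.Lib.MP_afdd4d_co.K10.LR
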