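import Pool.Agent.Lib.MP_afdd4d_co.K10.LR.R145

/-!
# The rows of the links, part 177
-/

namespace Pool.Agent.Lib.MP_afdd4d_co.K10.LR

open K8 K8.L9

theorem q177 : twoG oneJ 341 354 = true := by decide +kernel

theorem r341 : I.C.oneB (reE 341) = true := two_l 341 354 q177

theorem r354 : I.C.oneB (reE 354) = true := two_r 341 354 q177

end Pool.Agent.Lib.MP_afdd4d_co.K10.LR
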