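import Pool.Agent.Lib.MP_afdd4d_co.K10.LR.R146

/-!
# The rows of the links, part 178
-/

namespace Pool.Agent.Lib.MP_afdd4d_co.K10.LR

open K8 K8.L9

theorem q178 : twoG oneJ 343 360 = true := by decide +kernel

theorem r343 : I.C.oneB (reE 343) = true := two_l 343 360 q178

theorem r360 : I.C.oneB (reE 360) = true := two_r 343 360 q178

end Pool.Agent.Lib.MP_afdd4d_co.K10.LR
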