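import Pool.Agent.Lib.MP_afdd4d_co.K10.LR.R147

/-!
# The rows of the links, part 179
-/

namespace Pool.Agent.Lib.MP_afdd4d_co.K10.LR

open K8 K8.L9

theorem q179 : twoG oneJ 345 346 = true := by decide +kernel

theorem r345 : I.C.oneB (reE 345) = true := two_l 345 346 q179

theorem r346 : I.C.oneB (reE 346) = true := two_r 345 346 q179

end Pool.Agent.Lib.MP_afdd4d_co.K10.LR
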