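import Pool.Agent.Lib.MP_afdd4d_co.K10.LR.R148

/-!
# The rows of the links, part 180
-/

namespace Pool.Agent.Lib.MP_afdd4d_co.K10.LR

open K8 K8.L9

theorem q180 : twoG oneJ 347 350 = true := by decide +kernel

theorem r347 : I.C.oneB (reE 347) = true := two_l 347 350 q180

theorem r350 : I.C.oneB (reE 350) = true := two_r 347 350 q180

end Pool.Agent.Lib.MP_afdd4d_co.K10.LR
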