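import Pool.Agent.Lib.MP_afdd4d_co.K10.LR.R150

/-!
# The rows of the links, part 182
-/

namespace Pool.Agent.Lib.MP_afdd4d_co.K10.LR

open K8 K8.L9

theorem q182 : twoG oneJ 355 358 = true := by decide +kernel

theorem r355 : I.C.oneB (reE 355) = true := two_l 355 358 q182

theorem r358 : I.C.oneB (reE 358) = true := two_r 355 358 q182

end Pool.Agent.Lib.MP_afdd4d_co.K10.LR
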