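import Pool.Agent.Lib.MP_afdd4d_co.K10.LR.R151

/-!
# The rows of the links, part 183
-/

namespace Pool.Agent.Lib.MP_afdd4d_co.K10.LR

open K8 K8.L9

theorem q183 : twoG oneJ 356 359 = true := by decide +kernel

theorem r356 : I.C.oneB (reE 356) = true := two_l 356 359 q183

theorem r359 : I.C.oneB (reE 359) = true := two_r 356 359 q183

end Pool.Agent.Lib.MP_afdd4d_co.K10.LR
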