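import Pool.Agent.Lib.MP_afdd4d_co.K10.LR.R152

/-!
# The rows of the links, part 184
-/

namespace Pool.Agent.Lib.MP_afdd4d_co.K10.LR

open K8 K8.L9

theorem q184 : twoG oneJ 362 363 = true := by decide +kernel

theorem r362 : I.C.oneB (reE 362) = true := two_l 362 363 q184

theorem r363 : I.C.oneB (reE 363) = true := two_r 362 363 q184

end Pool.Agent.Lib.MP_afdd4d_co.K10.LR
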