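import Pool.Agent.Lib.MP_afdd4d_co.K10.LR.R153

/-!
# The rows of the links, part 185
-/

namespace Pool.Agent.Lib.MP_afdd4d_co.K10.LR

open K8 K8.L9

theorem q185 : twoG oneJ 365 366 = true := by decide +kernel

theorem r365 : I.C.oneB (reE 365) = true := two_l 365 366 q185

theorem r366 : I.C.oneB (reE 366) = true := two_r 365 366 q185

end Pool.Agent.Lib.MP_afdd4d_co.K10.LR
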