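import Pool.Agent.Lib.MP_afdd4d_co.K10.LR.R154

/-!
# The rows of the links, part 186
-/

namespace Pool.Agent.Lib.MP_afdd4d_co.K10.LR

open K8 K8.L9

theorem q186 : twoG oneJ 367 374 = true := by decide +kernel

theorem r367 : I.C.oneB (reE 367) = true := two_l 367 374 q186

theorem r374 : I.C.oneB (reE 374) = true := two_r 367 374 q186

end Pool.Agent.Lib.MP_afdd4d_co.K10.LR
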