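import Pool.Agent.Lib.MP_afdd4d_co.K10.LR.R155

/-!
# The rows of the links, part 187
-/

namespace Pool.Agent.Lib.MP_afdd4d_co.K10.LR

open K8 K8.L9

theorem q187 : twoG oneJ 370 373 = true := by decide +kernel

theorem r370 : I.C.oneB (reE 370) = true := two_l 370 373 q187

theorem r373 : I.C.oneB (reE 373) = true := two_r 370 373 q187

end Pool.Agent.Lib.MP_afdd4d_co.K10.LR
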