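import Pool.Agent.Lib.MP_afdd4d_co.K10.LR.R156

/-!
# The rows of the links, part 188
-/

namespace Pool.Agent.Lib.MP_afdd4d_co.K10.LR

open K8 K8.L9

theorem q188 : twoG oneJ 371 380 = true := by decide +kernel

theorem r371 : I.C.oneB (reE 371) = true := two_l 371 380 q188

theorem r380 : I.C.oneB (reE 380) = true := two_r 371 380 q188

end Pool.Agent.Lib.MP_afdd4d_co.K10.LR
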