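import Pool.Agent.Lib.MP_afdd4d_co.K10.LR.R157

/-!
# The rows of the links, part 189
-/

namespace Pool.Agent.Lib.MP_afdd4d_co.K10.LR

open K8 K8.L9

theorem q189 : twoG oneJ 372 375 = true := by decide +kernel

theorem r372 : I.C.oneB (reE 372) = true := two_l 372 375 q189

theorem r375 : I.C.oneB (reE 375) = true := two_r 372 375 q189

end Pool.Agent.Lib.MP_afdd4d_co.K10.LR
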