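import Pool.Agent.Lib.MP_afdd4d_co.K10.LR.R158

/-!
# The rows of the links, part 190
-/

namespace Pool.Agent.Lib.MP_afdd4d_co.K10.LR

open K8 K8.L9

theorem q190 : twoG oneJ 377 381 = true := by decide +kernel

theorem r377 : I.C.oneB (reE 377) = true := two_l 377 381 q190

theorem r381 : I.C.oneB (reE 381) = true := two_r 377 381 q190

end Pool.Agent.Lib.MP_afdd4d_co.K10.LR
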