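import Pool.Agent.Lib.MP_afdd4d_co.K10.LR.R159

/-!
# The rows of the links, part 191
-/

namespace Pool.Agent.Lib.MP_afdd4d_co.K10.LR

open K8 K8.L9

theorem q191 : twoG oneJ 378 382 = true := by decide +kernel

theorem r378 : I.C.oneB (reE 378) = true := two_l 378 382 q191

theorem r382 : I.C.oneB (reE 382) = true := two_r 378 382 q191

end Pool.Agent.Lib.MP_afdd4d_co.K10.LR
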