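import Pool.Agent.Lib.MP_afdd4d_co.K10.LR.R160
import Pool.Agent.Lib.MP_afdd4d_co.K10.LR.R161
import Pool.Agent.Lib.MP_afdd4d_co.K10.LR.R162
import Pool.Agent.Lib.MP_afdd4d_co.K10.LR.R163
import Pool.Agent.Lib.MP_afdd4d_co.K10.LR.R164
import Pool.Agent.Lib.MP_afdd4d_co.K10.LR.R165
import Pool.Agent.Lib.MP_afdd4d_co.K10.LR.R166
import Pool.Agent.Lib.MP_afdd4d_co.K10.LR.R167
import Pool.Agent.Lib.MP_afdd4d_co.K10.LR.R168
import Pool.Agent.Lib.MP_afdd4d_co.K10.LR.R169
import Pool.Agent.Lib.MP_afdd4d_co.K10.LR.R170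
import Pool.Agent.Lib.MP_afdd4d_co.K10.LR.R171
import Pool.Agent.Lib.MP_afdd4d_co.K10.LR.R172
import Pool.Agent.Lib.MP_afdd4d_co.K10.LR.R173
import Pool.Agent.Lib.MP_afdd4d_co.K10.LR.R174
import Pool.Agent.Lib.MP_afdd4d_co.K10.LR.R175
import Pool.Agent.Lib.MP_afdd4d_co.K10.LR.R176
import Pool.Agent.Lib.MP_afdd4d_co.K10.LR.R177
import Pool.Agent.Lib.MP_afdd4d_co.K10.LR.R178
import Pool.Agent.Lib.MP_afdd4d_co.K10.LR.R179
import Pool.Agent.Lib.MP_afdd4d_co.K10.LR.R180
import Pool.Agent.Lib.MP_afdd4d_co.K10.LR.R181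
import Pool.Agent.Lib.MP_afdd4d_co.K10.LR.R182
import Pool.Agent.Lib.MP_afdd4d_co.K10.LR.R183
import Pool.Agent.Lib.MP_afdd4d_co.K10.LR.R184
import Pool.Agent.Lib.MP_afdd4d_co.K10.LR.R185
import Pool.Agent.Lib.MP_afdd4d_co.K10.LR.R186
import Pool.Agent.Lib.MP_afdd4d_co.K10.LR.R187
import Pool.Agent.Lib.MP_afdd4d_co.K10.LR.R188
import Pool.Agent.Lib.MP_afdd4d_co.K10.LR.R189
import Pool.Agent.Lib.MP_afdd4d_co.K10.LR.R190
import Pool.Agent.Lib.MP_afdd4d_co.K10.LR.R191

/-!
# The rows of the links, group 5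
-/

namespace Pool.Agent.Lib.MP_afdd4d_co.K10.LR

open K8 K8.L9

theorem j5 : ∀ j, 320 ≤ j → j < 384 → I.C.oneB (reE j) = true := by
  intro j h1 h2
  interval_cases j
  · exact r320
  · exact r321
  · exact r322
  · exact r323
  · exact r324
  · exact r325
  · exact r326
  · exact r327
  · exact r328
  · exact r329
  · exact r330
  · exact r331
  · exact r332
  · exact r333
  · exact r334
  · exact r335
  · exact r336
  · exact r337
  · exact r338
  · exact r339
  · exact r340
  · exact r341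
  · exact r342
  · exact r343
  · exact r344
  · exact r345
  · exact r346
  · exact r347
  · exact r348
  · exact r349
  · exact r350
  · exact r351
  · exact r352
  · exact r353
  · exact r354
  · exact r355
  · exact r356
  · exact r357
  · exact r358
  · exact r359
  · exact r360
  · exact r361
  · exact r362
  · exact r363
  · exact r364
  · exact r365
  · exact r366
  · exact r367
  · exact r368
  · exact r369
  · exact r370
  · exact r371
  · exact r372
  · exact r373
  · exact r374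
  · exact r375
  · exact r376
  · exact r377
  · exact r378
  · exact r379
  · exact r380
  · exact r381
  · exact r382
  · exact r383

end Pool.Agent.Lib.MP_afdd4d_co.K10.LR
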