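import Pool.Agent.Lib.MP_afdd4d_co.K10.LR.R161

/-!
# The rows of the links, part 193
-/

namespace Pool.Agent.Lib.MP_afdd4d_co.K10.LR

open K8 K8.L9

theorem q193 : twoG oneJ 385 406 = true := by decide +kernel

theorem r385 : I.C.oneB (reE 385) = true := two_l 385 406 q193

theorem r406 : I.C.oneB (reE 406) = true := two_r 385 406 q193

end Pool.Agent.Lib.MP_afdd4d_co.K10.LR
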