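import Pool.Agent.Lib.MP_afdd4d_co.K10.LR.R162

/-!
# The rows of the links, part 194
-/

namespace Pool.Agent.Lib.MP_afdd4d_co.K10.LR

open K8 K8.L9

theorem q194 : twoG oneJ 386 387 = true := by decide +kernel

theorem r386 : I.C.oneB (reE 386) = true := two_l 386 387 q194

theorem r387 : I.C.oneB (reE 387) = true := two_r 386 387 q194

end Pool.Agent.Lib.MP_afdd4d_co.K10.LR
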