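import Pool.Agent.Lib.MP_afdd4d_co.K10.LR.R163

/-!
# The rows of the links, part 195
-/

namespace Pool.Agent.Lib.MP_afdd4d_co.K10.LR

open K8 K8.L9

theorem q195 : twoG oneJ 388 433 = true := by decide +kernel

theorem r388 : I.C.oneB (reE 388) = true := two_l 388 433 q195

theorem r433 : I.C.oneB (reE 433) = true := two_r 388 433 q195

end Pool.Agent.Lib.MP_afdd4d_co.K10.LR
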