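import Pool.Agent.Lib.MP_afdd4d_co.K10.LR.R164

/-!
# The rows of the links, part 196
-/

namespace Pool.Agent.Lib.MP_afdd4d_co.K10.LR

open K8 K8.L9

theorem q196 : twoG oneJ 389 409 = true := by decide +kernel

theorem r389 : I.C.oneB (reE 389) = true := two_l 389 409 q196

theorem r409 : I.C.oneB (reE 409) = true := two_r 389 409 q196

end Pool.Agent.Lib.MP_afdd4d_co.K10.LR
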