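import Pool.Agent.Lib.MP_afdd4d_co.K10.LR.R165

/-!
# The rows of the links, part 197
-/

namespace Pool.Agent.Lib.MP_afdd4d_co.K10.LR

open K8 K8.L9

theorem q197 : twoG oneJ 390 410 = true := by decide +kernel

theorem r390 : I.C.oneB (reE 390) = true := two_l 390 410 q197

theorem r410 : I.C.oneB (reE 410) = true := two_r 390 410 q197

end Pool.Agent.Lib.MP_afdd4d_co.K10.LR
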