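import Pool.Agent.Lib.MP_afdd4d_co.K10.LR.R166

/-!
# The rows of the links, part 198
-/

namespace Pool.Agent.Lib.MP_afdd4d_co.K10.LR

open K8 K8.L9

theorem q198 : twoG oneJ 391 411 = true := by decide +kernel

theorem r391 : I.C.oneB (reE 391) = true := two_l 391 411 q198

theorem r411 : I.C.oneB (reE 411) = true := two_r 391 411 q198

end Pool.Agent.Lib.MP_afdd4d_co.K10.LR
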