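import Pool.Agent.Lib.MP_afdd4d_co.K10.LR.R167

/-!
# The rows of the links, part 199
-/

namespace Pool.Agent.Lib.MP_afdd4d_co.K10.LR

open K8 K8.L9

theorem q199 : twoG oneJ 392 412 = true := by decide +kernel

theorem r392 : I.C.oneB (reE 392) = true := two_l 392 412 q199

theorem r412 : I.C.oneB (reE 412) = true := two_r 392 412 q199

end Pool.Agent.Lib.MP_afdd4d_co.K10.LR
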