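import Pool.Agent.Lib.MP_afdd4d_co.K10.LR.R168

/-!
# The rows of the links, part 200
-/

namespace Pool.Agent.Lib.MP_afdd4d_co.K10.LR

open K8 K8.L9

theorem q200 : twoG oneJ 393 413 = true := by decide +kernel

theorem r393 : I.C.oneB (reE 393) = true := two_l 393 413 q200

theorem r413 : I.C.oneB (reE 413) = true := two_r 393 413 q200

end Pool.Agent.Lib.MP_afdd4d_co.K10.LR
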