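import Pool.Agent.Lib.MP_afdd4d_co.K10.LR.R169

/-!
# The rows of the links, part 201
-/

namespace Pool.Agent.Lib.MP_afdd4d_co.K10.LR

open K8 K8.L9

theorem q201 : twoG oneJ 394 431 = true := by decide +kernel

theorem r394 : I.C.oneB (reE 394) = true := two_l 394 431 q201

theorem r431 : I.C.oneB (reE 431) = true := two_r 394 431 q201

end Pool.Agent.Lib.MP_afdd4d_co.K10.LR
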