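import Pool.Agent.Lib.MP_afdd4d_co.K10.LR.R171

/-!
# The rows of the links, part 203
-/

namespace Pool.Agent.Lib.MP_afdd4d_co.K10.LR

open K8 K8.L9

theorem q203 : twoG oneJ 396 434 = true := by decide +kernel

theorem r396 : I.C.oneB (reE 396) = true := two_l 396 434 q203

theorem r434 : I.C.oneB (reE 434) = true := two_r 396 434 q203

end Pool.Agent.Lib.MP_afdd4d_co.K10.LR
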