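import Pool.Agent.Lib.MP_afdd4d_co.K10.LR.R172

/-!
# The rows of the links, part 204
-/

namespace Pool.Agent.Lib.MP_afdd4d_co.K10.LR

open K8 K8.L9

theorem q204 : twoG oneJ 397 430 = true := by decide +kernel

theorem r397 : I.C.oneB (reE 397) = true := two_l 397 430 q204

theorem r430 : I.C.oneB (reE 430) = true := two_r 397 430 q204

end Pool.Agent.Lib.MP_afdd4d_co.K10.LR
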