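import Pool.Agent.Lib.MP_afdd4d_co.K10.LR.R173

/-!
# The rows of the links, part 205
-/

namespace Pool.Agent.Lib.MP_afdd4d_co.K10.LR

open K8 K8.L9

theorem q205 : twoG oneJ 398 427 = true := by decide +kernel

theorem r398 : I.C.oneB (reE 398) = true := two_l 398 427 q205

theorem r427 : I.C.oneB (reE 427) = true := two_r 398 427 q205

end Pool.Agent.Lib.MP_afdd4d_co.K10.LR
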