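import Pool.Agent.Lib.MP_afdd4d_co.K10.LR.R174

/-!
# The rows of the links, part 206
-/

namespace Pool.Agent.Lib.MP_afdd4d_co.K10.LR

open K8 K8.L9

theorem q206 : twoG oneJ 399 439 = true := by decide +kernel

theorem r399 : I.C.oneB (reE 399) = true := two_l 399 439 q206

theorem r439 : I.C.oneB (reE 439) = true := two_r 399 439 q206

end Pool.Agent.Lib.MP_afdd4d_co.K10.LR
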