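import Pool.Agent.Lib.MP_afdd4d_co.K10.LR.R175

/-!
# The rows of the links, part 207
-/

namespace Pool.Agent.Lib.MP_afdd4d_co.K10.LR

open K8 K8.L9

theorem q207 : twoG oneJ 400 401 = true := by decide +kernel

theorem r400 : I.C.oneB (reE 400) = true := two_l 400 401 q207

theorem r401 : I.C.oneB (reE 401) = true := two_r 400 401 q207

end Pool.Agent.Lib.MP_afdd4d_co.K10.LR
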