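import Pool.Agent.Lib.MP_afdd4d_co.K10.LR.R176

/-!
# The rows of the links, part 208
-/

namespace Pool.Agent.Lib.MP_afdd4d_co.K10.LR

open K8 K8.L9

theorem q208 : twoG oneJ 402 443 = true := by decide +kernel

theorem r402 : I.C.oneB (reE 402) = true := two_l 402 443 q208

theorem r443 : I.C.oneB (reE 443) = true := two_r 402 443 q208

end Pool.Agent.Lib.MP_afdd4d_co.K10.LR
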