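import Pool.Agent.Lib.MP_afdd4d_co.K10.LR.R177

/-!
# The rows of the links, part 209
-/

namespace Pool.Agent.Lib.MP_afdd4d_co.K10.LR

open K8 K8.L9

theorem q209 : twoG oneJ 403 445 = true := by decide +kernel

theorem r403 : I.C.oneB (reE 403) = true := two_l 403 445 q209

theorem r445 : I.C.oneB (reE 445) = true := two_r 403 445 q209

end Pool.Agent.Lib.MP_afdd4d_co.K10.LR
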