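import Pool.Agent.Lib.MP_afdd4d_co.K10.LR.R178

/-!
# The rows of the links, part 210
-/

namespace Pool.Agent.Lib.MP_afdd4d_co.K10.LR

open K8 K8.L9

theorem q210 : twoG oneJ 404 423 = true := by decide +kernel

theorem r404 : I.C.oneB (reE 404) = true := two_l 404 423 q210

theorem r423 : I.C.oneB (reE 423) = true := two_r 404 423 q210

end Pool.Agent.Lib.MP_afdd4d_co.K10.LR
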