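import Pool.Agent.Lib.MP_afdd4d_co.K10.LR.R179

/-!
# The rows of the links, part 211
-/

namespace Pool.Agent.Lib.MP_afdd4d_co.K10.LR

open K8 K8.L9

theorem q211 : twoG oneJ 405 425 = true := by decide +kernel

theorem r405 : I.C.oneB (reE 405) = true := two_l 405 425 q211

theorem r425 : I.C.oneB (reE 425) = true := two_r 405 425 q211

end Pool.Agent.Lib.MP_afdd4d_co.K10.LR
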