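import Pool.Agent.Lib.MP_afdd4d_co.K10.LR.R180

/-!
# The rows of the links, part 212
-/

namespace Pool.Agent.Lib.MP_afdd4d_co.K10.LR

open K8 K8.L9

theorem q212 : twoG oneJ 407 426 = true := by decide +kernel

theorem r407 : I.C.oneB (reE 407) = true := two_l 407 426 q212

theorem r426 : I.C.oneB (reE 426) = true := two_r 407 426 q212

end Pool.Agent.Lib.MP_afdd4d_co.K10.LR
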