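import Pool.Agent.Lib.MP_afdd4d_co.K10.LR.R182

/-!
# The rows of the links, part 214
-/

namespace Pool.Agent.Lib.MP_afdd4d_co.K10.LR

open K8 K8.L9

theorem q214 : twoG oneJ 414 415 = true := by decide +kernel

theorem r414 : I.C.oneB (reE 414) = true := two_l 414 415 q214

theorem r415 : I.C.oneB (reE 415) = true := two_r 414 415 q214

end Pool.Agent.Lib.MP_afdd4d_co.K10.LR
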