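import Pool.Agent.Lib.MP_afdd4d_co.K10.LR.R183

/-!
# The rows of the links, part 215
-/

namespace Pool.Agent.Lib.MP_afdd4d_co.K10.LR

open K8 K8.L9

theorem q215 : twoG oneJ 416 417 = true := by decide +kernel

theorem r416 : I.C.oneB (reE 416) = true := two_l 416 417 q215

theorem r417 : I.C.oneB (reE 417) = true := two_r 416 417 q215

end Pool.Agent.Lib.MP_afdd4d_co.K10.LR
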