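import Pool.Agent.Lib.MP_afdd4d_co.K10.LR.R184

/-!
# The rows of the links, part 216
-/

namespace Pool.Agent.Lib.MP_afdd4d_co.K10.LR

open K8 K8.L9

theorem q216 : twoG oneJ 418 435 = true := by decide +kernel

theorem r418 : I.C.oneB (reE 418) = true := two_l 418 435 q216

theorem r435 : I.C.oneB (reE 435) = true := two_r 418 435 q216

end Pool.Agent.Lib.MP_afdd4d_co.K10.LR
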