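import Pool.Agent.Lib.MP_afdd4d_co.K10.LR.R185

/-!
# The rows of the links, part 217
-/

namespace Pool.Agent.Lib.MP_afdd4d_co.K10.LR

open K8 K8.L9

theorem q217 : twoG oneJ 419 436 = true := by decide +kernel

theorem r419 : I.C.oneB (reE 419) = true := two_l 419 436 q217

theorem r436 : I.C.oneB (reE 436) = true := two_r 419 436 q217

end Pool.Agent.Lib.MP_afdd4d_co.K10.LR
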