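import Pool.Agent.Lib.MP_afdd4d_co.K10.LR.R186

/-!
# The rows of the links, part 218
-/

namespace Pool.Agent.Lib.MP_afdd4d_co.K10.LR

open K8 K8.L9

theorem q218 : twoG oneJ 420 437 = true := by decide +kernel

theorem r420 : I.C.oneB (reE 420) = true := two_l 420 437 q218

theorem r437 : I.C.oneB (reE 437) = true := two_r 420 437 q218

end Pool.Agent.Lib.MP_afdd4d_co.K10.LR
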