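import Pool.Agent.Lib.MP_afdd4d_co.K10.LR.R187

/-!
# The rows of the links, part 219
-/

namespace Pool.Agent.Lib.MP_afdd4d_co.K10.LR

open K8 K8.L9

theorem q219 : twoG oneJ 421 438 = true := by decide +kernel

theorem r421 : I.C.oneB (reE 421) = true := two_l 421 438 q219

theorem r438 : I.C.oneB (reE 438) = true := two_r 421 438 q219

end Pool.Agent.Lib.MP_afdd4d_co.K10.LR
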