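import Pool.Agent.Lib.MP_afdd4d_co.K10.LR.R188

/-!
# The rows of the links, part 220
-/

namespace Pool.Agent.Lib.MP_afdd4d_co.K10.LR

open K8 K8.L9

theorem q220 : twoG oneJ 422 446 = true := by decide +kernel

theorem r422 : I.C.oneB (reE 422) = true := two_l 422 446 q220

theorem r446 : I.C.oneB (reE 446) = true := two_r 422 446 q220

end Pool.Agent.Lib.MP_afdd4d_co.K10.LR
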