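import Pool.Agent.Lib.MP_afdd4d_co.K10.LR.R189

/-!
# The rows of the links, part 221
-/

namespace Pool.Agent.Lib.MP_afdd4d_co.K10.LR

open K8 K8.L9

theorem q221 : twoG oneJ 424 429 = true := by decide +kernel

theorem r424 : I.C.oneB (reE 424) = true := two_l 424 429 q221

theorem r429 : I.C.oneB (reE 429) = true := two_r 424 429 q221

end Pool.Agent.Lib.MP_afdd4d_co.K10.LR
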