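import Pool.Agent.Lib.MP_afdd4d_co.K10.LR.R190

/-!
# The rows of the links, part 222
-/

namespace Pool.Agent.Lib.MP_afdd4d_co.K10.LR

open K8 K8.L9

theorem q222 : twoG oneJ 440 441 = true := by decide +kernel

theorem r440 : I.C.oneB (reE 440) = true := two_l 440 441 q222

theorem r441 : I.C.oneB (reE 441) = true := two_r 440 441 q222

end Pool.Agent.Lib.MP_afdd4d_co.K10.LR
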