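import Pool.Agent.Lib.MP_afdd4d_co.K10.LR.R191

/-!
# The rows of the links, part 223
-/

namespace Pool.Agent.Lib.MP_afdd4d_co.K10.LR

open K8 K8.L9

theorem q223 : twoG oneJ 442 444 = true := by decide +kernel

theorem r442 : I.C.oneB (reE 442) = true := two_l 442 444 q223

theorem r444 : I.C.oneB (reE 444) = true := two_r 442 444 q223

end Pool.Agent.Lib.MP_afdd4d_co.K10.LR
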