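import Pool.Agent.Lib.MP_afdd4d_co.K10.LR.R192
import Pool.Agent.Lib.MP_afdd4d_co.K10.LR.R193
import Pool.Agent.Lib.MP_afdd4d_co.K10.LR.R194
import Pool.Agent.Lib.MP_afdd4d_co.K10.LR.R195
import Pool.Agent.Lib.MP_afdd4d_co.K10.LR.R196
import Pool.Agent.Lib.MP_afdd4d_co.K10.LR.R197
import Pool.Agent.Lib.MP_afdd4d_co.K10.LR.R198
import Pool.Agent.Lib.MP_afdd4d_co.K10.LR.R199
import Pool.Agent.Lib.MP_afdd4d_co.K10.LR.R200
import Pool.Agent.Lib.MP_afdd4d_co.K10.LR.R201
import Pool.Agent.Lib.MP_afdd4d_co.K10.LR.R202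
import Pool.Agent.Lib.MP_afdd4d_co.K10.LR.R203
import Pool.Agent.Lib.MP_afdd4d_co.K10.LR.R204
import Pool.Agent.Lib.MP_afdd4d_co.K10.LR.R205
import Pool.Agent.Lib.MP_afdd4d_co.K10.LR.R206
import Pool.Agent.Lib.MP_afdd4d_co.K10.LR.R207
import Pool.Agent.Lib.MP_afdd4d_co.K10.LR.R208
import Pool.Agent.Lib.MP_afdd4d_co.K10.LR.R209
import Pool.Agent.Lib.MP_afdd4d_co.K10.LR.R210
import Pool.Agent.Lib.MP_afdd4d_co.K10.LR.R211
import Pool.Agent.Lib.MP_afdd4d_co.K10.LR.R212
import Pool.Agent.Lib.MP_afdd4d_co.K10.LR.R213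
import Pool.Agent.Lib.MP_afdd4d_co.K10.LR.R214
import Pool.Agent.Lib.MP_afdd4d_co.K10.LR.R215
import Pool.Agent.Lib.MP_afdd4d_co.K10.LR.R216
import Pool.Agent.Lib.MP_afdd4d_co.K10.LR.R217
import Pool.Agent.Lib.MP_afdd4d_co.K10.LR.R218
import Pool.Agent.Lib.MP_afdd4d_co.K10.LR.R219
import Pool.Agent.Lib.MP_afdd4d_co.K10.LR.R220
import Pool.Agent.Lib.MP_afdd4d_co.K10.LR.R221
import Pool.Agent.Lib.MP_afdd4d_co.K10.LR.R222
import Pool.Agent.Lib.MP_afdd4d_co.K10.LR.R223

/-!
# The rows of the links, group 6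
-/

namespace Pool.Agent.Lib.MP_afdd4d_co.K10.LR

open K8 K8.L9

theorem j6 : ∀ j, 384 ≤ j → j < 448 → I.C.oneB (reE j) = true := by
  intro j h1 h2
  interval_cases j
  · exact r384
  · exact r385
  · exact r386
  · exact r387
  · exact r388
  · exact r389
  · exact r390
  · exact r391
  · exact r392
  · exact r393
  · exact r394
  · exact r395
  · exact r396
  · exact r397
  · exact r398
  · exact r399
  · exact r400
  · exact r401
  · exact r402
  · exact r403
  · exact r404
  · exact r405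
  · exact r406
  · exact r407
  · exact r408
  · exact r409
  · exact r410
  · exact r411
  · exact r412
  · exact r413
  · exact r414
  · exact r415
  · exact r416
  · exact r417
  · exact r418
  · exact r419
  · exact r420
  · exact r421
  · exact r422
  · exact r423
  · exact r424
  · exact r425
  · exact r426
  · exact r427
  · exact r428
  · exact r429
  · exact r430
  · exact r431
  · exact r432
  · exact r433
  · exact r434
  · exact r435
  · exact r436
  · exact r437
  · exact r438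
  · exact r439
  · exact r440
  · exact r441
  · exact r442
  · exact r443
  · exact r444
  · exact r445
  · exact r446
  · exact r447

end Pool.Agent.Lib.MP_afdd4d_co.K10.LR
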