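import Pool.Agent.Lib.MP_afdd4d_co.K10.LR.R193

/-!
# The rows of the links, part 225
-/

namespace Pool.Agent.Lib.MP_afdd4d_co.K10.LR

open K8 K8.L9

theorem q225 : twoG oneJ 449 461 = true := by decide +kernel

theorem r449 : I.C.oneB (reE 449) = true := two_l 449 461 q225

theorem r461 : I.C.oneB (reE 461) = true := two_r 449 461 q225

end Pool.Agent.Lib.MP_afdd4d_co.K10.LR
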