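import Pool.Agent.Lib.MP_afdd4d_co.K10.LR.R194

/-!
# The rows of the links, part 226
-/

namespace Pool.Agent.Lib.MP_afdd4d_co.K10.LR

open K8 K8.L9

theorem q226 : twoG oneJ 450 454 = true := by decide +kernel

theorem r450 : I.C.oneB (reE 450) = true := two_l 450 454 q226

theorem r454 : I.C.oneB (reE 454) = true := two_r 450 454 q226

end Pool.Agent.Lib.MP_afdd4d_co.K10.LR
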