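import Pool.Agent.Lib.MP_afdd4d_co.K10.LR.R195

/-!
# The rows of the links, part 227
-/

namespace Pool.Agent.Lib.MP_afdd4d_co.K10.LR

open K8 K8.L9

theorem q227 : twoG oneJ 451 456 = true := by decide +kernel

theorem r451 : I.C.oneB (reE 451) = true := two_l 451 456 q227

theorem r456 : I.C.oneB (reE 456) = true := two_r 451 456 q227

end Pool.Agent.Lib.MP_afdd4d_co.K10.LR
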