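import Pool.Agent.Lib.MP_afdd4d_co.K10.LR.R196

/-!
# The rows of the links, part 228
-/

namespace Pool.Agent.Lib.MP_afdd4d_co.K10.LR

open K8 K8.L9

theorem q228 : twoG oneJ 452 457 = true := by decide +kernel

theorem r452 : I.C.oneB (reE 452) = true := two_l 452 457 q228

theorem r457 : I.C.oneB (reE 457) = true := two_r 452 457 q228

end Pool.Agent.Lib.MP_afdd4d_co.K10.LR
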