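import Pool.Agent.Lib.MP_afdd4d_co.K10.LR.R197

/-!
# The rows of the links, part 229
-/

namespace Pool.Agent.Lib.MP_afdd4d_co.K10.LR

open K8 K8.L9

theorem q229 : twoG oneJ 453 460 = true := by decide +kernel

theorem r453 : I.C.oneB (reE 453) = true := two_l 453 460 q229

theorem r460 : I.C.oneB (reE 460) = true := two_r 453 460 q229

end Pool.Agent.Lib.MP_afdd4d_co.K10.LR
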