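import Pool.Agent.Lib.MP_afdd4d_co.K10.LR.R198

/-!
# The rows of the links, part 230
-/

namespace Pool.Agent.Lib.MP_afdd4d_co.K10.LR

open K8 K8.L9

theorem q230 : twoG oneJ 458 474 = true := by decide +kernel

theorem r458 : I.C.oneB (reE 458) = true := two_l 458 474 q230

theorem r474 : I.C.oneB (reE 474) = true := two_r 458 474 q230

end Pool.Agent.Lib.MP_afdd4d_co.K10.LR
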