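import Pool.Agent.Lib.MP_afdd4d_co.K10.LR.R199

/-!
# The rows of the links, part 231
-/

namespace Pool.Agent.Lib.MP_afdd4d_co.K10.LR

open K8 K8.L9

theorem q231 : twoG oneJ 459 467 = true := by decide +kernel

theorem r459 : I.C.oneB (reE 459) = true := two_l 459 467 q231

theorem r467 : I.C.oneB (reE 467) = true := two_r 459 467 q231

end Pool.Agent.Lib.MP_afdd4d_co.K10.LR
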