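import Pool.Agent.Lib.MP_afdd4d_co.K10.LR.R200

/-!
# The rows of the links, part 232
-/

namespace Pool.Agent.Lib.MP_afdd4d_co.K10.LR

open K8 K8.L9

theorem q232 : twoG oneJ 462 470 = true := by decide +kernel

theorem r462 : I.C.oneB (reE 462) = true := two_l 462 470 q232

theorem r470 : I.C.oneB (reE 470) = true := two_r 462 470 q232

end Pool.Agent.Lib.MP_afdd4d_co.K10.LR
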