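import Pool.Agent.Lib.MP_afdd4d_co.K10.LR.R201

/-!
# The rows of the links, part 233
-/

namespace Pool.Agent.Lib.MP_afdd4d_co.K10.LR

open K8 K8.L9

theorem q233 : twoG oneJ 463 471 = true := by decide +kernel

theorem r463 : I.C.oneB (reE 463) = true := two_l 463 471 q233

theorem r471 : I.C.oneB (reE 471) = true := two_r 463 471 q233

end Pool.Agent.Lib.MP_afdd4d_co.K10.LR
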