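import Pool.Agent.Lib.MP_afdd4d_co.K10.LR.R203

/-!
# The rows of the links, part 235
-/

namespace Pool.Agent.Lib.MP_afdd4d_co.K10.LR

open K8 K8.L9

theorem q235 : twoG oneJ 465 473 = true := by decide +kernel

theorem r465 : I.C.oneB (reE 465) = true := two_l 465 473 q235

theorem r473 : I.C.oneB (reE 473) = true := two_r 465 473 q235

end Pool.Agent.Lib.MP_afdd4d_co.K10.LR
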