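import Pool.Agent.Lib.MP_afdd4d_co.K10.LR.R204

/-!
# The rows of the links, part 236
-/

namespace Pool.Agent.Lib.MP_afdd4d_co.K10.LR

open K8 K8.L9

theorem q236 : twoG oneJ 466 511 = true := by decide +kernel

theorem r466 : I.C.oneB (reE 466) = true := two_l 466 511 q236

theorem r511 : I.C.oneB (reE 511) = true := two_r 466 511 q236

end Pool.Agent.Lib.MP_afdd4d_co.K10.LR
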