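import Pool.Agent.Lib.MP_afdd4d_co.K10.LR.R205

/-!
# The rows of the links, part 237
-/

namespace Pool.Agent.Lib.MP_afdd4d_co.K10.LR

open K8 K8.L9

theorem q237 : twoG oneJ 469 475 = true := by decide +kernel

theorem r469 : I.C.oneB (reE 469) = true := two_l 469 475 q237

theorem r475 : I.C.oneB (reE 475) = true := two_r 469 475 q237

end Pool.Agent.Lib.MP_afdd4d_co.K10.LR
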