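import Pool.Agent.Lib.MP_afdd4d_co.K10.LR.R206

/-!
# The rows of the links, part 238
-/

namespace Pool.Agent.Lib.MP_afdd4d_co.K10.LR

open K8 K8.L9

theorem q238 : twoG oneJ 472 477 = true := by decide +kernel

theorem r472 : I.C.oneB (reE 472) = true := two_l 472 477 q238

theorem r477 : I.C.oneB (reE 477) = true := two_r 472 477 q238

end Pool.Agent.Lib.MP_afdd4d_co.K10.LR
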