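import Pool.Agent.Lib.MP_afdd4d_co.K10.LR.R207

/-!
# The rows of the links, part 239
-/

namespace Pool.Agent.Lib.MP_afdd4d_co.K10.LR

open K8 K8.L9

theorem q239 : twoG oneJ 476 490 = true := by decide +kernel

theorem r476 : I.C.oneB (reE 476) = true := two_l 476 490 q239

theorem r490 : I.C.oneB (reE 490) = true := two_r 476 490 q239

end Pool.Agent.Lib.MP_afdd4d_co.K10.LR
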