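import Pool.Agent.Lib.MP_afdd4d_co.K10.LR.R208

/-!
# The rows of the links, part 240
-/

namespace Pool.Agent.Lib.MP_afdd4d_co.K10.LR

open K8 K8.L9

theorem q240 : twoG oneJ 478 479 = true := by decide +kernel

theorem r478 : I.C.oneB (reE 478) = true := two_l 478 479 q240

theorem r479 : I.C.oneB (reE 479) = true := two_r 478 479 q240

end Pool.Agent.Lib.MP_afdd4d_co.K10.LR
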