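import Pool.Agent.Lib.MP_afdd4d_co.K10.LR.R209

/-!
# The rows of the links, part 241
-/

namespace Pool.Agent.Lib.MP_afdd4d_co.K10.LR

open K8 K8.L9

theorem q241 : twoG oneJ 480 482 = true := by decide +kernel

theorem r480 : I.C.oneB (reE 480) = true := two_l 480 482 q241

theorem r482 : I.C.oneB (reE 482) = true := two_r 480 482 q241

end Pool.Agent.Lib.MP_afdd4d_co.K10.LR
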