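import Pool.Agent.Lib.MP_afdd4d_co.K10.LR.R210

/-!
# The rows of the links, part 242
-/

namespace Pool.Agent.Lib.MP_afdd4d_co.K10.LR

open K8 K8.L9

theorem q242 : twoG oneJ 481 501 = true := by decide +kernel

theorem r481 : I.C.oneB (reE 481) = true := two_l 481 501 q242

theorem r501 : I.C.oneB (reE 501) = true := two_r 481 501 q242

end Pool.Agent.Lib.MP_afdd4d_co.K10.LR
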