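import Pool.Agent.Lib.MP_afdd4d_co.K10.LR.R211

/-!
# The rows of the links, part 243
-/

namespace Pool.Agent.Lib.MP_afdd4d_co.K10.LR

open K8 K8.L9

theorem q243 : twoG oneJ 483 504 = true := by decide +kernel

theorem r483 : I.C.oneB (reE 483) = true := two_l 483 504 q243

theorem r504 : I.C.oneB (reE 504) = true := two_r 483 504 q243

end Pool.Agent.Lib.MP_afdd4d_co.K10.LR
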