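import Pool.Agent.Lib.MP_afdd4d_co.K10.LR.R212

/-!
# The rows of the links, part 244
-/

namespace Pool.Agent.Lib.MP_afdd4d_co.K10.LR

open K8 K8.L9

theorem q244 : twoG oneJ 484 499 = true := by decide +kernel

theorem r484 : I.C.oneB (reE 484) = true := two_l 484 499 q244

theorem r499 : I.C.oneB (reE 499) = true := two_r 484 499 q244

end Pool.Agent.Lib.MP_afdd4d_co.K10.LR
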