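import Pool.Agent.Lib.MP_afdd4d_co.K10.LR.R214

/-!
# The rows of the links, part 246
-/

namespace Pool.Agent.Lib.MP_afdd4d_co.K10.LR

open K8 K8.L9

theorem q246 : twoG oneJ 486 503 = true := by decide +kernel

theorem r486 : I.C.oneB (reE 486) = true := two_l 486 503 q246

theorem r503 : I.C.oneB (reE 503) = true := two_r 486 503 q246

end Pool.Agent.Lib.MP_afdd4d_co.K10.LR
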