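import Pool.Agent.Lib.MP_afdd4d_co.K10.LR.R215

/-!
# The rows of the links, part 247
-/

namespace Pool.Agent.Lib.MP_afdd4d_co.K10.LR

open K8 K8.L9

theorem q247 : twoG oneJ 487 497 = true := by decide +kernel

theorem r487 : I.C.oneB (reE 487) = true := two_l 487 497 q247

theorem r497 : I.C.oneB (reE 497) = true := two_r 487 497 q247

end Pool.Agent.Lib.MP_afdd4d_co.K10.LR
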