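import Pool.Agent.Lib.MP_afdd4d_co.K10.LR.R216

/-!
# The rows of the links, part 248
-/

namespace Pool.Agent.Lib.MP_afdd4d_co.K10.LR

open K8 K8.L9

theorem q248 : twoG oneJ 488 508 = true := by decide +kernel

theorem r488 : I.C.oneB (reE 488) = true := two_l 488 508 q248

theorem r508 : I.C.oneB (reE 508) = true := two_r 488 508 q248

end Pool.Agent.Lib.MP_afdd4d_co.K10.LR
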