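import Pool.Agent.Lib.MP_afdd4d_co.K10.LR.R217

/-!
# The rows of the links, part 249
-/

namespace Pool.Agent.Lib.MP_afdd4d_co.K10.LR

open K8 K8.L9

theorem q249 : twoG oneJ 489 505 = true := by decide +kernel

theorem r489 : I.C.oneB (reE 489) = true := two_l 489 505 q249

theorem r505 : I.C.oneB (reE 505) = true := two_r 489 505 q249

end Pool.Agent.Lib.MP_afdd4d_co.K10.LR
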