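import Pool.Agent.Lib.MP_afdd4d_co.K10.LR.R218

/-!
# The rows of the links, part 250
-/

namespace Pool.Agent.Lib.MP_afdd4d_co.K10.LR

open K8 K8.L9

theorem q250 : twoG oneJ 491 496 = true := by decide +kernel

theorem r491 : I.C.oneB (reE 491) = true := two_l 491 496 q250

theorem r496 : I.C.oneB (reE 496) = true := two_r 491 496 q250

end Pool.Agent.Lib.MP_afdd4d_co.K10.LR
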