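import Pool.Agent.Lib.MP_afdd4d_co.K10.LR.R219

/-!
# The rows of the links, part 251
-/

namespace Pool.Agent.Lib.MP_afdd4d_co.K10.LR

open K8 K8.L9

theorem q251 : twoG oneJ 492 506 = true := by decide +kernel

theorem r492 : I.C.oneB (reE 492) = true := two_l 492 506 q251

theorem r506 : I.C.oneB (reE 506) = true := two_r 492 506 q251

end Pool.Agent.Lib.MP_afdd4d_co.K10.LR
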