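import Pool.Agent.Lib.MP_afdd4d_co.K10.LR.R220

/-!
# The rows of the links, part 252
-/

namespace Pool.Agent.Lib.MP_afdd4d_co.K10.LR

open K8 K8.L9

theorem q252 : twoG oneJ 493 498 = true := by decide +kernel

theorem r493 : I.C.oneB (reE 493) = true := two_l 493 498 q252

theorem r498 : I.C.oneB (reE 498) = true := two_r 493 498 q252

end Pool.Agent.Lib.MP_afdd4d_co.K10.LR
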