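import Pool.Agent.Lib.MP_afdd4d_co.K10.LR.R221

/-!
# The rows of the links, part 253
-/

namespace Pool.Agent.Lib.MP_afdd4d_co.K10.LR

open K8 K8.L9

theorem q253 : twoG oneJ 494 495 = true := by decide +kernel

theorem r494 : I.C.oneB (reE 494) = true := two_l 494 495 q253

theorem r495 : I.C.oneB (reE 495) = true := two_r 494 495 q253

end Pool.Agent.Lib.MP_afdd4d_co.K10.LR
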