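import Pool.Agent.Lib.MP_afdd4d_co.K10.LR.R222

/-!
# The rows of the links, part 254
-/

namespace Pool.Agent.Lib.MP_afdd4d_co.K10.LR

open K8 K8.L9

theorem q254 : twoG oneJ 502 507 = true := by decide +kernel

theorem r502 : I.C.oneB (reE 502) = true := two_l 502 507 q254

theorem r507 : I.C.oneB (reE 507) = true := two_r 502 507 q254

end Pool.Agent.Lib.MP_afdd4d_co.K10.LR
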