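import Pool.Agent.Lib.MP_afdd4d_co.K10.LR.R223

/-!
# The rows of the links, part 255
-/

namespace Pool.Agent.Lib.MP_afdd4d_co.K10.LR

open K8 K8.L9

theorem q255 : twoG oneJ 509 510 = true := by decide +kernel

theorem r509 : I.C.oneB (reE 509) = true := two_l 509 510 q255

theorem r510 : I.C.oneB (reE 510) = true := two_r 509 510 q255

end Pool.Agent.Lib.MP_afdd4d_co.K10.LR
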