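import Pool.Agent.Lib.MP_afdd4d_co.K10.LR.R224
import Pool.Agent.Lib.MP_afdd4d_co.K10.LR.R225
import Pool.Agent.Lib.MP_afdd4d_co.K10.LR.R226
import Pool.Agent.Lib.MP_afdd4d_co.K10.LR.R227
import Pool.Agent.Lib.MP_afdd4d_co.K10.LR.R228
import Pool.Agent.Lib.MP_afdd4d_co.K10.LR.R229
import Pool.Agent.Lib.MP_afdd4d_co.K10.LR.R230
import Pool.Agent.Lib.MP_afdd4d_co.K10.LR.R231
import Pool.Agent.Lib.MP_afdd4d_co.K10.LR.R232
import Pool.Agent.Lib.MP_afdd4d_co.K10.LR.R233
import Pool.Agent.Lib.MP_afdd4d_co.K10.LR.R234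
import Pool.Agent.Lib.MP_afdd4d_co.K10.LR.R235
import Pool.Agent.Lib.MP_afdd4d_co.K10.LR.R236
import Pool.Agent.Lib.MP_afdd4d_co.K10.LR.R237
import Pool.Agent.Lib.MP_afdd4d_co.K10.LR.R238
import Pool.Agent.Lib.MP_afdd4d_co.K10.LR.R239
import Pool.Agent.Lib.MP_afdd4d_co.K10.LR.R240
import Pool.Agent.Lib.MP_afdd4d_co.K10.LR.R241
import Pool.Agent.Lib.MP_afdd4d_co.K10.LR.R242
import Pool.Agent.Lib.MP_afdd4d_co.K10.LR.R243
import Pool.Agent.Lib.MP_afdd4d_co.K10.LR.R244
import Pool.Agent.Lib.MP_afdd4d_co.K10.LR.R245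
import Pool.Agent.Lib.MP_afdd4d_co.K10.LR.R246
import Pool.Agent.Lib.MP_afdd4d_co.K10.LR.R247
import Pool.Agent.Lib.MP_afdd4d_co.K10.LR.R248
import Pool.Agent.Lib.MP_afdd4d_co.K10.LR.R249
import Pool.Agent.Lib.MP_afdd4d_co.K10.LR.R250
import Pool.Agent.Lib.MP_afdd4d_co.K10.LR.R251
import Pool.Agent.Lib.MP_afdd4d_co.K10.LR.R252
import Pool.Agent.Lib.MP_afdd4d_co.K10.LR.R253
import Pool.Agent.Lib.MP_afdd4d_co.K10.LR.R254
import Pool.Agent.Lib.MP_afdd4d_co.K10.LR.R255

/-!
# The rows of the links, group 7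
-/

namespace Pool.Agent.Lib.MP_afdd4d_co.K10.LR

open K8 K8.L9

theorem j7 : ∀ j, 448 ≤ j → j < 512 → I.C.oneB (reE j) = true := by
  intro j h1 h2
  interval_cases j
  · exact r448
  · exact r449
  · exact r450
  · exact r451
  · exact r452
  · exact r453
  · exact r454
  · exact r455
  · exact r456
  · exact r457
  · exact r458
  · exact r459
  · exact r460
  · exact r461
  · exact r462
  · exact r463
  · exact r464
  · exact r465
  · exact r466
  · exact r467
  · exact r468
  · exact r469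
  · exact r470
  · exact r471
  · exact r472
  · exact r473
  · exact r474
  · exact r475
  · exact r476
  · exact r477
  · exact r478
  · exact r479
  · exact r480
  · exact r481
  · exact r482
  · exact r483
  · exact r484
  · exact r485
  · exact r486
  · exact r487
  · exact r488
  · exact r489
  · exact r490
  · exact r491
  · exact r492
  · exact r493
  · exact r494
  · exact r495
  · exact r496
  · exact r497
  · exact r498
  · exact r499
  · exact r500
  · exact r501
  · exact r502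
  · exact r503
  · exact r504
  · exact r505
  · exact r506
  · exact r507
  · exact r508
  · exact r509
  · exact r510
  · exact r511

end Pool.Agent.Lib.MP_afdd4d_co.K10.LR
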