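import Pool.Agent.Lib.MP_afdd4d_co.K10.LR.R225

/-!
# The rows of the links, part 257
-/

namespace Pool.Agent.Lib.MP_afdd4d_co.K10.LR

open K8 K8.L9

theorem q257 : twoG oneJ 513 522 = true := by decide +kernel

theorem r513 : I.C.oneB (reE 513) = true := two_l 513 522 q257

theorem r522 : I.C.oneB (reE 522) = true := two_r 513 522 q257

end Pool.Agent.Lib.MP_afdd4d_co.K10.LR
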