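import Pool.Agent.Lib.MP_afdd4d_co.K10.LR.R226

/-!
# The rows of the links, part 258
-/

namespace Pool.Agent.Lib.MP_afdd4d_co.K10.LR

open K8 K8.L9

theorem q258 : twoG oneJ 514 525 = true := by decide +kernel

theorem r514 : I.C.oneB (reE 514) = true := two_l 514 525 q258

theorem r525 : I.C.oneB (reE 525) = true := two_r 514 525 q258

end Pool.Agent.Lib.MP_afdd4d_co.K10.LR
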