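import Pool.Agent.Lib.MP_afdd4d_co.K10.LR.R227

/-!
# The rows of the links, part 259
-/

namespace Pool.Agent.Lib.MP_afdd4d_co.K10.LR

open K8 K8.L9

theorem q259 : twoG oneJ 515 523 = true := by decide +kernel

theorem r515 : I.C.oneB (reE 515) = true := two_l 515 523 q259

theorem r523 : I.C.oneB (reE 523) = true := two_r 515 523 q259

end Pool.Agent.Lib.MP_afdd4d_co.K10.LR
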