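import Pool.Agent.Lib.MP_afdd4d_co.K10.LR.R228

/-!
# The rows of the links, part 260
-/

namespace Pool.Agent.Lib.MP_afdd4d_co.K10.LR

open K8 K8.L9

theorem q260 : twoG oneJ 516 524 = true := by decide +kernel

theorem r516 : I.C.oneB (reE 516) = true := two_l 516 524 q260

theorem r524 : I.C.oneB (reE 524) = true := two_r 516 524 q260

end Pool.Agent.Lib.MP_afdd4d_co.K10.LR
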