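import Pool.Agent.Lib.MP_afdd4d_co.K10.LR.R229

/-!
# The rows of the links, part 261
-/

namespace Pool.Agent.Lib.MP_afdd4d_co.K10.LR

open K8 K8.L9

theorem q261 : twoG oneJ 517 537 = true := by decide +kernel

theorem r517 : I.C.oneB (reE 517) = true := two_l 517 537 q261

theorem r537 : I.C.oneB (reE 537) = true := two_r 517 537 q261

end Pool.Agent.Lib.MP_afdd4d_co.K10.LR
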