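import Pool.Agent.Lib.MP_afdd4d_co.K10.LR.R230

/-!
# The rows of the links, part 262
-/

namespace Pool.Agent.Lib.MP_afdd4d_co.K10.LR

open K8 K8.L9

theorem q262 : twoG oneJ 519 538 = true := by decide +kernel

theorem r519 : I.C.oneB (reE 519) = true := two_l 519 538 q262

theorem r538 : I.C.oneB (reE 538) = true := two_r 519 538 q262

end Pool.Agent.Lib.MP_afdd4d_co.K10.LR
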