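import Pool.Agent.Lib.MP_afdd4d_co.K10.LR.R231

/-!
# The rows of the links, part 263
-/

namespace Pool.Agent.Lib.MP_afdd4d_co.K10.LR

open K8 K8.L9

theorem q263 : twoG oneJ 520 539 = true := by decide +kernel

theorem r520 : I.C.oneB (reE 520) = true := two_l 520 539 q263

theorem r539 : I.C.oneB (reE 539) = true := two_r 520 539 q263

end Pool.Agent.Lib.MP_afdd4d_co.K10.LR
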