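import Pool.Agent.Lib.MP_afdd4d_co.K10.LR.R232

/-!
# The rows of the links, part 264
-/

namespace Pool.Agent.Lib.MP_afdd4d_co.K10.LR

open K8 K8.L9

theorem q264 : twoG oneJ 521 540 = true := by decide +kernel

theorem r521 : I.C.oneB (reE 521) = true := two_l 521 540 q264

theorem r540 : I.C.oneB (reE 540) = true := two_r 521 540 q264

end Pool.Agent.Lib.MP_afdd4d_co.K10.LR
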