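import Pool.Agent.Lib.MP_afdd4d_co.K10.LR.R233

/-!
# The rows of the links, part 265
-/

namespace Pool.Agent.Lib.MP_afdd4d_co.K10.LR

open K8 K8.L9

theorem q265 : twoG oneJ 526 544 = true := by decide +kernel

theorem r526 : I.C.oneB (reE 526) = true := two_l 526 544 q265

theorem r544 : I.C.oneB (reE 544) = true := two_r 526 544 q265

end Pool.Agent.Lib.MP_afdd4d_co.K10.LR
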