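import Pool.Agent.Lib.MP_afdd4d_co.K10.LR.R235

/-!
# The rows of the links, part 267
-/

namespace Pool.Agent.Lib.MP_afdd4d_co.K10.LR

open K8 K8.L9

theorem q267 : twoG oneJ 528 546 = true := by decide +kernel

theorem r528 : I.C.oneB (reE 528) = true := two_l 528 546 q267

theorem r546 : I.C.oneB (reE 546) = true := two_r 528 546 q267

end Pool.Agent.Lib.MP_afdd4d_co.K10.LR
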