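import Pool.Agent.Lib.MP_afdd4d_co.K10.LR.R236

/-!
# The rows of the links, part 268
-/

namespace Pool.Agent.Lib.MP_afdd4d_co.K10.LR

open K8 K8.L9

theorem q268 : twoG oneJ 529 547 = true := by decide +kernel

theorem r529 : I.C.oneB (reE 529) = true := two_l 529 547 q268

theorem r547 : I.C.oneB (reE 547) = true := two_r 529 547 q268

end Pool.Agent.Lib.MP_afdd4d_co.K10.LR
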