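import Pool.Agent.Lib.MP_afdd4d_co.K10.LR.R237

/-!
# The rows of the links, part 269
-/

namespace Pool.Agent.Lib.MP_afdd4d_co.K10.LR

open K8 K8.L9

theorem q269 : twoG oneJ 530 541 = true := by decide +kernel

theorem r530 : I.C.oneB (reE 530) = true := two_l 530 541 q269

theorem r541 : I.C.oneB (reE 541) = true := two_r 530 541 q269

end Pool.Agent.Lib.MP_afdd4d_co.K10.LR
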