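import Pool.Agent.Lib.MP_afdd4d_co.K10.LR.R238

/-!
# The rows of the links, part 270
-/

namespace Pool.Agent.Lib.MP_afdd4d_co.K10.LR

open K8 K8.L9

theorem q270 : twoG oneJ 531 542 = true := by decide +kernel

theorem r531 : I.C.oneB (reE 531) = true := two_l 531 542 q270

theorem r542 : I.C.oneB (reE 542) = true := two_r 531 542 q270

end Pool.Agent.Lib.MP_afdd4d_co.K10.LR
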