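import Pool.Agent.Lib.MP_afdd4d_co.K10.LR.R239

/-!
# The rows of the links, part 271
-/

namespace Pool.Agent.Lib.MP_afdd4d_co.K10.LR

open K8 K8.L9

theorem q271 : twoG oneJ 532 543 = true := by decide +kernel

theorem r532 : I.C.oneB (reE 532) = true := two_l 532 543 q271

theorem r543 : I.C.oneB (reE 543) = true := two_r 532 543 q271

end Pool.Agent.Lib.MP_afdd4d_co.K10.LR
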