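import Pool.Agent.Lib.MP_afdd4d_co.K10.LR.R240

/-!
# The rows of the links, part 272
-/

namespace Pool.Agent.Lib.MP_afdd4d_co.K10.LR

open K8 K8.L9

theorem q272 : twoG oneJ 533 575 = true := by decide +kernel

theorem r533 : I.C.oneB (reE 533) = true := two_l 533 575 q272

theorem r575 : I.C.oneB (reE 575) = true := two_r 533 575 q272

end Pool.Agent.Lib.MP_afdd4d_co.K10.LR
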