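import Pool.Agent.Lib.MP_afdd4d_co.K10.LR.R241

/-!
# The rows of the links, part 273
-/

namespace Pool.Agent.Lib.MP_afdd4d_co.K10.LR

open K8 K8.L9

theorem q273 : twoG oneJ 534 550 = true := by decide +kernel

theorem r534 : I.C.oneB (reE 534) = true := two_l 534 550 q273

theorem r550 : I.C.oneB (reE 550) = true := two_r 534 550 q273

end Pool.Agent.Lib.MP_afdd4d_co.K10.LR
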