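import Pool.Agent.Lib.MP_afdd4d_co.K10.LR.R242

/-!
# The rows of the links, part 274
-/

namespace Pool.Agent.Lib.MP_afdd4d_co.K10.LR

open K8 K8.L9

theorem q274 : twoG oneJ 535 548 = true := by decide +kernel

theorem r535 : I.C.oneB (reE 535) = true := two_l 535 548 q274

theorem r548 : I.C.oneB (reE 548) = true := two_r 535 548 q274

end Pool.Agent.Lib.MP_afdd4d_co.K10.LR
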