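import Pool.Agent.Lib.MP_afdd4d_co.K10.LR.R243

/-!
# The rows of the links, part 275
-/

namespace Pool.Agent.Lib.MP_afdd4d_co.K10.LR

open K8 K8.L9

theorem q275 : twoG oneJ 536 549 = true := by decide +kernel

theorem r536 : I.C.oneB (reE 536) = true := two_l 536 549 q275

theorem r549 : I.C.oneB (reE 549) = true := two_r 536 549 q275

end Pool.Agent.Lib.MP_afdd4d_co.K10.LR
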