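import Pool.Agent.Lib.MP_afdd4d_co.K10.LR.R244

/-!
# The rows of the links, part 276
-/

namespace Pool.Agent.Lib.MP_afdd4d_co.K10.LR

open K8 K8.L9

theorem q276 : twoG oneJ 551 552 = true := by decide +kernel

theorem r551 : I.C.oneB (reE 551) = true := two_l 551 552 q276

theorem r552 : I.C.oneB (reE 552) = true := two_r 551 552 q276

end Pool.Agent.Lib.MP_afdd4d_co.K10.LR
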