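import Pool.Agent.Lib.MP_afdd4d_co.K10.LR.R246

/-!
# The rows of the links, part 278
-/

namespace Pool.Agent.Lib.MP_afdd4d_co.K10.LR

open K8 K8.L9

theorem q278 : twoG oneJ 554 574 = true := by decide +kernel

theorem r554 : I.C.oneB (reE 554) = true := two_l 554 574 q278

theorem r574 : I.C.oneB (reE 574) = true := two_r 554 574 q278

end Pool.Agent.Lib.MP_afdd4d_co.K10.LR
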