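import Pool.Agent.Lib.MP_afdd4d_co.K10.LR.R247

/-!
# The rows of the links, part 279
-/

namespace Pool.Agent.Lib.MP_afdd4d_co.K10.LR

open K8 K8.L9

theorem q279 : twoG oneJ 556 564 = true := by decide +kernel

theorem r556 : I.C.oneB (reE 556) = true := two_l 556 564 q279

theorem r564 : I.C.oneB (reE 564) = true := two_r 556 564 q279

end Pool.Agent.Lib.MP_afdd4d_co.K10.LR
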