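import Pool.Agent.Lib.MP_afdd4d_co.K10.LR.R248

/-!
# The rows of the links, part 280
-/

namespace Pool.Agent.Lib.MP_afdd4d_co.K10.LR

open K8 K8.L9

theorem q280 : twoG oneJ 557 558 = true := by decide +kernel

theorem r557 : I.C.oneB (reE 557) = true := two_l 557 558 q280

theorem r558 : I.C.oneB (reE 558) = true := two_r 557 558 q280

end Pool.Agent.Lib.MP_afdd4d_co.K10.LR
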