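import Pool.Agent.Lib.MP_afdd4d_co.K10.LR.R249

/-!
# The rows of the links, part 281
-/

namespace Pool.Agent.Lib.MP_afdd4d_co.K10.LR

open K8 K8.L9

theorem q281 : twoG oneJ 559 567 = true := by decide +kernel

theorem r559 : I.C.oneB (reE 559) = true := two_l 559 567 q281

theorem r567 : I.C.oneB (reE 567) = true := two_r 559 567 q281

end Pool.Agent.Lib.MP_afdd4d_co.K10.LR
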