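import Pool.Agent.Lib.MP_afdd4d_co.K10.LR.R250

/-!
# The rows of the links, part 282
-/

namespace Pool.Agent.Lib.MP_afdd4d_co.K10.LR

open K8 K8.L9

theorem q282 : twoG oneJ 560 568 = true := by decide +kernel

theorem r560 : I.C.oneB (reE 560) = true := two_l 560 568 q282

theorem r568 : I.C.oneB (reE 568) = true := two_r 560 568 q282

end Pool.Agent.Lib.MP_afdd4d_co.K10.LR
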