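import Pool.Agent.Lib.MP_afdd4d_co.K10.LR.R251

/-!
# The rows of the links, part 283
-/

namespace Pool.Agent.Lib.MP_afdd4d_co.K10.LR

open K8 K8.L9

theorem q283 : twoG oneJ 561 569 = true := by decide +kernel

theorem r561 : I.C.oneB (reE 561) = true := two_l 561 569 q283

theorem r569 : I.C.oneB (reE 569) = true := two_r 561 569 q283

end Pool.Agent.Lib.MP_afdd4d_co.K10.LR
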