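import Pool.Agent.Lib.MP_afdd4d_co.K10.LR.R252

/-!
# The rows of the links, part 284
-/

namespace Pool.Agent.Lib.MP_afdd4d_co.K10.LR

open K8 K8.L9

theorem q284 : twoG oneJ 562 570 = true := by decide +kernel

theorem r562 : I.C.oneB (reE 562) = true := two_l 562 570 q284

theorem r570 : I.C.oneB (reE 570) = true := two_r 562 570 q284

end Pool.Agent.Lib.MP_afdd4d_co.K10.LR
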