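import Pool.Agent.Lib.MP_afdd4d_co.K10.LR.R253

/-!
# The rows of the links, part 285
-/

namespace Pool.Agent.Lib.MP_afdd4d_co.K10.LR

open K8 K8.L9

theorem q285 : twoG oneJ 563 571 = true := by decide +kernel

theorem r563 : I.C.oneB (reE 563) = true := two_l 563 571 q285

theorem r571 : I.C.oneB (reE 571) = true := two_r 563 571 q285

end Pool.Agent.Lib.MP_afdd4d_co.K10.LR
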