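import Pool.Agent.Lib.MP_afdd4d_co.K10.LR.R254

/-!
# The rows of the links, part 286
-/

namespace Pool.Agent.Lib.MP_afdd4d_co.K10.LR

open K8 K8.L9

theorem q286 : twoG oneJ 565 566 = true := by decide +kernel

theorem r565 : I.C.oneB (reE 565) = true := two_l 565 566 q286

theorem r566 : I.C.oneB (reE 566) = true := two_r 565 566 q286

end Pool.Agent.Lib.MP_afdd4d_co.K10.LR
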