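import Pool.Agent.Lib.MP_afdd4d_co.K10.LR.R255

/-!
# The rows of the links, part 287
-/

namespace Pool.Agent.Lib.MP_afdd4d_co.K10.LR

open K8 K8.L9

theorem q287 : twoG oneJ 572 573 = true := by decide +kernel

theorem r572 : I.C.oneB (reE 572) = true := two_l 572 573 q287

theorem r573 : I.C.oneB (reE 573) = true := two_r 572 573 q287

end Pool.Agent.Lib.MP_afdd4d_co.K10.LR
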