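import Pool.Agent.Lib.MP_afdd4d_co.K10.LR.R256
import Pool.Agent.Lib.MP_afdd4d_co.K10.LR.R257
import Pool.Agent.Lib.MP_afdd4d_co.K10.LR.R258
import Pool.Agent.Lib.MP_afdd4d_co.K10.LR.R259
import Pool.Agent.Lib.MP_afdd4d_co.K10.LR.R260
import Pool.Agent.Lib.MP_afdd4d_co.K10.LR.R261
import Pool.Agent.Lib.MP_afdd4d_co.K10.LR.R262
import Pool.Agent.Lib.MP_afdd4d_co.K10.LR.R263
import Pool.Agent.Lib.MP_afdd4d_co.K10.LR.R264
import Pool.Agent.Lib.MP_afdd4d_co.K10.LR.R265
import Pool.Agent.Lib.MP_afdd4d_co.K10.LR.R266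
import Pool.Agent.Lib.MP_afdd4d_co.K10.LR.R267
import Pool.Agent.Lib.MP_afdd4d_co.K10.LR.R268
import Pool.Agent.Lib.MP_afdd4d_co.K10.LR.R269
import Pool.Agent.Lib.MP_afdd4d_co.K10.LR.R270
import Pool.Agent.Lib.MP_afdd4d_co.K10.LR.R271
import Pool.Agent.Lib.MP_afdd4d_co.K10.LR.R272
import Pool.Agent.Lib.MP_afdd4d_co.K10.LR.R273
import Pool.Agent.Lib.MP_afdd4d_co.K10.LR.R274
import Pool.Agent.Lib.MP_afdd4d_co.K10.LR.R275
import Pool.Agent.Lib.MP_afdd4d_co.K10.LR.R276
import Pool.Agent.Lib.MP_afdd4d_co.K10.LR.R277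
import Pool.Agent.Lib.MP_afdd4d_co.K10.LR.R278
import Pool.Agent.Lib.MP_afdd4d_co.K10.LR.R279
import Pool.Agent.Lib.MP_afdd4d_co.K10.LR.R280
import Pool.Agent.Lib.MP_afdd4d_co.K10.LR.R281
import Pool.Agent.Lib.MP_afdd4d_co.K10.LR.R282
import Pool.Agent.Lib.MP_afdd4d_co.K10.LR.R283
import Pool.Agent.Lib.MP_afdd4d_co.K10.LR.R284
import Pool.Agent.Lib.MP_afdd4d_co.K10.LR.R285
import Pool.Agent.Lib.MP_afdd4d_co.K10.LR.R286
import Pool.Agent.Lib.MP_afdd4d_co.K10.LR.R287

/-!
# The rows of the links, group 8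
-/

namespace Pool.Agent.Lib.MP_afdd4d_co.K10.LR

open K8 K8.L9

theorem j8 : ∀ j, 512 ≤ j → j < 576 → I.C.oneB (reE j) = true := by
  intro j h1 h2
  interval_cases j
  · exact r512
  · exact r513
  · exact r514
  · exact r515
  · exact r516
  · exact r517
  · exact r518
  · exact r519
  · exact r520
  · exact r521
  · exact r522
  · exact r523
  · exact r524
  · exact r525
  · exact r526
  · exact r527
  · exact r528
  · exact r529
  · exact r530
  · exact r531
  · exact r532
  · exact r533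
  · exact r534
  · exact r535
  · exact r536
  · exact r537
  · exact r538
  · exact r539
  · exact r540
  · exact r541
  · exact r542
  · exact r543
  · exact r544
  · exact r545
  · exact r546
  · exact r547
  · exact r548
  · exact r549
  · exact r550
  · exact r551
  · exact r552
  · exact r553
  · exact r554
  · exact r555
  · exact r556
  · exact r557
  · exact r558
  · exact r559
  · exact r560
  · exact r561
  · exact r562
  · exact r563
  · exact r564
  · exact r565
  · exact r566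
  · exact r567
  · exact r568
  · exact r569
  · exact r570
  · exact r571
  · exact r572
  · exact r573
  · exact r574
  · exact r575

end Pool.Agent.Lib.MP_afdd4d_co.K10.LR
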