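import Pool.Agent.Lib.MP_afdd4d_co.K10.LR.R289

/-!
# The rows of the links, part 321
-/

namespace Pool.Agent.Lib.MP_afdd4d_co.K10.LR

open K8 K8.L9

theorem q321 : twoG oneJ 641 674 = true := by decide +kernel

theorem r641 : I.C.oneB (reE 641) = true := two_l 641 674 q321

theorem r674 : I.C.oneB (reE 674) = true := two_r 641 674 q321

end Pool.Agent.Lib.MP_afdd4d_co.K10.LR
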