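import Pool.Agent.Lib.MP_afdd4d_co.K10.LR.R290

/-!
# The rows of the links, part 322
-/

namespace Pool.Agent.Lib.MP_afdd4d_co.K10.LR

open K8 K8.L9

theorem q322 : twoG oneJ 643 685 = true := by decide +kernel

theorem r643 : I.C.oneB (reE 643) = true := two_l 643 685 q322

theorem r685 : I.C.oneB (reE 685) = true := two_r 643 685 q322

end Pool.Agent.Lib.MP_afdd4d_co.K10.LR
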