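import Pool.Agent.Lib.MP_afdd4d_co.K10.LR.R291

/-!
# The rows of the links, part 323
-/

namespace Pool.Agent.Lib.MP_afdd4d_co.K10.LR

open K8 K8.L9

theorem q323 : twoG oneJ 644 647 = true := by decide +kernel

theorem r644 : I.C.oneB (reE 644) = true := two_l 644 647 q323

theorem r647 : I.C.oneB (reE 647) = true := two_r 644 647 q323

end Pool.Agent.Lib.MP_afdd4d_co.K10.LR
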