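import Pool.Agent.Lib.MP_afdd4d_co.K10.LR.R292

/-!
# The rows of the links, part 324
-/

namespace Pool.Agent.Lib.MP_afdd4d_co.K10.LR

open K8 K8.L9

theorem q324 : twoG oneJ 645 650 = true := by decide +kernel

theorem r645 : I.C.oneB (reE 645) = true := two_l 645 650 q324

theorem r650 : I.C.oneB (reE 650) = true := two_r 645 650 q324

end Pool.Agent.Lib.MP_afdd4d_co.K10.LR
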