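import Pool.Agent.Lib.MP_afdd4d_co.K10.LR.R293

/-!
# The rows of the links, part 325
-/

namespace Pool.Agent.Lib.MP_afdd4d_co.K10.LR

open K8 K8.L9

theorem q325 : twoG oneJ 646 649 = true := by decide +kernel

theorem r646 : I.C.oneB (reE 646) = true := two_l 646 649 q325

theorem r649 : I.C.oneB (reE 649) = true := two_r 646 649 q325

end Pool.Agent.Lib.MP_afdd4d_co.K10.LR
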