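import Pool.Agent.Lib.MP_afdd4d_co.K10.LR.R294

/-!
# The rows of the links, part 326
-/

namespace Pool.Agent.Lib.MP_afdd4d_co.K10.LR

open K8 K8.L9

theorem q326 : twoG oneJ 648 683 = true := by decide +kernel

theorem r648 : I.C.oneB (reE 648) = true := two_l 648 683 q326

theorem r683 : I.C.oneB (reE 683) = true := two_r 648 683 q326

end Pool.Agent.Lib.MP_afdd4d_co.K10.LR
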