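import Pool.Agent.Lib.MP_afdd4d_co.K10.LR.R295

/-!
# The rows of the links, part 327
-/

namespace Pool.Agent.Lib.MP_afdd4d_co.K10.LR

open K8 K8.L9

theorem q327 : twoG oneJ 651 652 = true := by decide +kernel

theorem r651 : I.C.oneB (reE 651) = true := two_l 651 652 q327

theorem r652 : I.C.oneB (reE 652) = true := two_r 651 652 q327

end Pool.Agent.Lib.MP_afdd4d_co.K10.LR
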