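import Pool.Agent.Lib.MP_afdd4d_co.K10.LR.R296

/-!
# The rows of the links, part 328
-/

namespace Pool.Agent.Lib.MP_afdd4d_co.K10.LR

open K8 K8.L9

theorem q328 : twoG oneJ 653 682 = true := by decide +kernel

theorem r653 : I.C.oneB (reE 653) = true := two_l 653 682 q328

theorem r682 : I.C.oneB (reE 682) = true := two_r 653 682 q328

end Pool.Agent.Lib.MP_afdd4d_co.K10.LR
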