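import Pool.Agent.Lib.MP_afdd4d_co.K10.LR.R297

/-!
# The rows of the links, part 329
-/

namespace Pool.Agent.Lib.MP_afdd4d_co.K10.LR

open K8 K8.L9

theorem q329 : twoG oneJ 654 666 = true := by decide +kernel

theorem r654 : I.C.oneB (reE 654) = true := two_l 654 666 q329

theorem r666 : I.C.oneB (reE 666) = true := two_r 654 666 q329

end Pool.Agent.Lib.MP_afdd4d_co.K10.LR
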