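import Pool.Agent.Lib.MP_afdd4d_co.K10.LR.R299

/-!
# The rows of the links, part 331
-/

namespace Pool.Agent.Lib.MP_afdd4d_co.K10.LR

open K8 K8.L9

theorem q331 : twoG oneJ 656 660 = true := by decide +kernel

theorem r656 : I.C.oneB (reE 656) = true := two_l 656 660 q331

theorem r660 : I.C.oneB (reE 660) = true := two_r 656 660 q331

end Pool.Agent.Lib.MP_afdd4d_co.K10.LR
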