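import Pool.Agent.Lib.MP_afdd4d_co.K10.LR.R300

/-!
# The rows of the links, part 332
-/

namespace Pool.Agent.Lib.MP_afdd4d_co.K10.LR

open K8 K8.L9

theorem q332 : twoG oneJ 657 669 = true := by decide +kernel

theorem r657 : I.C.oneB (reE 657) = true := two_l 657 669 q332

theorem r669 : I.C.oneB (reE 669) = true := two_r 657 669 q332

end Pool.Agent.Lib.MP_afdd4d_co.K10.LR
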