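import Pool.Agent.Lib.MP_afdd4d_co.K10.LR.R301

/-!
# The rows of the links, part 333
-/

namespace Pool.Agent.Lib.MP_afdd4d_co.K10.LR

open K8 K8.L9

theorem q333 : twoG oneJ 659 663 = true := by decide +kernel

theorem r659 : I.C.oneB (reE 659) = true := two_l 659 663 q333

theorem r663 : I.C.oneB (reE 663) = true := two_r 659 663 q333

end Pool.Agent.Lib.MP_afdd4d_co.K10.LR
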