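import Pool.Agent.Lib.MP_afdd4d_co.K10.LR.R302

/-!
# The rows of the links, part 334
-/

namespace Pool.Agent.Lib.MP_afdd4d_co.K10.LR

open K8 K8.L9

theorem q334 : twoG oneJ 661 670 = true := by decide +kernel

theorem r661 : I.C.oneB (reE 661) = true := two_l 661 670 q334

theorem r670 : I.C.oneB (reE 670) = true := two_r 661 670 q334

end Pool.Agent.Lib.MP_afdd4d_co.K10.LR
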