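import Pool.Agent.Lib.MP_afdd4d_co.K10.LR.R303

/-!
# The rows of the links, part 335
-/

namespace Pool.Agent.Lib.MP_afdd4d_co.K10.LR

open K8 K8.L9

theorem q335 : twoG oneJ 662 668 = true := by decide +kernel

theorem r662 : I.C.oneB (reE 662) = true := two_l 662 668 q335

theorem r668 : I.C.oneB (reE 668) = true := two_r 662 668 q335

end Pool.Agent.Lib.MP_afdd4d_co.K10.LR
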