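import Pool.Agent.Lib.MP_afdd4d_co.K10.LR.R304

/-!
# The rows of the links, part 336
-/

namespace Pool.Agent.Lib.MP_afdd4d_co.K10.LR

open K8 K8.L9

theorem q336 : twoG oneJ 664 665 = true := by decide +kernel

theorem r664 : I.C.oneB (reE 664) = true := two_l 664 665 q336

theorem r665 : I.C.oneB (reE 665) = true := two_r 664 665 q336

end Pool.Agent.Lib.MP_afdd4d_co.K10.LR
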