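import Pool.Agent.Lib.MP_afdd4d_co.K10.LR.R305

/-!
# The rows of the links, part 337
-/

namespace Pool.Agent.Lib.MP_afdd4d_co.K10.LR

open K8 K8.L9

theorem q337 : twoG oneJ 667 671 = true := by decide +kernel

theorem r667 : I.C.oneB (reE 667) = true := two_l 667 671 q337

theorem r671 : I.C.oneB (reE 671) = true := two_r 667 671 q337

end Pool.Agent.Lib.MP_afdd4d_co.K10.LR
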