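import Pool.Agent.Lib.MP_afdd4d_co.K10.LR.R306

/-!
# The rows of the links, part 338
-/

namespace Pool.Agent.Lib.MP_afdd4d_co.K10.LR

open K8 K8.L9

theorem q338 : twoG oneJ 672 679 = true := by decide +kernel

theorem r672 : I.C.oneB (reE 672) = true := two_l 672 679 q338

theorem r679 : I.C.oneB (reE 679) = true := two_r 672 679 q338

end Pool.Agent.Lib.MP_afdd4d_co.K10.LR
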