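import Pool.Agent.Lib.MP_afdd4d_co.K10.LR.R307

/-!
# The rows of the links, part 339
-/

namespace Pool.Agent.Lib.MP_afdd4d_co.K10.LR

open K8 K8.L9

theorem q339 : twoG oneJ 673 684 = true := by decide +kernel

theorem r673 : I.C.oneB (reE 673) = true := two_l 673 684 q339

theorem r684 : I.C.oneB (reE 684) = true := two_r 673 684 q339

end Pool.Agent.Lib.MP_afdd4d_co.K10.LR
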