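import Pool.Agent.Lib.MP_afdd4d_co.K10.LR.R308

/-!
# The rows of the links, part 340
-/

namespace Pool.Agent.Lib.MP_afdd4d_co.K10.LR

open K8 K8.L9

theorem q340 : twoG oneJ 675 678 = true := by decide +kernel

theorem r675 : I.C.oneB (reE 675) = true := two_l 675 678 q340

theorem r678 : I.C.oneB (reE 678) = true := two_r 675 678 q340

end Pool.Agent.Lib.MP_afdd4d_co.K10.LR
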