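import Pool.Agent.Lib.MP_afdd4d_co.K10.LR.R310

/-!
# The rows of the links, part 342
-/

namespace Pool.Agent.Lib.MP_afdd4d_co.K10.LR

open K8 K8.L9

theorem q342 : twoG oneJ 677 680 = true := by decide +kernel

theorem r677 : I.C.oneB (reE 677) = true := two_l 677 680 q342

theorem r680 : I.C.oneB (reE 680) = true := two_r 677 680 q342

end Pool.Agent.Lib.MP_afdd4d_co.K10.LR
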