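import Pool.Agent.Lib.MP_afdd4d_co.K10.LR.R311

/-!
# The rows of the links, part 343
-/

namespace Pool.Agent.Lib.MP_afdd4d_co.K10.LR

open K8 K8.L9

theorem q343 : twoG oneJ 686 687 = true := by decide +kernel

theorem r686 : I.C.oneB (reE 686) = true := two_l 686 687 q343

theorem r687 : I.C.oneB (reE 687) = true := two_r 686 687 q343

end Pool.Agent.Lib.MP_afdd4d_co.K10.LR
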