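import Pool.Agent.Lib.MP_afdd4d_co.K10.LR.R312

/-!
# The rows of the links, part 344
-/

namespace Pool.Agent.Lib.MP_afdd4d_co.K10.LR

open K8 K8.L9

theorem q344 : twoG oneJ 688 689 = true := by decide +kernel

theorem r688 : I.C.oneB (reE 688) = true := two_l 688 689 q344

theorem r689 : I.C.oneB (reE 689) = true := two_r 688 689 q344

end Pool.Agent.Lib.MP_afdd4d_co.K10.LR
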