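import Pool.Agent.Lib.MP_afdd4d_co.K10.LR.R313

/-!
# The rows of the links, part 345
-/

namespace Pool.Agent.Lib.MP_afdd4d_co.K10.LR

open K8 K8.L9

theorem q345 : twoG oneJ 690 702 = true := by decide +kernel

theorem r690 : I.C.oneB (reE 690) = true := two_l 690 702 q345

theorem r702 : I.C.oneB (reE 702) = true := two_r 690 702 q345

end Pool.Agent.Lib.MP_afdd4d_co.K10.LR
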