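import Pool.Agent.Lib.MP_afdd4d_co.K10.LR.R314

/-!
# The rows of the links, part 346
-/

namespace Pool.Agent.Lib.MP_afdd4d_co.K10.LR

open K8 K8.L9

theorem q346 : twoG oneJ 691 699 = true := by decide +kernel

theorem r691 : I.C.oneB (reE 691) = true := two_l 691 699 q346

theorem r699 : I.C.oneB (reE 699) = true := two_r 691 699 q346

end Pool.Agent.Lib.MP_afdd4d_co.K10.LR
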