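import Pool.Agent.Lib.MP_afdd4d_co.K10.LR.R315

/-!
# The rows of the links, part 347
-/

namespace Pool.Agent.Lib.MP_afdd4d_co.K10.LR

open K8 K8.L9

theorem q347 : twoG oneJ 692 700 = true := by decide +kernel

theorem r692 : I.C.oneB (reE 692) = true := two_l 692 700 q347

theorem r700 : I.C.oneB (reE 700) = true := two_r 692 700 q347

end Pool.Agent.Lib.MP_afdd4d_co.K10.LR
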