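import Pool.Agent.Lib.MP_afdd4d_co.K10.LR.R316

/-!
# The rows of the links, part 348
-/

namespace Pool.Agent.Lib.MP_afdd4d_co.K10.LR

open K8 K8.L9

theorem q348 : twoG oneJ 693 696 = true := by decide +kernel

theorem r693 : I.C.oneB (reE 693) = true := two_l 693 696 q348

theorem r696 : I.C.oneB (reE 696) = true := two_r 693 696 q348

end Pool.Agent.Lib.MP_afdd4d_co.K10.LR
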