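import Pool.Agent.Lib.MP_afdd4d_co.K10.LR.R317

/-!
# The rows of the links, part 349
-/

namespace Pool.Agent.Lib.MP_afdd4d_co.K10.LR

open K8 K8.L9

theorem q349 : twoG oneJ 694 695 = true := by decide +kernel

theorem r694 : I.C.oneB (reE 694) = true := two_l 694 695 q349

theorem r695 : I.C.oneB (reE 695) = true := two_r 694 695 q349

end Pool.Agent.Lib.MP_afdd4d_co.K10.LR
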