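import Pool.Agent.Lib.MP_afdd4d_co.K10.LR.R318

/-!
# The rows of the links, part 350
-/

namespace Pool.Agent.Lib.MP_afdd4d_co.K10.LR

open K8 K8.L9

theorem q350 : twoG oneJ 697 698 = true := by decide +kernel

theorem r697 : I.C.oneB (reE 697) = true := two_l 697 698 q350

theorem r698 : I.C.oneB (reE 698) = true := two_r 697 698 q350

end Pool.Agent.Lib.MP_afdd4d_co.K10.LR
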