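import Pool.Agent.Lib.MP_afdd4d_co.K10.LR.R319

/-!
# The rows of the links, part 351
-/

namespace Pool.Agent.Lib.MP_afdd4d_co.K10.LR

open K8 K8.L9

theorem q351 : twoG oneJ 701 703 = true := by decide +kernel

theorem r701 : I.C.oneB (reE 701) = true := two_l 701 703 q351

theorem r703 : I.C.oneB (reE 703) = true := two_r 701 703 q351

end Pool.Agent.Lib.MP_afdd4d_co.K10.LR
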