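import Pool.Agent.Lib.MP_afdd4d_co.K10.LR.R320
import Pool.Agent.Lib.MP_afdd4d_co.K10.LR.R321
import Pool.Agent.Lib.MP_afdd4d_co.K10.LR.R322
import Pool.Agent.Lib.MP_afdd4d_co.K10.LR.R323
import Pool.Agent.Lib.MP_afdd4d_co.K10.LR.R324
import Pool.Agent.Lib.MP_afdd4d_co.K10.LR.R325
import Pool.Agent.Lib.MP_afdd4d_co.K10.LR.R326
import Pool.Agent.Lib.MP_afdd4d_co.K10.LR.R327
import Pool.Agent.Lib.MP_afdd4d_co.K10.LR.R328
import Pool.Agent.Lib.MP_afdd4d_co.K10.LR.R329
import Pool.Agent.Lib.MP_afdd4d_co.K10.LR.R330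
import Pool.Agent.Lib.MP_afdd4d_co.K10.LR.R331
import Pool.Agent.Lib.MP_afdd4d_co.K10.LR.R332
import Pool.Agent.Lib.MP_afdd4d_co.K10.LR.R333
import Pool.Agent.Lib.MP_afdd4d_co.K10.LR.R334
import Pool.Agent.Lib.MP_afdd4d_co.K10.LR.R335
import Pool.Agent.Lib.MP_afdd4d_co.K10.LR.R336
import Pool.Agent.Lib.MP_afdd4d_co.K10.LR.R337
import Pool.Agent.Lib.MP_afdd4d_co.K10.LR.R338
import Pool.Agent.Lib.MP_afdd4d_co.K10.LR.R339
import Pool.Agent.Lib.MP_afdd4d_co.K10.LR.R340
import Pool.Agent.Lib.MP_afdd4d_co.K10.LR.R341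
import Pool.Agent.Lib.MP_afdd4d_co.K10.LR.R342
import Pool.Agent.Lib.MP_afdd4d_co.K10.LR.R343
import Pool.Agent.Lib.MP_afdd4d_co.K10.LR.R344
import Pool.Agent.Lib.MP_afdd4d_co.K10.LR.R345
import Pool.Agent.Lib.MP_afdd4d_co.K10.LR.R346
import Pool.Agent.Lib.MP_afdd4d_co.K10.LR.R347
import Pool.Agent.Lib.MP_afdd4d_co.K10.LR.R348
import Pool.Agent.Lib.MP_afdd4d_co.K10.LR.R349
import Pool.Agent.Lib.MP_afdd4d_co.K10.LR.R350
import Pool.Agent.Lib.MP_afdd4d_co.K10.LR.R351

/-!
# The rows of the links, group 10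
-/

namespace Pool.Agent.Lib.MP_afdd4d_co.K10.LR

open K8 K8.L9

theorem j10 : ∀ j, 640 ≤ j → j < 704 → I.C.oneB (reE j) = true := by
  intro j h1 h2
  interval_cases j
  · exact r640
  · exact r641
  · exact r642
  · exact r643
  · exact r644
  · exact r645
  · exact r646
  · exact r647
  · exact r648
  · exact r649
  · exact r650
  · exact r651
  · exact r652
  · exact r653
  · exact r654
  · exact r655
  · exact r656
  · exact r657
  · exact r658
  · exact r659
  · exact r660
  · exact r661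
  · exact r662
  · exact r663
  · exact r664
  · exact r665
  · exact r666
  · exact r667
  · exact r668
  · exact r669
  · exact r670
  · exact r671
  · exact r672
  · exact r673
  · exact r674
  · exact r675
  · exact r676
  · exact r677
  · exact r678
  · exact r679
  · exact r680
  · exact r681
  · exact r682
  · exact r683
  · exact r684
  · exact r685
  · exact r686
  · exact r687
  · exact r688
  · exact r689
  · exact r690
  · exact r691
  · exact r692
  · exact r693
  · exact r694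
  · exact r695
  · exact r696
  · exact r697
  · exact r698
  · exact r699
  · exact r700
  · exact r701
  · exact r702
  · exact r703

end Pool.Agent.Lib.MP_afdd4d_co.K10.LR
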