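import Pool.Agent.Lib.MP_afdd4d_co.K10.LR.R321

/-!
# The rows of the links, part 353
-/

namespace Pool.Agent.Lib.MP_afdd4d_co.K10.LR

open K8 K8.L9

theorem q353 : twoG oneJ 705 724 = true := by decide +kernel

theorem r705 : I.C.oneB (reE 705) = true := two_l 705 724 q353

theorem r724 : I.C.oneB (reE 724) = true := two_r 705 724 q353

end Pool.Agent.Lib.MP_afdd4d_co.K10.LR
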