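import Pool.Agent.Lib.MP_afdd4d_co.K10.LR.R322

/-!
# The rows of the links, part 354
-/

namespace Pool.Agent.Lib.MP_afdd4d_co.K10.LR

open K8 K8.L9

theorem q354 : twoG oneJ 706 725 = true := by decide +kernel

theorem r706 : I.C.oneB (reE 706) = true := two_l 706 725 q354

theorem r725 : I.C.oneB (reE 725) = true := two_r 706 725 q354

end Pool.Agent.Lib.MP_afdd4d_co.K10.LR
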