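import Pool.Agent.Lib.MP_afdd4d_co.K10.LR.R323

/-!
# The rows of the links, part 355
-/

namespace Pool.Agent.Lib.MP_afdd4d_co.K10.LR

open K8 K8.L9

theorem q355 : twoG oneJ 707 728 = true := by decide +kernel

theorem r707 : I.C.oneB (reE 707) = true := two_l 707 728 q355

theorem r728 : I.C.oneB (reE 728) = true := two_r 707 728 q355

end Pool.Agent.Lib.MP_afdd4d_co.K10.LR
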