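import Pool.Agent.Lib.MP_afdd4d_co.K10.LR.R324

/-!
# The rows of the links, part 356
-/

namespace Pool.Agent.Lib.MP_afdd4d_co.K10.LR

open K8 K8.L9

theorem q356 : twoG oneJ 708 727 = true := by decide +kernel

theorem r708 : I.C.oneB (reE 708) = true := two_l 708 727 q356

theorem r727 : I.C.oneB (reE 727) = true := two_r 708 727 q356

end Pool.Agent.Lib.MP_afdd4d_co.K10.LR
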