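import Pool.Agent.Lib.MP_afdd4d_co.K10.LR.R325

/-!
# The rows of the links, part 357
-/

namespace Pool.Agent.Lib.MP_afdd4d_co.K10.LR

open K8 K8.L9

theorem q357 : twoG oneJ 709 721 = true := by decide +kernel

theorem r709 : I.C.oneB (reE 709) = true := two_l 709 721 q357

theorem r721 : I.C.oneB (reE 721) = true := two_r 709 721 q357

end Pool.Agent.Lib.MP_afdd4d_co.K10.LR
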