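import Pool.Agent.Lib.MP_afdd4d_co.K10.LR.R326

/-!
# The rows of the links, part 358
-/

namespace Pool.Agent.Lib.MP_afdd4d_co.K10.LR

open K8 K8.L9

theorem q358 : twoG oneJ 710 729 = true := by decide +kernel

theorem r710 : I.C.oneB (reE 710) = true := two_l 710 729 q358

theorem r729 : I.C.oneB (reE 729) = true := two_r 710 729 q358

end Pool.Agent.Lib.MP_afdd4d_co.K10.LR
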