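import Pool.Agent.Lib.MP_afdd4d_co.K10.LR.R327

/-!
# The rows of the links, part 359
-/

namespace Pool.Agent.Lib.MP_afdd4d_co.K10.LR

open K8 K8.L9

theorem q359 : twoG oneJ 711 730 = true := by decide +kernel

theorem r711 : I.C.oneB (reE 711) = true := two_l 711 730 q359

theorem r730 : I.C.oneB (reE 730) = true := two_r 711 730 q359

end Pool.Agent.Lib.MP_afdd4d_co.K10.LR
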