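import Pool.Agent.Lib.MP_afdd4d_co.K10.LR.R328

/-!
# The rows of the links, part 360
-/

namespace Pool.Agent.Lib.MP_afdd4d_co.K10.LR

open K8 K8.L9

theorem q360 : twoG oneJ 712 745 = true := by decide +kernel

theorem r712 : I.C.oneB (reE 712) = true := two_l 712 745 q360

theorem r745 : I.C.oneB (reE 745) = true := two_r 712 745 q360

end Pool.Agent.Lib.MP_afdd4d_co.K10.LR
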