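import Pool.Agent.Lib.MP_afdd4d_co.K10.LR.R329

/-!
# The rows of the links, part 361
-/

namespace Pool.Agent.Lib.MP_afdd4d_co.K10.LR

open K8 K8.L9

theorem q361 : twoG oneJ 713 726 = true := by decide +kernel

theorem r713 : I.C.oneB (reE 713) = true := two_l 713 726 q361

theorem r726 : I.C.oneB (reE 726) = true := two_r 713 726 q361

end Pool.Agent.Lib.MP_afdd4d_co.K10.LR
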