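import Pool.Agent.Lib.MP_afdd4d_co.K10.LR.R331

/-!
# The rows of the links, part 363
-/

namespace Pool.Agent.Lib.MP_afdd4d_co.K10.LR

open K8 K8.L9

theorem q363 : twoG oneJ 715 755 = true := by decide +kernel

theorem r715 : I.C.oneB (reE 715) = true := two_l 715 755 q363

theorem r755 : I.C.oneB (reE 755) = true := two_r 715 755 q363

end Pool.Agent.Lib.MP_afdd4d_co.K10.LR
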