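import Pool.Agent.Lib.MP_afdd4d_co.K10.LR.R332

/-!
# The rows of the links, part 364
-/

namespace Pool.Agent.Lib.MP_afdd4d_co.K10.LR

open K8 K8.L9

theorem q364 : twoG oneJ 716 723 = true := by decide +kernel

theorem r716 : I.C.oneB (reE 716) = true := two_l 716 723 q364

theorem r723 : I.C.oneB (reE 723) = true := two_r 716 723 q364

end Pool.Agent.Lib.MP_afdd4d_co.K10.LR
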