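import Pool.Agent.Lib.MP_afdd4d_co.K10.LR.R333

/-!
# The rows of the links, part 365
-/

namespace Pool.Agent.Lib.MP_afdd4d_co.K10.LR

open K8 K8.L9

theorem q365 : twoG oneJ 717 733 = true := by decide +kernel

theorem r717 : I.C.oneB (reE 717) = true := two_l 717 733 q365

theorem r733 : I.C.oneB (reE 733) = true := two_r 717 733 q365

end Pool.Agent.Lib.MP_afdd4d_co.K10.LR
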