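import Pool.Agent.Lib.MP_afdd4d_co.K10.LR.R334

/-!
# The rows of the links, part 366
-/

namespace Pool.Agent.Lib.MP_afdd4d_co.K10.LR

open K8 K8.L9

theorem q366 : twoG oneJ 718 758 = true := by decide +kernel

theorem r718 : I.C.oneB (reE 718) = true := two_l 718 758 q366

theorem r758 : I.C.oneB (reE 758) = true := two_r 718 758 q366

end Pool.Agent.Lib.MP_afdd4d_co.K10.LR
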