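import Pool.Agent.Lib.MP_afdd4d_co.K10.LR.R335

/-!
# The rows of the links, part 367
-/

namespace Pool.Agent.Lib.MP_afdd4d_co.K10.LR

open K8 K8.L9

theorem q367 : twoG oneJ 719 720 = true := by decide +kernel

theorem r719 : I.C.oneB (reE 719) = true := two_l 719 720 q367

theorem r720 : I.C.oneB (reE 720) = true := two_r 719 720 q367

end Pool.Agent.Lib.MP_afdd4d_co.K10.LR
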