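import Pool.Agent.Lib.MP_afdd4d_co.K10.LR.R336

/-!
# The rows of the links, part 368
-/

namespace Pool.Agent.Lib.MP_afdd4d_co.K10.LR

open K8 K8.L9

theorem q368 : twoG oneJ 731 732 = true := by decide +kernel

theorem r731 : I.C.oneB (reE 731) = true := two_l 731 732 q368

theorem r732 : I.C.oneB (reE 732) = true := two_r 731 732 q368

end Pool.Agent.Lib.MP_afdd4d_co.K10.LR
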