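import Pool.Agent.Lib.MP_afdd4d_co.K10.LR.R337

/-!
# The rows of the links, part 369
-/

namespace Pool.Agent.Lib.MP_afdd4d_co.K10.LR

open K8 K8.L9

theorem q369 : twoG oneJ 734 753 = true := by decide +kernel

theorem r734 : I.C.oneB (reE 734) = true := two_l 734 753 q369

theorem r753 : I.C.oneB (reE 753) = true := two_r 734 753 q369

end Pool.Agent.Lib.MP_afdd4d_co.K10.LR
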