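import Pool.Agent.Lib.MP_afdd4d_co.K10.LR.R338

/-!
# The rows of the links, part 370
-/

namespace Pool.Agent.Lib.MP_afdd4d_co.K10.LR

open K8 K8.L9

theorem q370 : twoG oneJ 735 740 = true := by decide +kernel

theorem r735 : I.C.oneB (reE 735) = true := two_l 735 740 q370

theorem r740 : I.C.oneB (reE 740) = true := two_r 735 740 q370

end Pool.Agent.Lib.MP_afdd4d_co.K10.LR
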