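import Pool.Agent.Lib.MP_afdd4d_co.K10.LR.R339

/-!
# The rows of the links, part 371
-/

namespace Pool.Agent.Lib.MP_afdd4d_co.K10.LR

open K8 K8.L9

theorem q371 : twoG oneJ 736 741 = true := by decide +kernel

theorem r736 : I.C.oneB (reE 736) = true := two_l 736 741 q371

theorem r741 : I.C.oneB (reE 741) = true := two_r 736 741 q371

end Pool.Agent.Lib.MP_afdd4d_co.K10.LR
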