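import Pool.Agent.Lib.MP_afdd4d_co.K10.LR.R340

/-!
# The rows of the links, part 372
-/

namespace Pool.Agent.Lib.MP_afdd4d_co.K10.LR

open K8 K8.L9

theorem q372 : twoG oneJ 737 742 = true := by decide +kernel

theorem r737 : I.C.oneB (reE 737) = true := two_l 737 742 q372

theorem r742 : I.C.oneB (reE 742) = true := two_r 737 742 q372

end Pool.Agent.Lib.MP_afdd4d_co.K10.LR
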