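import Pool.Agent.Lib.MP_afdd4d_co.K10.LR.R342

/-!
# The rows of the links, part 374
-/

namespace Pool.Agent.Lib.MP_afdd4d_co.K10.LR

open K8 K8.L9

theorem q374 : twoG oneJ 743 760 = true := by decide +kernel

theorem r743 : I.C.oneB (reE 743) = true := two_l 743 760 q374

theorem r760 : I.C.oneB (reE 760) = true := two_r 743 760 q374

end Pool.Agent.Lib.MP_afdd4d_co.K10.LR
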