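import Pool.Agent.Lib.MP_afdd4d_co.K10.LR.R343

/-!
# The rows of the links, part 375
-/

namespace Pool.Agent.Lib.MP_afdd4d_co.K10.LR

open K8 K8.L9

theorem q375 : twoG oneJ 744 763 = true := by decide +kernel

theorem r744 : I.C.oneB (reE 744) = true := two_l 744 763 q375

theorem r763 : I.C.oneB (reE 763) = true := two_r 744 763 q375

end Pool.Agent.Lib.MP_afdd4d_co.K10.LR
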