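import Pool.Agent.Lib.MP_afdd4d_co.K10.LR.R344

/-!
# The rows of the links, part 376
-/

namespace Pool.Agent.Lib.MP_afdd4d_co.K10.LR

open K8 K8.L9

theorem q376 : twoG oneJ 746 747 = true := by decide +kernel

theorem r746 : I.C.oneB (reE 746) = true := two_l 746 747 q376

theorem r747 : I.C.oneB (reE 747) = true := two_r 746 747 q376

end Pool.Agent.Lib.MP_afdd4d_co.K10.LR
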