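import Pool.Agent.Lib.MP_afdd4d_co.K10.LR.R345

/-!
# The rows of the links, part 377
-/

namespace Pool.Agent.Lib.MP_afdd4d_co.K10.LR

open K8 K8.L9

theorem q377 : twoG oneJ 748 749 = true := by decide +kernel

theorem r748 : I.C.oneB (reE 748) = true := two_l 748 749 q377

theorem r749 : I.C.oneB (reE 749) = true := two_r 748 749 q377

end Pool.Agent.Lib.MP_afdd4d_co.K10.LR
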