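import Pool.Agent.Lib.MP_afdd4d_co.K10.LR.R346

/-!
# The rows of the links, part 378
-/

namespace Pool.Agent.Lib.MP_afdd4d_co.K10.LR

open K8 K8.L9

theorem q378 : twoG oneJ 750 752 = true := by decide +kernel

theorem r750 : I.C.oneB (reE 750) = true := two_l 750 752 q378

theorem r752 : I.C.oneB (reE 752) = true := two_r 750 752 q378

end Pool.Agent.Lib.MP_afdd4d_co.K10.LR
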