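import Pool.Agent.Lib.MP_afdd4d_co.K10.LR.R347

/-!
# The rows of the links, part 379
-/

namespace Pool.Agent.Lib.MP_afdd4d_co.K10.LR

open K8 K8.L9

theorem q379 : twoG oneJ 754 756 = true := by decide +kernel

theorem r754 : I.C.oneB (reE 754) = true := two_l 754 756 q379

theorem r756 : I.C.oneB (reE 756) = true := two_r 754 756 q379

end Pool.Agent.Lib.MP_afdd4d_co.K10.LR
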