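import Pool.Agent.Lib.MP_afdd4d_co.K10.LR.R348

/-!
# The rows of the links, part 380
-/

namespace Pool.Agent.Lib.MP_afdd4d_co.K10.LR

open K8 K8.L9

theorem q380 : twoG oneJ 757 766 = true := by decide +kernel

theorem r757 : I.C.oneB (reE 757) = true := two_l 757 766 q380

theorem r766 : I.C.oneB (reE 766) = true := two_r 757 766 q380

end Pool.Agent.Lib.MP_afdd4d_co.K10.LR
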