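import Pool.Agent.Lib.MP_afdd4d_co.K10.LR.R349

/-!
# The rows of the links, part 381
-/

namespace Pool.Agent.Lib.MP_afdd4d_co.K10.LR

open K8 K8.L9

theorem q381 : twoG oneJ 759 762 = true := by decide +kernel

theorem r759 : I.C.oneB (reE 759) = true := two_l 759 762 q381

theorem r762 : I.C.oneB (reE 762) = true := two_r 759 762 q381

end Pool.Agent.Lib.MP_afdd4d_co.K10.LR
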