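import Pool.Agent.Lib.MP_afdd4d_co.K10.LR.R350

/-!
# The rows of the links, part 382
-/

namespace Pool.Agent.Lib.MP_afdd4d_co.K10.LR

open K8 K8.L9

theorem q382 : twoG oneJ 761 765 = true := by decide +kernel

theorem r761 : I.C.oneB (reE 761) = true := two_l 761 765 q382

theorem r765 : I.C.oneB (reE 765) = true := two_r 761 765 q382

end Pool.Agent.Lib.MP_afdd4d_co.K10.LR
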