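import Pool.Agent.Lib.MP_afdd4d_co.K10.LR.R351

/-!
# The rows of the links, part 383
-/

namespace Pool.Agent.Lib.MP_afdd4d_co.K10.LR

open K8 K8.L9

theorem q383 : twoG oneJ 764 767 = true := by decide +kernel

theorem r764 : I.C.oneB (reE 764) = true := two_l 764 767 q383

theorem r767 : I.C.oneB (reE 767) = true := two_r 764 767 q383

end Pool.Agent.Lib.MP_afdd4d_co.K10.LR
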