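import Pool.Agent.Lib.MP_afdd4d_co.K10.LR.R352
import Pool.Agent.Lib.MP_afdd4d_co.K10.LR.R353
import Pool.Agent.Lib.MP_afdd4d_co.K10.LR.R354
import Pool.Agent.Lib.MP_afdd4d_co.K10.LR.R355
import Pool.Agent.Lib.MP_afdd4d_co.K10.LR.R356
import Pool.Agent.Lib.MP_afdd4d_co.K10.LR.R357
import Pool.Agent.Lib.MP_afdd4d_co.K10.LR.R358
import Pool.Agent.Lib.MP_afdd4d_co.K10.LR.R359
import Pool.Agent.Lib.MP_afdd4d_co.K10.LR.R360
import Pool.Agent.Lib.MP_afdd4d_co.K10.LR.R361
import Pool.Agent.Lib.MP_afdd4d_co.K10.LR.R362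
import Pool.Agent.Lib.MP_afdd4d_co.K10.LR.R363
import Pool.Agent.Lib.MP_afdd4d_co.K10.LR.R364
import Pool.Agent.Lib.MP_afdd4d_co.K10.LR.R365
import Pool.Agent.Lib.MP_afdd4d_co.K10.LR.R366
import Pool.Agent.Lib.MP_afdd4d_co.K10.LR.R367
import Pool.Agent.Lib.MP_afdd4d_co.K10.LR.R368
import Pool.Agent.Lib.MP_afdd4d_co.K10.LR.R369
import Pool.Agent.Lib.MP_afdd4d_co.K10.LR.R370
import Pool.Agent.Lib.MP_afdd4d_co.K10.LR.R371
import Pool.Agent.Lib.MP_afdd4d_co.K10.LR.R372
import Pool.Agent.Lib.MP_afdd4d_co.K10.LR.R373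
import Pool.Agent.Lib.MP_afdd4d_co.K10.LR.R374
import Pool.Agent.Lib.MP_afdd4d_co.K10.LR.R375
import Pool.Agent.Lib.MP_afdd4d_co.K10.LR.R376
import Pool.Agent.Lib.MP_afdd4d_co.K10.LR.R377
import Pool.Agent.Lib.MP_afdd4d_co.K10.LR.R378
import Pool.Agent.Lib.MP_afdd4d_co.K10.LR.R379
import Pool.Agent.Lib.MP_afdd4d_co.K10.LR.R380
import Pool.Agent.Lib.MP_afdd4d_co.K10.LR.R381
import Pool.Agent.Lib.MP_afdd4d_co.K10.LR.R382
import Pool.Agent.Lib.MP_afdd4d_co.K10.LR.R383

/-!
# The rows of the links, group 11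
-/

namespace Pool.Agent.Lib.MP_afdd4d_co.K10.LR

open K8 K8.L9

theorem j11 : ∀ j, 704 ≤ j → j < 768 → I.C.oneB (reE j) = true := by
  intro j h1 h2
  interval_cases j
  · exact r704
  · exact r705
  · exact r706
  · exact r707
  · exact r708
  · exact r709
  · exact r710
  · exact r711
  · exact r712
  · exact r713
  · exact r714
  · exact r715
  · exact r716
  · exact r717
  · exact r718
  · exact r719
  · exact r720
  · exact r721
  · exact r722
  · exact r723
  · exact r724
  · exact r725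
  · exact r726
  · exact r727
  · exact r728
  · exact r729
  · exact r730
  · exact r731
  · exact r732
  · exact r733
  · exact r734
  · exact r735
  · exact r736
  · exact r737
  · exact r738
  · exact r739
  · exact r740
  · exact r741
  · exact r742
  · exact r743
  · exact r744
  · exact r745
  · exact r746
  · exact r747
  · exact r748
  · exact r749
  · exact r750
  · exact r751
  · exact r752
  · exact r753
  · exact r754
  · exact r755
  · exact r756
  · exact r757
  · exact r758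
  · exact r759
  · exact r760
  · exact r761
  · exact r762
  · exact r763
  · exact r764
  · exact r765
  · exact r766
  · exact r767

end Pool.Agent.Lib.MP_afdd4d_co.K10.LR
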