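import Pool.Agent.Lib.MP_afdd4d_co.K10.LR.R353

/-!
# The rows of the links, part 385
-/

namespace Pool.Agent.Lib.MP_afdd4d_co.K10.LR

open K8 K8.L9

theorem q385 : twoG oneJ 769 823 = true := by decide +kernel

theorem r769 : I.C.oneB (reE 769) = true := two_l 769 823 q385

theorem r823 : I.C.oneB (reE 823) = true := two_r 769 823 q385

end Pool.Agent.Lib.MP_afdd4d_co.K10.LR
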