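import Pool.Agent.Lib.MP_afdd4d_co.K10.LR.R354

/-!
# The rows of the links, part 386
-/

namespace Pool.Agent.Lib.MP_afdd4d_co.K10.LR

open K8 K8.L9

theorem q386 : twoG oneJ 770 796 = true := by decide +kernel

theorem r770 : I.C.oneB (reE 770) = true := two_l 770 796 q386

theorem r796 : I.C.oneB (reE 796) = true := two_r 770 796 q386

end Pool.Agent.Lib.MP_afdd4d_co.K10.LR
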