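import Pool.Agent.Lib.MP_afdd4d_co.K10.LR.R355

/-!
# The rows of the links, part 387
-/

namespace Pool.Agent.Lib.MP_afdd4d_co.K10.LR

open K8 K8.L9

theorem q387 : twoG oneJ 771 773 = true := by decide +kernel

theorem r771 : I.C.oneB (reE 771) = true := two_l 771 773 q387

theorem r773 : I.C.oneB (reE 773) = true := two_r 771 773 q387

end Pool.Agent.Lib.MP_afdd4d_co.K10.LR
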