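import Pool.Agent.Lib.MP_afdd4d_co.K10.LR.R356

/-!
# The rows of the links, part 388
-/

namespace Pool.Agent.Lib.MP_afdd4d_co.K10.LR

open K8 K8.L9

theorem q388 : twoG oneJ 772 829 = true := by decide +kernel

theorem r772 : I.C.oneB (reE 772) = true := two_l 772 829 q388

theorem r829 : I.C.oneB (reE 829) = true := two_r 772 829 q388

end Pool.Agent.Lib.MP_afdd4d_co.K10.LR
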