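import Pool.Agent.Lib.MP_afdd4d_co.K10.LR.R357

/-!
# The rows of the links, part 389
-/

namespace Pool.Agent.Lib.MP_afdd4d_co.K10.LR

open K8 K8.L9

theorem q389 : twoG oneJ 774 776 = true := by decide +kernel

theorem r774 : I.C.oneB (reE 774) = true := two_l 774 776 q389

theorem r776 : I.C.oneB (reE 776) = true := two_r 774 776 q389

end Pool.Agent.Lib.MP_afdd4d_co.K10.LR
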