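import Pool.Agent.Lib.MP_afdd4d_co.K10.LR.R358

/-!
# The rows of the links, part 390
-/

namespace Pool.Agent.Lib.MP_afdd4d_co.K10.LR

open K8 K8.L9

theorem q390 : twoG oneJ 777 806 = true := by decide +kernel

theorem r777 : I.C.oneB (reE 777) = true := two_l 777 806 q390

theorem r806 : I.C.oneB (reE 806) = true := two_r 777 806 q390

end Pool.Agent.Lib.MP_afdd4d_co.K10.LR
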