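import Pool.Agent.Lib.MP_afdd4d_co.K10.LR.R359

/-!
# The rows of the links, part 391
-/

namespace Pool.Agent.Lib.MP_afdd4d_co.K10.LR

open K8 K8.L9

theorem q391 : twoG oneJ 778 782 = true := by decide +kernel

theorem r778 : I.C.oneB (reE 778) = true := two_l 778 782 q391

theorem r782 : I.C.oneB (reE 782) = true := two_r 778 782 q391

end Pool.Agent.Lib.MP_afdd4d_co.K10.LR
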