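import Pool.Agent.Lib.MP_afdd4d_co.K10.LR.R360

/-!
# The rows of the links, part 392
-/

namespace Pool.Agent.Lib.MP_afdd4d_co.K10.LR

open K8 K8.L9

theorem q392 : twoG oneJ 779 787 = true := by decide +kernel

theorem r779 : I.C.oneB (reE 779) = true := two_l 779 787 q392

theorem r787 : I.C.oneB (reE 787) = true := two_r 779 787 q392

end Pool.Agent.Lib.MP_afdd4d_co.K10.LR
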