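import Pool.Agent.Lib.MP_afdd4d_co.K10.LR.R361

/-!
# The rows of the links, part 393
-/

namespace Pool.Agent.Lib.MP_afdd4d_co.K10.LR

open K8 K8.L9

theorem q393 : twoG oneJ 780 788 = true := by decide +kernel

theorem r780 : I.C.oneB (reE 780) = true := two_l 780 788 q393

theorem r788 : I.C.oneB (reE 788) = true := two_r 780 788 q393

end Pool.Agent.Lib.MP_afdd4d_co.K10.LR
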