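import Pool.Agent.Lib.MP_afdd4d_co.K10.LR.R363

/-!
# The rows of the links, part 395
-/

namespace Pool.Agent.Lib.MP_afdd4d_co.K10.LR

open K8 K8.L9

theorem q395 : twoG oneJ 783 825 = true := by decide +kernel

theorem r783 : I.C.oneB (reE 783) = true := two_l 783 825 q395

theorem r825 : I.C.oneB (reE 825) = true := two_r 783 825 q395

end Pool.Agent.Lib.MP_afdd4d_co.K10.LR
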