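import Pool.Agent.Lib.MP_afdd4d_co.K10.LR.R364

/-!
# The rows of the links, part 396
-/

namespace Pool.Agent.Lib.MP_afdd4d_co.K10.LR

open K8 K8.L9

theorem q396 : twoG oneJ 784 785 = true := by decide +kernel

theorem r784 : I.C.oneB (reE 784) = true := two_l 784 785 q396

theorem r785 : I.C.oneB (reE 785) = true := two_r 784 785 q396

end Pool.Agent.Lib.MP_afdd4d_co.K10.LR
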