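import Pool.Agent.Lib.MP_afdd4d_co.K10.LR.R365

/-!
# The rows of the links, part 397
-/

namespace Pool.Agent.Lib.MP_afdd4d_co.K10.LR

open K8 K8.L9

theorem q397 : twoG oneJ 786 808 = true := by decide +kernel

theorem r786 : I.C.oneB (reE 786) = true := two_l 786 808 q397

theorem r808 : I.C.oneB (reE 808) = true := two_r 786 808 q397

end Pool.Agent.Lib.MP_afdd4d_co.K10.LR
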