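import Pool.Agent.Lib.MP_afdd4d_co.K10.LR.R366

/-!
# The rows of the links, part 398
-/

namespace Pool.Agent.Lib.MP_afdd4d_co.K10.LR

open K8 K8.L9

theorem q398 : twoG oneJ 789 809 = true := by decide +kernel

theorem r789 : I.C.oneB (reE 789) = true := two_l 789 809 q398

theorem r809 : I.C.oneB (reE 809) = true := two_r 789 809 q398

end Pool.Agent.Lib.MP_afdd4d_co.K10.LR
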