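import Pool.Agent.Lib.MP_afdd4d_co.K10.LR.R367

/-!
# The rows of the links, part 399
-/

namespace Pool.Agent.Lib.MP_afdd4d_co.K10.LR

open K8 K8.L9

theorem q399 : twoG oneJ 790 792 = true := by decide +kernel

theorem r790 : I.C.oneB (reE 790) = true := two_l 790 792 q399

theorem r792 : I.C.oneB (reE 792) = true := two_r 790 792 q399

end Pool.Agent.Lib.MP_afdd4d_co.K10.LR
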