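import Pool.Agent.Lib.MP_afdd4d_co.K10.LR.R368

/-!
# The rows of the links, part 400
-/

namespace Pool.Agent.Lib.MP_afdd4d_co.K10.LR

open K8 K8.L9

theorem q400 : twoG oneJ 791 793 = true := by decide +kernel

theorem r791 : I.C.oneB (reE 791) = true := two_l 791 793 q400

theorem r793 : I.C.oneB (reE 793) = true := two_r 791 793 q400

end Pool.Agent.Lib.MP_afdd4d_co.K10.LR
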