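import Pool.Agent.Lib.MP_afdd4d_co.K10.LR.R369

/-!
# The rows of the links, part 401
-/

namespace Pool.Agent.Lib.MP_afdd4d_co.K10.LR

open K8 K8.L9

theorem q401 : twoG oneJ 794 822 = true := by decide +kernel

theorem r794 : I.C.oneB (reE 794) = true := two_l 794 822 q401

theorem r822 : I.C.oneB (reE 822) = true := two_r 794 822 q401

end Pool.Agent.Lib.MP_afdd4d_co.K10.LR
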