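import Pool.Agent.Lib.MP_afdd4d_co.K10.LR.R370

/-!
# The rows of the links, part 402
-/

namespace Pool.Agent.Lib.MP_afdd4d_co.K10.LR

open K8 K8.L9

theorem q402 : twoG oneJ 795 814 = true := by decide +kernel

theorem r795 : I.C.oneB (reE 795) = true := two_l 795 814 q402

theorem r814 : I.C.oneB (reE 814) = true := two_r 795 814 q402

end Pool.Agent.Lib.MP_afdd4d_co.K10.LR
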