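import Pool.Agent.Lib.MP_afdd4d_co.K10.LR.R371

/-!
# The rows of the links, part 403
-/

namespace Pool.Agent.Lib.MP_afdd4d_co.K10.LR

open K8 K8.L9

theorem q403 : twoG oneJ 797 813 = true := by decide +kernel

theorem r797 : I.C.oneB (reE 797) = true := two_l 797 813 q403

theorem r813 : I.C.oneB (reE 813) = true := two_r 797 813 q403

end Pool.Agent.Lib.MP_afdd4d_co.K10.LR
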