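import Pool.Agent.Lib.MP_afdd4d_co.K10.LR.R372

/-!
# The rows of the links, part 404
-/

namespace Pool.Agent.Lib.MP_afdd4d_co.K10.LR

open K8 K8.L9

theorem q404 : twoG oneJ 798 803 = true := by decide +kernel

theorem r798 : I.C.oneB (reE 798) = true := two_l 798 803 q404

theorem r803 : I.C.oneB (reE 803) = true := two_r 798 803 q404

end Pool.Agent.Lib.MP_afdd4d_co.K10.LR
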