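import Pool.Agent.Lib.MP_afdd4d_co.K10.LR.R374

/-!
# The rows of the links, part 406
-/

namespace Pool.Agent.Lib.MP_afdd4d_co.K10.LR

open K8 K8.L9

theorem q406 : twoG oneJ 800 815 = true := by decide +kernel

theorem r800 : I.C.oneB (reE 800) = true := two_l 800 815 q406

theorem r815 : I.C.oneB (reE 815) = true := two_r 800 815 q406

end Pool.Agent.Lib.MP_afdd4d_co.K10.LR
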