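import Pool.Agent.Lib.MP_afdd4d_co.K10.LR.R375

/-!
# The rows of the links, part 407
-/

namespace Pool.Agent.Lib.MP_afdd4d_co.K10.LR

open K8 K8.L9

theorem q407 : twoG oneJ 801 817 = true := by decide +kernel

theorem r801 : I.C.oneB (reE 801) = true := two_l 801 817 q407

theorem r817 : I.C.oneB (reE 817) = true := two_r 801 817 q407

end Pool.Agent.Lib.MP_afdd4d_co.K10.LR
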