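import Pool.Agent.Lib.MP_afdd4d_co.K10.LR.R376

/-!
# The rows of the links, part 408
-/

namespace Pool.Agent.Lib.MP_afdd4d_co.K10.LR

open K8 K8.L9

theorem q408 : twoG oneJ 802 819 = true := by decide +kernel

theorem r802 : I.C.oneB (reE 802) = true := two_l 802 819 q408

theorem r819 : I.C.oneB (reE 819) = true := two_r 802 819 q408

end Pool.Agent.Lib.MP_afdd4d_co.K10.LR
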