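import Pool.Agent.Lib.MP_afdd4d_co.K10.LR.R377

/-!
# The rows of the links, part 409
-/

namespace Pool.Agent.Lib.MP_afdd4d_co.K10.LR

open K8 K8.L9

theorem q409 : twoG oneJ 804 816 = true := by decide +kernel

theorem r804 : I.C.oneB (reE 804) = true := two_l 804 816 q409

theorem r816 : I.C.oneB (reE 816) = true := two_r 804 816 q409

end Pool.Agent.Lib.MP_afdd4d_co.K10.LR
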