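import Pool.Agent.Lib.MP_afdd4d_co.K10.LR.R378

/-!
# The rows of the links, part 410
-/

namespace Pool.Agent.Lib.MP_afdd4d_co.K10.LR

open K8 K8.L9

theorem q410 : twoG oneJ 807 826 = true := by decide +kernel

theorem r807 : I.C.oneB (reE 807) = true := two_l 807 826 q410

theorem r826 : I.C.oneB (reE 826) = true := two_r 807 826 q410

end Pool.Agent.Lib.MP_afdd4d_co.K10.LR
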