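import Pool.Agent.Lib.MP_afdd4d_co.K10.LR.R379

/-!
# The rows of the links, part 411
-/

namespace Pool.Agent.Lib.MP_afdd4d_co.K10.LR

open K8 K8.L9

theorem q411 : twoG oneJ 810 824 = true := by decide +kernel

theorem r810 : I.C.oneB (reE 810) = true := two_l 810 824 q411

theorem r824 : I.C.oneB (reE 824) = true := two_r 810 824 q411

end Pool.Agent.Lib.MP_afdd4d_co.K10.LR
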