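import Pool.Agent.Lib.MP_afdd4d_co.K10.LR.R380

/-!
# The rows of the links, part 412
-/

namespace Pool.Agent.Lib.MP_afdd4d_co.K10.LR

open K8 K8.L9

theorem q412 : twoG oneJ 811 827 = true := by decide +kernel

theorem r811 : I.C.oneB (reE 811) = true := two_l 811 827 q412

theorem r827 : I.C.oneB (reE 827) = true := two_r 811 827 q412

end Pool.Agent.Lib.MP_afdd4d_co.K10.LR
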