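import Pool.Agent.Lib.MP_afdd4d_co.K10.LR.R381

/-!
# The rows of the links, part 413
-/

namespace Pool.Agent.Lib.MP_afdd4d_co.K10.LR

open K8 K8.L9

theorem q413 : twoG oneJ 812 828 = true := by decide +kernel

theorem r812 : I.C.oneB (reE 812) = true := two_l 812 828 q413

theorem r828 : I.C.oneB (reE 828) = true := two_r 812 828 q413

end Pool.Agent.Lib.MP_afdd4d_co.K10.LR
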