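import Pool.Agent.Lib.MP_afdd4d_co.K10.LR.R382

/-!
# The rows of the links, part 414
-/

namespace Pool.Agent.Lib.MP_afdd4d_co.K10.LR

open K8 K8.L9

theorem q414 : twoG oneJ 820 821 = true := by decide +kernel

theorem r820 : I.C.oneB (reE 820) = true := two_l 820 821 q414

theorem r821 : I.C.oneB (reE 821) = true := two_r 820 821 q414

end Pool.Agent.Lib.MP_afdd4d_co.K10.LR
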