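import Pool.Agent.Lib.MP_afdd4d_co.K10.LR.R383

/-!
# The rows of the links, part 415
-/

namespace Pool.Agent.Lib.MP_afdd4d_co.K10.LR

open K8 K8.L9

theorem q415 : twoG oneJ 830 831 = true := by decide +kernel

theorem r830 : I.C.oneB (reE 830) = true := two_l 830 831 q415

theorem r831 : I.C.oneB (reE 831) = true := two_r 830 831 q415

end Pool.Agent.Lib.MP_afdd4d_co.K10.LR
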