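import Pool.Agent.Lib.MP_afdd4d_co.K10.LR.R384
import Pool.Agent.Lib.MP_afdd4d_co.K10.LR.R385
import Pool.Agent.Lib.MP_afdd4d_co.K10.LR.R386
import Pool.Agent.Lib.MP_afdd4d_co.K10.LR.R387
import Pool.Agent.Lib.MP_afdd4d_co.K10.LR.R388
import Pool.Agent.Lib.MP_afdd4d_co.K10.LR.R389
import Pool.Agent.Lib.MP_afdd4d_co.K10.LR.R390
import Pool.Agent.Lib.MP_afdd4d_co.K10.LR.R391
import Pool.Agent.Lib.MP_afdd4d_co.K10.LR.R392
import Pool.Agent.Lib.MP_afdd4d_co.K10.LR.R393
import Pool.Agent.Lib.MP_afdd4d_co.K10.LR.R394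
import Pool.Agent.Lib.MP_afdd4d_co.K10.LR.R395
import Pool.Agent.Lib.MP_afdd4d_co.K10.LR.R396
import Pool.Agent.Lib.MP_afdd4d_co.K10.LR.R397
import Pool.Agent.Lib.MP_afdd4d_co.K10.LR.R398
import Pool.Agent.Lib.MP_afdd4d_co.K10.LR.R399
import Pool.Agent.Lib.MP_afdd4d_co.K10.LR.R400
import Pool.Agent.Lib.MP_afdd4d_co.K10.LR.R401
import Pool.Agent.Lib.MP_afdd4d_co.K10.LR.R402
import Pool.Agent.Lib.MP_afdd4d_co.K10.LR.R403
import Pool.Agent.Lib.MP_afdd4d_co.K10.LR.R404
import Pool.Agent.Lib.MP_afdd4d_co.K10.LR.R405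
import Pool.Agent.Lib.MP_afdd4d_co.K10.LR.R406
import Pool.Agent.Lib.MP_afdd4d_co.K10.LR.R407
import Pool.Agent.Lib.MP_afdd4d_co.K10.LR.R408
import Pool.Agent.Lib.MP_afdd4d_co.K10.LR.R409
import Pool.Agent.Lib.MP_afdd4d_co.K10.LR.R410
import Pool.Agent.Lib.MP_afdd4d_co.K10.LR.R411
import Pool.Agent.Lib.MP_afdd4d_co.K10.LR.R412
import Pool.Agent.Lib.MP_afdd4d_co.K10.LR.R413
import Pool.Agent.Lib.MP_afdd4d_co.K10.LR.R414
import Pool.Agent.Lib.MP_afdd4d_co.K10.LR.R415

/-!
# The rows of the links, group 12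
-/

namespace Pool.Agent.Lib.MP_afdd4d_co.K10.LR

open K8 K8.L9

theorem j12 : ∀ j, 768 ≤ j → j < 832 → I.C.oneB (reE j) = true := by
  intro j h1 h2
  interval_cases j
  · exact r768
  · exact r769
  · exact r770
  · exact r771
  · exact r772
  · exact r773
  · exact r774
  · exact r775
  · exact r776
  · exact r777
  · exact r778
  · exact r779
  · exact r780
  · exact r781
  · exact r782
  · exact r783
  · exact r784
  · exact r785
  · exact r786
  · exact r787
  · exact r788
  · exact r789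
  · exact r790
  · exact r791
  · exact r792
  · exact r793
  · exact r794
  · exact r795
  · exact r796
  · exact r797
  · exact r798
  · exact r799
  · exact r800
  · exact r801
  · exact r802
  · exact r803
  · exact r804
  · exact r805
  · exact r806
  · exact r807
  · exact r808
  · exact r809
  · exact r810
  · exact r811
  · exact r812
  · exact r813
  · exact r814
  · exact r815
  · exact r816
  · exact r817
  · exact r818
  · exact r819
  · exact r820
  · exact r821
  · exact r822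
  · exact r823
  · exact r824
  · exact r825
  · exact r826
  · exact r827
  · exact r828
  · exact r829
  · exact r830
  · exact r831

end Pool.Agent.Lib.MP_afdd4d_co.K10.LR
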