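import Pool.Agent.Lib.MP_afdd4d_co.K10.LR.R385

/-!
# The rows of the links, part 417
-/

namespace Pool.Agent.Lib.MP_afdd4d_co.K10.LR

open K8 K8.L9

theorem q417 : twoG oneJ 834 881 = true := by decide +kernel

theorem r834 : I.C.oneB (reE 834) = true := two_l 834 881 q417

theorem r881 : I.C.oneB (reE 881) = true := two_r 834 881 q417

end Pool.Agent.Lib.MP_afdd4d_co.K10.LR
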