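import Pool.Agent.Lib.MP_afdd4d_co.K10.LR.R386

/-!
# The rows of the links, part 418
-/

namespace Pool.Agent.Lib.MP_afdd4d_co.K10.LR

open K8 K8.L9

theorem q418 : twoG oneJ 835 884 = true := by decide +kernel

theorem r835 : I.C.oneB (reE 835) = true := two_l 835 884 q418

theorem r884 : I.C.oneB (reE 884) = true := two_r 835 884 q418

end Pool.Agent.Lib.MP_afdd4d_co.K10.LR
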