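import Pool.Agent.Lib.MP_afdd4d_co.K10.LR.R387

/-!
# The rows of the links, part 419
-/

namespace Pool.Agent.Lib.MP_afdd4d_co.K10.LR

open K8 K8.L9

theorem q419 : twoG oneJ 836 883 = true := by decide +kernel

theorem r836 : I.C.oneB (reE 836) = true := two_l 836 883 q419

theorem r883 : I.C.oneB (reE 883) = true := two_r 836 883 q419

end Pool.Agent.Lib.MP_afdd4d_co.K10.LR
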