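import Pool.Agent.Lib.MP_afdd4d_co.K10.LR.R388

/-!
# The rows of the links, part 420
-/

namespace Pool.Agent.Lib.MP_afdd4d_co.K10.LR

open K8 K8.L9

theorem q420 : twoG oneJ 837 846 = true := by decide +kernel

theorem r837 : I.C.oneB (reE 837) = true := two_l 837 846 q420

theorem r846 : I.C.oneB (reE 846) = true := two_r 837 846 q420

end Pool.Agent.Lib.MP_afdd4d_co.K10.LR
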