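import Pool.Agent.Lib.MP_afdd4d_co.K10.LR.R389

/-!
# The rows of the links, part 421
-/

namespace Pool.Agent.Lib.MP_afdd4d_co.K10.LR

open K8 K8.L9

theorem q421 : twoG oneJ 838 843 = true := by decide +kernel

theorem r838 : I.C.oneB (reE 838) = true := two_l 838 843 q421

theorem r843 : I.C.oneB (reE 843) = true := two_r 838 843 q421

end Pool.Agent.Lib.MP_afdd4d_co.K10.LR
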