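import Pool.Agent.Lib.MP_afdd4d_co.K10.LR.R390

/-!
# The rows of the links, part 422
-/

namespace Pool.Agent.Lib.MP_afdd4d_co.K10.LR

open K8 K8.L9

theorem q422 : twoG oneJ 839 892 = true := by decide +kernel

theorem r839 : I.C.oneB (reE 839) = true := two_l 839 892 q422

theorem r892 : I.C.oneB (reE 892) = true := two_r 839 892 q422

end Pool.Agent.Lib.MP_afdd4d_co.K10.LR
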