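import Pool.Agent.Lib.MP_afdd4d_co.K10.LR.R391

/-!
# The rows of the links, part 423
-/

namespace Pool.Agent.Lib.MP_afdd4d_co.K10.LR

open K8 K8.L9

theorem q423 : twoG oneJ 840 858 = true := by decide +kernel

theorem r840 : I.C.oneB (reE 840) = true := two_l 840 858 q423

theorem r858 : I.C.oneB (reE 858) = true := two_r 840 858 q423

end Pool.Agent.Lib.MP_afdd4d_co.K10.LR
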