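import Pool.Agent.Lib.MP_afdd4d_co.K10.LR.R392

/-!
# The rows of the links, part 424
-/

namespace Pool.Agent.Lib.MP_afdd4d_co.K10.LR

open K8 K8.L9

theorem q424 : twoG oneJ 841 871 = true := by decide +kernel

theorem r841 : I.C.oneB (reE 841) = true := two_l 841 871 q424

theorem r871 : I.C.oneB (reE 871) = true := two_r 841 871 q424

end Pool.Agent.Lib.MP_afdd4d_co.K10.LR
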