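import Pool.Agent.Lib.MP_afdd4d_co.K10.LR.R393

/-!
# The rows of the links, part 425
-/

namespace Pool.Agent.Lib.MP_afdd4d_co.K10.LR

open K8 K8.L9

theorem q425 : twoG oneJ 842 855 = true := by decide +kernel

theorem r842 : I.C.oneB (reE 842) = true := two_l 842 855 q425

theorem r855 : I.C.oneB (reE 855) = true := two_r 842 855 q425

end Pool.Agent.Lib.MP_afdd4d_co.K10.LR
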