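import Pool.Agent.Lib.MP_afdd4d_co.K10.LR.R395

/-!
# The rows of the links, part 427
-/

namespace Pool.Agent.Lib.MP_afdd4d_co.K10.LR

open K8 K8.L9

theorem q427 : twoG oneJ 845 872 = true := by decide +kernel

theorem r845 : I.C.oneB (reE 845) = true := two_l 845 872 q427

theorem r872 : I.C.oneB (reE 872) = true := two_r 845 872 q427

end Pool.Agent.Lib.MP_afdd4d_co.K10.LR
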