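import Pool.Agent.Lib.MP_afdd4d_co.K10.LR.R396

/-!
# The rows of the links, part 428
-/

namespace Pool.Agent.Lib.MP_afdd4d_co.K10.LR

open K8 K8.L9

theorem q428 : twoG oneJ 847 861 = true := by decide +kernel

theorem r847 : I.C.oneB (reE 847) = true := two_l 847 861 q428

theorem r861 : I.C.oneB (reE 861) = true := two_r 847 861 q428

end Pool.Agent.Lib.MP_afdd4d_co.K10.LR
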