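import Pool.Agent.Lib.MP_afdd4d_co.K10.LR.R397

/-!
# The rows of the links, part 429
-/

namespace Pool.Agent.Lib.MP_afdd4d_co.K10.LR

open K8 K8.L9

theorem q429 : twoG oneJ 849 889 = true := by decide +kernel

theorem r849 : I.C.oneB (reE 849) = true := two_l 849 889 q429

theorem r889 : I.C.oneB (reE 889) = true := two_r 849 889 q429

end Pool.Agent.Lib.MP_afdd4d_co.K10.LR
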