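import Pool.Agent.Lib.MP_afdd4d_co.K10.LR.R398

/-!
# The rows of the links, part 430
-/

namespace Pool.Agent.Lib.MP_afdd4d_co.K10.LR

open K8 K8.L9

theorem q430 : twoG oneJ 850 895 = true := by decide +kernel

theorem r850 : I.C.oneB (reE 850) = true := two_l 850 895 q430

theorem r895 : I.C.oneB (reE 895) = true := two_r 850 895 q430

end Pool.Agent.Lib.MP_afdd4d_co.K10.LR
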