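import Pool.Agent.Lib.MP_afdd4d_co.K10.LR.R399

/-!
# The rows of the links, part 431
-/

namespace Pool.Agent.Lib.MP_afdd4d_co.K10.LR

open K8 K8.L9

theorem q431 : twoG oneJ 851 864 = true := by decide +kernel

theorem r851 : I.C.oneB (reE 851) = true := two_l 851 864 q431

theorem r864 : I.C.oneB (reE 864) = true := two_r 851 864 q431

end Pool.Agent.Lib.MP_afdd4d_co.K10.LR
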