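import Pool.Agent.Lib.MP_afdd4d_co.K10.LR.R400

/-!
# The rows of the links, part 432
-/

namespace Pool.Agent.Lib.MP_afdd4d_co.K10.LR

open K8 K8.L9

theorem q432 : twoG oneJ 852 865 = true := by decide +kernel

theorem r852 : I.C.oneB (reE 852) = true := two_l 852 865 q432

theorem r865 : I.C.oneB (reE 865) = true := two_r 852 865 q432

end Pool.Agent.Lib.MP_afdd4d_co.K10.LR
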