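import Pool.Agent.Lib.MP_afdd4d_co.K10.LR.R401

/-!
# The rows of the links, part 433
-/

namespace Pool.Agent.Lib.MP_afdd4d_co.K10.LR

open K8 K8.L9

theorem q433 : twoG oneJ 853 866 = true := by decide +kernel

theorem r853 : I.C.oneB (reE 853) = true := two_l 853 866 q433

theorem r866 : I.C.oneB (reE 866) = true := two_r 853 866 q433

end Pool.Agent.Lib.MP_afdd4d_co.K10.LR
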