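import Pool.Agent.Lib.MP_afdd4d_co.K10.LR.R402

/-!
# The rows of the links, part 434
-/

namespace Pool.Agent.Lib.MP_afdd4d_co.K10.LR

open K8 K8.L9

theorem q434 : twoG oneJ 854 879 = true := by decide +kernel

theorem r854 : I.C.oneB (reE 854) = true := two_l 854 879 q434

theorem r879 : I.C.oneB (reE 879) = true := two_r 854 879 q434

end Pool.Agent.Lib.MP_afdd4d_co.K10.LR
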