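import Pool.Agent.Lib.MP_afdd4d_co.K10.LR.R403

/-!
# The rows of the links, part 435
-/

namespace Pool.Agent.Lib.MP_afdd4d_co.K10.LR

open K8 K8.L9

theorem q435 : twoG oneJ 856 877 = true := by decide +kernel

theorem r856 : I.C.oneB (reE 856) = true := two_l 856 877 q435

theorem r877 : I.C.oneB (reE 877) = true := two_r 856 877 q435

end Pool.Agent.Lib.MP_afdd4d_co.K10.LR
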