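import Pool.Agent.Lib.MP_afdd4d_co.K10.LR.R404

/-!
# The rows of the links, part 436
-/

namespace Pool.Agent.Lib.MP_afdd4d_co.K10.LR

open K8 K8.L9

theorem q436 : twoG oneJ 857 878 = true := by decide +kernel

theorem r857 : I.C.oneB (reE 857) = true := two_l 857 878 q436

theorem r878 : I.C.oneB (reE 878) = true := two_r 857 878 q436

end Pool.Agent.Lib.MP_afdd4d_co.K10.LR
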