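import Pool.Agent.Lib.MP_afdd4d_co.K10.LR.R406

/-!
# The rows of the links, part 438
-/

namespace Pool.Agent.Lib.MP_afdd4d_co.K10.LR

open K8 K8.L9

theorem q438 : twoG oneJ 860 862 = true := by decide +kernel

theorem r860 : I.C.oneB (reE 860) = true := two_l 860 862 q438

theorem r862 : I.C.oneB (reE 862) = true := two_r 860 862 q438

end Pool.Agent.Lib.MP_afdd4d_co.K10.LR
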