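import Pool.Agent.Lib.MP_afdd4d_co.K10.LR.R407

/-!
# The rows of the links, part 439
-/

namespace Pool.Agent.Lib.MP_afdd4d_co.K10.LR

open K8 K8.L9

theorem q439 : twoG oneJ 863 873 = true := by decide +kernel

theorem r863 : I.C.oneB (reE 863) = true := two_l 863 873 q439

theorem r873 : I.C.oneB (reE 873) = true := two_r 863 873 q439

end Pool.Agent.Lib.MP_afdd4d_co.K10.LR
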