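import Pool.Agent.Lib.MP_afdd4d_co.K10.LR.R408

/-!
# The rows of the links, part 440
-/

namespace Pool.Agent.Lib.MP_afdd4d_co.K10.LR

open K8 K8.L9

theorem q440 : twoG oneJ 867 870 = true := by decide +kernel

theorem r867 : I.C.oneB (reE 867) = true := two_l 867 870 q440

theorem r870 : I.C.oneB (reE 870) = true := two_r 867 870 q440

end Pool.Agent.Lib.MP_afdd4d_co.K10.LR
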