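import Pool.Agent.Lib.MP_afdd4d_co.K10.LR.R409

/-!
# The rows of the links, part 441
-/

namespace Pool.Agent.Lib.MP_afdd4d_co.K10.LR

open K8 K8.L9

theorem q441 : twoG oneJ 868 885 = true := by decide +kernel

theorem r868 : I.C.oneB (reE 868) = true := two_l 868 885 q441

theorem r885 : I.C.oneB (reE 885) = true := two_r 868 885 q441

end Pool.Agent.Lib.MP_afdd4d_co.K10.LR
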