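import Pool.Agent.Lib.MP_afdd4d_co.K10.LR.R410

/-!
# The rows of the links, part 442
-/

namespace Pool.Agent.Lib.MP_afdd4d_co.K10.LR

open K8 K8.L9

theorem q442 : twoG oneJ 869 875 = true := by decide +kernel

theorem r869 : I.C.oneB (reE 869) = true := two_l 869 875 q442

theorem r875 : I.C.oneB (reE 875) = true := two_r 869 875 q442

end Pool.Agent.Lib.MP_afdd4d_co.K10.LR
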