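import Pool.Agent.Lib.MP_afdd4d_co.K10.LR.R411

/-!
# The rows of the links, part 443
-/

namespace Pool.Agent.Lib.MP_afdd4d_co.K10.LR

open K8 K8.L9

theorem q443 : twoG oneJ 874 876 = true := by decide +kernel

theorem r874 : I.C.oneB (reE 874) = true := two_l 874 876 q443

theorem r876 : I.C.oneB (reE 876) = true := two_r 874 876 q443

end Pool.Agent.Lib.MP_afdd4d_co.K10.LR
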