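import Pool.Agent.Lib.MP_afdd4d_co.K10.LR.R412

/-!
# The rows of the links, part 444
-/

namespace Pool.Agent.Lib.MP_afdd4d_co.K10.LR

open K8 K8.L9

theorem q444 : twoG oneJ 880 882 = true := by decide +kernel

theorem r880 : I.C.oneB (reE 880) = true := two_l 880 882 q444

theorem r882 : I.C.oneB (reE 882) = true := two_r 880 882 q444

end Pool.Agent.Lib.MP_afdd4d_co.K10.LR
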