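import Pool.Agent.Lib.MP_afdd4d_co.K10.LR.R413

/-!
# The rows of the links, part 445
-/

namespace Pool.Agent.Lib.MP_afdd4d_co.K10.LR

open K8 K8.L9

theorem q445 : twoG oneJ 887 888 = true := by decide +kernel

theorem r887 : I.C.oneB (reE 887) = true := two_l 887 888 q445

theorem r888 : I.C.oneB (reE 888) = true := two_r 887 888 q445

end Pool.Agent.Lib.MP_afdd4d_co.K10.LR
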