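import Pool.Agent.Lib.MP_afdd4d_co.K10.LR.R414

/-!
# The rows of the links, part 446
-/

namespace Pool.Agent.Lib.MP_afdd4d_co.K10.LR

open K8 K8.L9

theorem q446 : twoG oneJ 890 894 = true := by decide +kernel

theorem r890 : I.C.oneB (reE 890) = true := two_l 890 894 q446

theorem r894 : I.C.oneB (reE 894) = true := two_r 890 894 q446

end Pool.Agent.Lib.MP_afdd4d_co.K10.LR
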