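import Pool.Agent.Lib.MP_afdd4d_co.K10.LR.R415

/-!
# The rows of the links, part 447
-/

namespace Pool.Agent.Lib.MP_afdd4d_co.K10.LR

open K8 K8.L9

theorem q447 : twoG oneJ 891 893 = true := by decide +kernel

theorem r891 : I.C.oneB (reE 891) = true := two_l 891 893 q447

theorem r893 : I.C.oneB (reE 893) = true := two_r 891 893 q447

end Pool.Agent.Lib.MP_afdd4d_co.K10.LR
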