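import Pool.Agent.Lib.MP_afdd4d_co.K10.LR.R416
import Pool.Agent.Lib.MP_afdd4d_co.K10.LR.R417
import Pool.Agent.Lib.MP_afdd4d_co.K10.LR.R418
import Pool.Agent.Lib.MP_afdd4d_co.K10.LR.R419
import Pool.Agent.Lib.MP_afdd4d_co.K10.LR.R420
import Pool.Agent.Lib.MP_afdd4d_co.K10.LR.R421
import Pool.Agent.Lib.MP_afdd4d_co.K10.LR.R422
import Pool.Agent.Lib.MP_afdd4d_co.K10.LR.R423
import Pool.Agent.Lib.MP_afdd4d_co.K10.LR.R424
import Pool.Agent.Lib.MP_afdd4d_co.K10.LR.R425
import Pool.Agent.Lib.MP_afdd4d_co.K10.LR.R426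
import Pool.Agent.Lib.MP_afdd4d_co.K10.LR.R427
import Pool.Agent.Lib.MP_afdd4d_co.K10.LR.R428
import Pool.Agent.Lib.MP_afdd4d_co.K10.LR.R429
import Pool.Agent.Lib.MP_afdd4d_co.K10.LR.R430
import Pool.Agent.Lib.MP_afdd4d_co.K10.LR.R431
import Pool.Agent.Lib.MP_afdd4d_co.K10.LR.R432
import Pool.Agent.Lib.MP_afdd4d_co.K10.LR.R433
import Pool.Agent.Lib.MP_afdd4d_co.K10.LR.R434
import Pool.Agent.Lib.MP_afdd4d_co.K10.LR.R435
import Pool.Agent.Lib.MP_afdd4d_co.K10.LR.R436
import Pool.Agent.Lib.MP_afdd4d_co.K10.LR.R437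
import Pool.Agent.Lib.MP_afdd4d_co.K10.LR.R438
import Pool.Agent.Lib.MP_afdd4d_co.K10.LR.R439
import Pool.Agent.Lib.MP_afdd4d_co.K10.LR.R440
import Pool.Agent.Lib.MP_afdd4d_co.K10.LR.R441
import Pool.Agent.Lib.MP_afdd4d_co.K10.LR.R442
import Pool.Agent.Lib.MP_afdd4d_co.K10.LR.R443
import Pool.Agent.Lib.MP_afdd4d_co.K10.LR.R444
import Pool.Agent.Lib.MP_afdd4d_co.K10.LR.R445
import Pool.Agent.Lib.MP_afdd4d_co.K10.LR.R446
import Pool.Agent.Lib.MP_afdd4d_co.K10.LR.R447

/-!
# The rows of the links, group 13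
-/

namespace Pool.Agent.Lib.MP_afdd4d_co.K10.LR

open K8 K8.L9

theorem j13 : ∀ j, 832 ≤ j → j < 896 → I.C.oneB (reE j) = true := by
  intro j h1 h2
  interval_cases j
  · exact r832
  · exact r833
  · exact r834
  · exact r835
  · exact r836
  · exact r837
  · exact r838
  · exact r839
  · exact r840
  · exact r841
  · exact r842
  · exact r843
  · exact r844
  · exact r845
  · exact r846
  · exact r847
  · exact r848
  · exact r849
  · exact r850
  · exact r851
  · exact r852
  · exact r853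
  · exact r854
  · exact r855
  · exact r856
  · exact r857
  · exact r858
  · exact r859
  · exact r860
  · exact r861
  · exact r862
  · exact r863
  · exact r864
  · exact r865
  · exact r866
  · exact r867
  · exact r868
  · exact r869
  · exact r870
  · exact r871
  · exact r872
  · exact r873
  · exact r874
  · exact r875
  · exact r876
  · exact r877
  · exact r878
  · exact r879
  · exact r880
  · exact r881
  · exact r882
  · exact r883
  · exact r884
  · exact r885
  · exact r886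
  · exact r887
  · exact r888
  · exact r889
  · exact r890
  · exact r891
  · exact r892
  · exact r893
  · exact r894
  · exact r895

end Pool.Agent.Lib.MP_afdd4d_co.K10.LR
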