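import Pool.Agent.Lib.MP_afdd4d_co.K10.LR.R417

/-!
# The rows of the links, part 449
-/

namespace Pool.Agent.Lib.MP_afdd4d_co.K10.LR

open K8 K8.L9

theorem q449 : twoG oneJ 897 919 = true := by decide +kernel

theorem r897 : I.C.oneB (reE 897) = true := two_l 897 919 q449

theorem r919 : I.C.oneB (reE 919) = true := two_r 897 919 q449

end Pool.Agent.Lib.MP_afdd4d_co.K10.LR
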