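import Pool.Agent.Lib.MP_afdd4d_co.K10.LR.R418

/-!
# The rows of the links, part 450
-/

namespace Pool.Agent.Lib.MP_afdd4d_co.K10.LR

open K8 K8.L9

theorem q450 : twoG oneJ 898 907 = true := by decide +kernel

theorem r898 : I.C.oneB (reE 898) = true := two_l 898 907 q450

theorem r907 : I.C.oneB (reE 907) = true := two_r 898 907 q450

end Pool.Agent.Lib.MP_afdd4d_co.K10.LR
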