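import Pool.Agent.Lib.MP_afdd4d_co.K10.LR.R419

/-!
# The rows of the links, part 451
-/

namespace Pool.Agent.Lib.MP_afdd4d_co.K10.LR

open K8 K8.L9

theorem q451 : twoG oneJ 899 908 = true := by decide +kernel

theorem r899 : I.C.oneB (reE 899) = true := two_l 899 908 q451

theorem r908 : I.C.oneB (reE 908) = true := two_r 899 908 q451

end Pool.Agent.Lib.MP_afdd4d_co.K10.LR
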