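import Pool.Agent.Lib.MP_afdd4d_co.K10.LR.R420

/-!
# The rows of the links, part 452
-/

namespace Pool.Agent.Lib.MP_afdd4d_co.K10.LR

open K8 K8.L9

theorem q452 : twoG oneJ 900 905 = true := by decide +kernel

theorem r900 : I.C.oneB (reE 900) = true := two_l 900 905 q452

theorem r905 : I.C.oneB (reE 905) = true := two_r 900 905 q452

end Pool.Agent.Lib.MP_afdd4d_co.K10.LR
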