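import Pool.Agent.Lib.MP_afdd4d_co.K10.LR.R421

/-!
# The rows of the links, part 453
-/

namespace Pool.Agent.Lib.MP_afdd4d_co.K10.LR

open K8 K8.L9

theorem q453 : twoG oneJ 901 902 = true := by decide +kernel

theorem r901 : I.C.oneB (reE 901) = true := two_l 901 902 q453

theorem r902 : I.C.oneB (reE 902) = true := two_r 901 902 q453

end Pool.Agent.Lib.MP_afdd4d_co.K10.LR
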