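import Pool.Agent.Lib.MP_afdd4d_co.K10.LR.R422

/-!
# The rows of the links, part 454
-/

namespace Pool.Agent.Lib.MP_afdd4d_co.K10.LR

open K8 K8.L9

theorem q454 : twoG oneJ 903 911 = true := by decide +kernel

theorem r903 : I.C.oneB (reE 903) = true := two_l 903 911 q454

theorem r911 : I.C.oneB (reE 911) = true := two_r 903 911 q454

end Pool.Agent.Lib.MP_afdd4d_co.K10.LR
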