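import Pool.Agent.Lib.MP_afdd4d_co.K10.LR.R423

/-!
# The rows of the links, part 455
-/

namespace Pool.Agent.Lib.MP_afdd4d_co.K10.LR

open K8 K8.L9

theorem q455 : twoG oneJ 906 932 = true := by decide +kernel

theorem r906 : I.C.oneB (reE 906) = true := two_l 906 932 q455

theorem r932 : I.C.oneB (reE 932) = true := two_r 906 932 q455

end Pool.Agent.Lib.MP_afdd4d_co.K10.LR
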