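import Pool.Agent.Lib.MP_afdd4d_co.K10.LR.R424

/-!
# The rows of the links, part 456
-/

namespace Pool.Agent.Lib.MP_afdd4d_co.K10.LR

open K8 K8.L9

theorem q456 : twoG oneJ 909 938 = true := by decide +kernel

theorem r909 : I.C.oneB (reE 909) = true := two_l 909 938 q456

theorem r938 : I.C.oneB (reE 938) = true := two_r 909 938 q456

end Pool.Agent.Lib.MP_afdd4d_co.K10.LR
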