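import Pool.Agent.Lib.MP_afdd4d_co.K10.LR.R425

/-!
# The rows of the links, part 457
-/

namespace Pool.Agent.Lib.MP_afdd4d_co.K10.LR

open K8 K8.L9

theorem q457 : twoG oneJ 910 913 = true := by decide +kernel

theorem r910 : I.C.oneB (reE 910) = true := two_l 910 913 q457

theorem r913 : I.C.oneB (reE 913) = true := two_r 910 913 q457

end Pool.Agent.Lib.MP_afdd4d_co.K10.LR
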