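import Pool.Agent.Lib.MP_afdd4d_co.K10.LR.R427

/-!
# The rows of the links, part 459
-/

namespace Pool.Agent.Lib.MP_afdd4d_co.K10.LR

open K8 K8.L9

theorem q459 : twoG oneJ 915 918 = true := by decide +kernel

theorem r915 : I.C.oneB (reE 915) = true := two_l 915 918 q459

theorem r918 : I.C.oneB (reE 918) = true := two_r 915 918 q459

end Pool.Agent.Lib.MP_afdd4d_co.K10.LR
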