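import Pool.Agent.Lib.MP_afdd4d_co.K10.LR.R428

/-!
# The rows of the links, part 460
-/

namespace Pool.Agent.Lib.MP_afdd4d_co.K10.LR

open K8 K8.L9

theorem q460 : twoG oneJ 916 951 = true := by decide +kernel

theorem r916 : I.C.oneB (reE 916) = true := two_l 916 951 q460

theorem r951 : I.C.oneB (reE 951) = true := two_r 916 951 q460

end Pool.Agent.Lib.MP_afdd4d_co.K10.LR
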