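import Pool.Agent.Lib.MP_afdd4d_co.K10.LR.R429

/-!
# The rows of the links, part 461
-/

namespace Pool.Agent.Lib.MP_afdd4d_co.K10.LR

open K8 K8.L9

theorem q461 : twoG oneJ 917 953 = true := by decide +kernel

theorem r917 : I.C.oneB (reE 917) = true := two_l 917 953 q461

theorem r953 : I.C.oneB (reE 953) = true := two_r 917 953 q461

end Pool.Agent.Lib.MP_afdd4d_co.K10.LR
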