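import Pool.Agent.Lib.MP_afdd4d_co.K10.LR.R430

/-!
# The rows of the links, part 462
-/

namespace Pool.Agent.Lib.MP_afdd4d_co.K10.LR

open K8 K8.L9

theorem q462 : twoG oneJ 920 921 = true := by decide +kernel

theorem r920 : I.C.oneB (reE 920) = true := two_l 920 921 q462

theorem r921 : I.C.oneB (reE 921) = true := two_r 920 921 q462

end Pool.Agent.Lib.MP_afdd4d_co.K10.LR
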