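import Pool.Agent.Lib.MP_afdd4d_co.K10.LR.R431

/-!
# The rows of the links, part 463
-/

namespace Pool.Agent.Lib.MP_afdd4d_co.K10.LR

open K8 K8.L9

theorem q463 : twoG oneJ 922 923 = true := by decide +kernel

theorem r922 : I.C.oneB (reE 922) = true := two_l 922 923 q463

theorem r923 : I.C.oneB (reE 923) = true := two_r 922 923 q463

end Pool.Agent.Lib.MP_afdd4d_co.K10.LR
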