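import Pool.Agent.Lib.MP_afdd4d_co.K10.LR.R432

/-!
# The rows of the links, part 464
-/

namespace Pool.Agent.Lib.MP_afdd4d_co.K10.LR

open K8 K8.L9

theorem q464 : twoG oneJ 924 958 = true := by decide +kernel

theorem r924 : I.C.oneB (reE 924) = true := two_l 924 958 q464

theorem r958 : I.C.oneB (reE 958) = true := two_r 924 958 q464

end Pool.Agent.Lib.MP_afdd4d_co.K10.LR
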