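import Pool.Agent.Lib.MP_afdd4d_co.K10.LR.R433

/-!
# The rows of the links, part 465
-/

namespace Pool.Agent.Lib.MP_afdd4d_co.K10.LR

open K8 K8.L9

theorem q465 : twoG oneJ 925 959 = true := by decide +kernel

theorem r925 : I.C.oneB (reE 925) = true := two_l 925 959 q465

theorem r959 : I.C.oneB (reE 959) = true := two_r 925 959 q465

end Pool.Agent.Lib.MP_afdd4d_co.K10.LR
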