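import Pool.Agent.Lib.MP_afdd4d_co.K10.LR.R434

/-!
# The rows of the links, part 466
-/

namespace Pool.Agent.Lib.MP_afdd4d_co.K10.LR

open K8 K8.L9

theorem q466 : twoG oneJ 926 928 = true := by decide +kernel

theorem r926 : I.C.oneB (reE 926) = true := two_l 926 928 q466

theorem r928 : I.C.oneB (reE 928) = true := two_r 926 928 q466

end Pool.Agent.Lib.MP_afdd4d_co.K10.LR
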