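import Pool.Agent.Lib.MP_afdd4d_co.K10.LR.R435

/-!
# The rows of the links, part 467
-/

namespace Pool.Agent.Lib.MP_afdd4d_co.K10.LR

open K8 K8.L9

theorem q467 : twoG oneJ 927 933 = true := by decide +kernel

theorem r927 : I.C.oneB (reE 927) = true := two_l 927 933 q467

theorem r933 : I.C.oneB (reE 933) = true := two_r 927 933 q467

end Pool.Agent.Lib.MP_afdd4d_co.K10.LR
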