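import Pool.Agent.Lib.MP_afdd4d_co.K10.LR.R436

/-!
# The rows of the links, part 468
-/

namespace Pool.Agent.Lib.MP_afdd4d_co.K10.LR

open K8 K8.L9

theorem q468 : twoG oneJ 929 935 = true := by decide +kernel

theorem r929 : I.C.oneB (reE 929) = true := two_l 929 935 q468

theorem r935 : I.C.oneB (reE 935) = true := two_r 929 935 q468

end Pool.Agent.Lib.MP_afdd4d_co.K10.LR
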