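import Pool.Agent.Lib.MP_afdd4d_co.K10.LR.R438

/-!
# The rows of the links, part 470
-/

namespace Pool.Agent.Lib.MP_afdd4d_co.K10.LR

open K8 K8.L9

theorem q470 : twoG oneJ 934 952 = true := by decide +kernel

theorem r934 : I.C.oneB (reE 934) = true := two_l 934 952 q470

theorem r952 : I.C.oneB (reE 952) = true := two_r 934 952 q470

end Pool.Agent.Lib.MP_afdd4d_co.K10.LR
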