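import Pool.Agent.Lib.MP_afdd4d_co.K10.LR.R439

/-!
# The rows of the links, part 471
-/

namespace Pool.Agent.Lib.MP_afdd4d_co.K10.LR

open K8 K8.L9

theorem q471 : twoG oneJ 936 942 = true := by decide +kernel

theorem r936 : I.C.oneB (reE 936) = true := two_l 936 942 q471

theorem r942 : I.C.oneB (reE 942) = true := two_r 936 942 q471

end Pool.Agent.Lib.MP_afdd4d_co.K10.LR
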