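import Pool.Agent.Lib.MP_afdd4d_co.K10.LR.R440

/-!
# The rows of the links, part 472
-/

namespace Pool.Agent.Lib.MP_afdd4d_co.K10.LR

open K8 K8.L9

theorem q472 : twoG oneJ 937 950 = true := by decide +kernel

theorem r937 : I.C.oneB (reE 937) = true := two_l 937 950 q472

theorem r950 : I.C.oneB (reE 950) = true := two_r 937 950 q472

end Pool.Agent.Lib.MP_afdd4d_co.K10.LR
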