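import Pool.Agent.Lib.MP_afdd4d_co.K10.LR.R441

/-!
# The rows of the links, part 473
-/

namespace Pool.Agent.Lib.MP_afdd4d_co.K10.LR

open K8 K8.L9

theorem q473 : twoG oneJ 939 947 = true := by decide +kernel

theorem r939 : I.C.oneB (reE 939) = true := two_l 939 947 q473

theorem r947 : I.C.oneB (reE 947) = true := two_r 939 947 q473

end Pool.Agent.Lib.MP_afdd4d_co.K10.LR
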