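import Pool.Agent.Lib.MP_afdd4d_co.K10.LR.R442

/-!
# The rows of the links, part 474
-/

namespace Pool.Agent.Lib.MP_afdd4d_co.K10.LR

open K8 K8.L9

theorem q474 : twoG oneJ 940 941 = true := by decide +kernel

theorem r940 : I.C.oneB (reE 940) = true := two_l 940 941 q474

theorem r941 : I.C.oneB (reE 941) = true := two_r 940 941 q474

end Pool.Agent.Lib.MP_afdd4d_co.K10.LR
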