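import Pool.Agent.Lib.MP_afdd4d_co.K10.LR.R443

/-!
# The rows of the links, part 475
-/

namespace Pool.Agent.Lib.MP_afdd4d_co.K10.LR

open K8 K8.L9

theorem q475 : twoG oneJ 943 954 = true := by decide +kernel

theorem r943 : I.C.oneB (reE 943) = true := two_l 943 954 q475

theorem r954 : I.C.oneB (reE 954) = true := two_r 943 954 q475

end Pool.Agent.Lib.MP_afdd4d_co.K10.LR
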