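import Pool.Agent.Lib.MP_afdd4d_co.K10.LR.R444

/-!
# The rows of the links, part 476
-/

namespace Pool.Agent.Lib.MP_afdd4d_co.K10.LR

open K8 K8.L9

theorem q476 : twoG oneJ 944 946 = true := by decide +kernel

theorem r944 : I.C.oneB (reE 944) = true := two_l 944 946 q476

theorem r946 : I.C.oneB (reE 946) = true := two_r 944 946 q476

end Pool.Agent.Lib.MP_afdd4d_co.K10.LR
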