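import Pool.Agent.Lib.MP_afdd4d_co.K10.LR.R445

/-!
# The rows of the links, part 477
-/

namespace Pool.Agent.Lib.MP_afdd4d_co.K10.LR

open K8 K8.L9

theorem q477 : twoG oneJ 945 957 = true := by decide +kernel

theorem r945 : I.C.oneB (reE 945) = true := two_l 945 957 q477

theorem r957 : I.C.oneB (reE 957) = true := two_r 945 957 q477

end Pool.Agent.Lib.MP_afdd4d_co.K10.LR
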