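import Pool.Agent.Lib.MP_afdd4d_co.K10.LR.R446

/-!
# The rows of the links, part 478
-/

namespace Pool.Agent.Lib.MP_afdd4d_co.K10.LR

open K8 K8.L9

theorem q478 : twoG oneJ 948 949 = true := by decide +kernel

theorem r948 : I.C.oneB (reE 948) = true := two_l 948 949 q478

theorem r949 : I.C.oneB (reE 949) = true := two_r 948 949 q478

end Pool.Agent.Lib.MP_afdd4d_co.K10.LR
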