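import Pool.Agent.Lib.MP_afdd4d_co.K10.LR.R447

/-!
# The rows of the links, part 479
-/

namespace Pool.Agent.Lib.MP_afdd4d_co.K10.LR

open K8 K8.L9

theorem q479 : twoG oneJ 955 956 = true := by decide +kernel

theorem r955 : I.C.oneB (reE 955) = true := two_l 955 956 q479

theorem r956 : I.C.oneB (reE 956) = true := two_r 955 956 q479

end Pool.Agent.Lib.MP_afdd4d_co.K10.LR
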