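import Pool.Agent.Lib.MP_afdd4d_co.K10.LR.R448
import Pool.Agent.Lib.MP_afdd4d_co.K10.LR.R449
import Pool.Agent.Lib.MP_afdd4d_co.K10.LR.R450
import Pool.Agent.Lib.MP_afdd4d_co.K10.LR.R451
import Pool.Agent.Lib.MP_afdd4d_co.K10.LR.R452
import Pool.Agent.Lib.MP_afdd4d_co.K10.LR.R453
import Pool.Agent.Lib.MP_afdd4d_co.K10.LR.R454
import Pool.Agent.Lib.MP_afdd4d_co.K10.LR.R455
import Pool.Agent.Lib.MP_afdd4d_co.K10.LR.R456
import Pool.Agent.Lib.MP_afdd4d_co.K10.LR.R457
import Pool.Agent.Lib.MP_afdd4d_co.K10.LR.R458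
import Pool.Agent.Lib.MP_afdd4d_co.K10.LR.R459
import Pool.Agent.Lib.MP_afdd4d_co.K10.LR.R460
import Pool.Agent.Lib.MP_afdd4d_co.K10.LR.R461
import Pool.Agent.Lib.MP_afdd4d_co.K10.LR.R462
import Pool.Agent.Lib.MP_afdd4d_co.K10.LR.R463
import Pool.Agent.Lib.MP_afdd4d_co.K10.LR.R464
import Pool.Agent.Lib.MP_afdd4d_co.K10.LR.R465
import Pool.Agent.Lib.MP_afdd4d_co.K10.LR.R466
import Pool.Agent.Lib.MP_afdd4d_co.K10.LR.R467
import Pool.Agent.Lib.MP_afdd4d_co.K10.LR.R468
import Pool.Agent.Lib.MP_afdd4d_co.K10.LR.R469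
import Pool.Agent.Lib.MP_afdd4d_co.K10.LR.R470
import Pool.Agent.Lib.MP_afdd4d_co.K10.LR.R471
import Pool.Agent.Lib.MP_afdd4d_co.K10.LR.R472
import Pool.Agent.Lib.MP_afdd4d_co.K10.LR.R473
import Pool.Agent.Lib.MP_afdd4d_co.K10.LR.R474
import Pool.Agent.Lib.MP_afdd4d_co.K10.LR.R475
import Pool.Agent.Lib.MP_afdd4d_co.K10.LR.R476
import Pool.Agent.Lib.MP_afdd4d_co.K10.LR.R477
import Pool.Agent.Lib.MP_afdd4d_co.K10.LR.R478
import Pool.Agent.Lib.MP_afdd4d_co.K10.LR.R479

/-!
# The rows of the links, group 14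
-/

namespace Pool.Agent.Lib.MP_afdd4d_co.K10.LR

open K8 K8.L9

theorem j14 : ∀ j, 896 ≤ j → j < 960 → I.C.oneB (reE j) = true := by
  intro j h1 h2
  interval_cases j
  · exact r896
  · exact r897
  · exact r898
  · exact r899
  · exact r900
  · exact r901
  · exact r902
  · exact r903
  · exact r904
  · exact r905
  · exact r906
  · exact r907
  · exact r908
  · exact r909
  · exact r910
  · exact r911
  · exact r912
  · exact r913
  · exact r914
  · exact r915
  · exact r916
  · exact r917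
  · exact r918
  · exact r919
  · exact r920
  · exact r921
  · exact r922
  · exact r923
  · exact r924
  · exact r925
  · exact r926
  · exact r927
  · exact r928
  · exact r929
  · exact r930
  · exact r931
  · exact r932
  · exact r933
  · exact r934
  · exact r935
  · exact r936
  · exact r937
  · exact r938
  · exact r939
  · exact r940
  · exact r941
  · exact r942
  · exact r943
  · exact r944
  · exact r945
  · exact r946
  · exact r947
  · exact r948
  · exact r949
  · exact r950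
  · exact r951
  · exact r952
  · exact r953
  · exact r954
  · exact r955
  · exact r956
  · exact r957
  · exact r958
  · exact r959

end Pool.Agent.Lib.MP_afdd4d_co.K10.LR
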