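import Pool.Agent.Lib.MP_afdd4d_co.K10.LR.R449

/-!
# The rows of the links, part 481
-/

namespace Pool.Agent.Lib.MP_afdd4d_co.K10.LR

open K8 K8.L9

theorem q481 : twoG oneJ 961 992 = true := by decide +kernel

theorem r961 : I.C.oneB (reE 961) = true := two_l 961 992 q481

theorem r992 : I.C.oneB (reE 992) = true := two_r 961 992 q481

end Pool.Agent.Lib.MP_afdd4d_co.K10.LR
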