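import Pool.Agent.Lib.MP_afdd4d_co.K10.LR.R450

/-!
# The rows of the links, part 482
-/

namespace Pool.Agent.Lib.MP_afdd4d_co.K10.LR

open K8 K8.L9

theorem q482 : twoG oneJ 962 993 = true := by decide +kernel

theorem r962 : I.C.oneB (reE 962) = true := two_l 962 993 q482

theorem r993 : I.C.oneB (reE 993) = true := two_r 962 993 q482

end Pool.Agent.Lib.MP_afdd4d_co.K10.LR
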