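import Pool.Agent.Lib.MP_afdd4d_co.K10.LR.R451

/-!
# The rows of the links, part 483
-/

namespace Pool.Agent.Lib.MP_afdd4d_co.K10.LR

open K8 K8.L9

theorem q483 : twoG oneJ 963 964 = true := by decide +kernel

theorem r963 : I.C.oneB (reE 963) = true := two_l 963 964 q483

theorem r964 : I.C.oneB (reE 964) = true := two_r 963 964 q483

end Pool.Agent.Lib.MP_afdd4d_co.K10.LR
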