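import Pool.Agent.Lib.MP_afdd4d_co.K10.LR.R452

/-!
# The rows of the links, part 484
-/

namespace Pool.Agent.Lib.MP_afdd4d_co.K10.LR

open K8 K8.L9

theorem q484 : twoG oneJ 965 969 = true := by decide +kernel

theorem r965 : I.C.oneB (reE 965) = true := two_l 965 969 q484

theorem r969 : I.C.oneB (reE 969) = true := two_r 965 969 q484

end Pool.Agent.Lib.MP_afdd4d_co.K10.LR
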