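import Pool.Agent.Lib.MP_afdd4d_co.K10.LR.R453

/-!
# The rows of the links, part 485
-/

namespace Pool.Agent.Lib.MP_afdd4d_co.K10.LR

open K8 K8.L9

theorem q485 : twoG oneJ 966 968 = true := by decide +kernel

theorem r966 : I.C.oneB (reE 966) = true := two_l 966 968 q485

theorem r968 : I.C.oneB (reE 968) = true := two_r 966 968 q485

end Pool.Agent.Lib.MP_afdd4d_co.K10.LR
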