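import Pool.Agent.Lib.MP_afdd4d_co.K10.LR.R454

/-!
# The rows of the links, part 486
-/

namespace Pool.Agent.Lib.MP_afdd4d_co.K10.LR

open K8 K8.L9

theorem q486 : twoG oneJ 967 985 = true := by decide +kernel

theorem r967 : I.C.oneB (reE 967) = true := two_l 967 985 q486

theorem r985 : I.C.oneB (reE 985) = true := two_r 967 985 q486

end Pool.Agent.Lib.MP_afdd4d_co.K10.LR
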