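import Pool.Agent.Lib.MP_afdd4d_co.K10.LR.R455

/-!
# The rows of the links, part 487
-/

namespace Pool.Agent.Lib.MP_afdd4d_co.K10.LR

open K8 K8.L9

theorem q487 : twoG oneJ 970 1001 = true := by decide +kernel

theorem r970 : I.C.oneB (reE 970) = true := two_l 970 1001 q487

theorem r1001 : I.C.oneB (reE 1001) = true := two_r 970 1001 q487

end Pool.Agent.Lib.MP_afdd4d_co.K10.LR
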