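import Pool.Agent.Lib.MP_afdd4d_co.K10.LR.R456

/-!
# The rows of the links, part 488
-/

namespace Pool.Agent.Lib.MP_afdd4d_co.K10.LR

open K8 K8.L9

theorem q488 : twoG oneJ 971 972 = true := by decide +kernel

theorem r971 : I.C.oneB (reE 971) = true := two_l 971 972 q488

theorem r972 : I.C.oneB (reE 972) = true := two_r 971 972 q488

end Pool.Agent.Lib.MP_afdd4d_co.K10.LR
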