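import Pool.Agent.Lib.MP_afdd4d_co.K10.LR.R457

/-!
# The rows of the links, part 489
-/

namespace Pool.Agent.Lib.MP_afdd4d_co.K10.LR

open K8 K8.L9

theorem q489 : twoG oneJ 973 1020 = true := by decide +kernel

theorem r973 : I.C.oneB (reE 973) = true := two_l 973 1020 q489

theorem r1020 : I.C.oneB (reE 1020) = true := two_r 973 1020 q489

end Pool.Agent.Lib.MP_afdd4d_co.K10.LR
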