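import Pool.Agent.Lib.MP_afdd4d_co.K10.LR.R459

/-!
# The rows of the links, part 491
-/

namespace Pool.Agent.Lib.MP_afdd4d_co.K10.LR

open K8 K8.L9

theorem q491 : twoG oneJ 975 981 = true := by decide +kernel

theorem r975 : I.C.oneB (reE 975) = true := two_l 975 981 q491

theorem r981 : I.C.oneB (reE 981) = true := two_r 975 981 q491

end Pool.Agent.Lib.MP_afdd4d_co.K10.LR
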