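import Pool.Agent.Lib.MP_afdd4d_co.K10.LR.R460

/-!
# The rows of the links, part 492
-/

namespace Pool.Agent.Lib.MP_afdd4d_co.K10.LR

open K8 K8.L9

theorem q492 : twoG oneJ 976 983 = true := by decide +kernel

theorem r976 : I.C.oneB (reE 976) = true := two_l 976 983 q492

theorem r983 : I.C.oneB (reE 983) = true := two_r 976 983 q492

end Pool.Agent.Lib.MP_afdd4d_co.K10.LR
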