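import Pool.Agent.Lib.MP_afdd4d_co.K10.LR.R461

/-!
# The rows of the links, part 493
-/

namespace Pool.Agent.Lib.MP_afdd4d_co.K10.LR

open K8 K8.L9

theorem q493 : twoG oneJ 977 987 = true := by decide +kernel

theorem r977 : I.C.oneB (reE 977) = true := two_l 977 987 q493

theorem r987 : I.C.oneB (reE 987) = true := two_r 977 987 q493

end Pool.Agent.Lib.MP_afdd4d_co.K10.LR
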