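import Pool.Agent.Lib.MP_afdd4d_co.K10.LR.R462

/-!
# The rows of the links, part 494
-/

namespace Pool.Agent.Lib.MP_afdd4d_co.K10.LR

open K8 K8.L9

theorem q494 : twoG oneJ 979 980 = true := by decide +kernel

theorem r979 : I.C.oneB (reE 979) = true := two_l 979 980 q494

theorem r980 : I.C.oneB (reE 980) = true := two_r 979 980 q494

end Pool.Agent.Lib.MP_afdd4d_co.K10.LR
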