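import Pool.Agent.Lib.MP_afdd4d_co.K10.LR.R463

/-!
# The rows of the links, part 495
-/

namespace Pool.Agent.Lib.MP_afdd4d_co.K10.LR

open K8 K8.L9

theorem q495 : twoG oneJ 982 1012 = true := by decide +kernel

theorem r982 : I.C.oneB (reE 982) = true := two_l 982 1012 q495

theorem r1012 : I.C.oneB (reE 1012) = true := two_r 982 1012 q495

end Pool.Agent.Lib.MP_afdd4d_co.K10.LR
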