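import Pool.Agent.Lib.MP_afdd4d_co.K10.LR.R464

/-!
# The rows of the links, part 496
-/

namespace Pool.Agent.Lib.MP_afdd4d_co.K10.LR

open K8 K8.L9

theorem q496 : twoG oneJ 984 998 = true := by decide +kernel

theorem r984 : I.C.oneB (reE 984) = true := two_l 984 998 q496

theorem r998 : I.C.oneB (reE 998) = true := two_r 984 998 q496

end Pool.Agent.Lib.MP_afdd4d_co.K10.LR
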