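import Pool.Agent.Lib.MP_afdd4d_co.K10.LR.R465

/-!
# The rows of the links, part 497
-/

namespace Pool.Agent.Lib.MP_afdd4d_co.K10.LR

open K8 K8.L9

theorem q497 : twoG oneJ 986 994 = true := by decide +kernel

theorem r986 : I.C.oneB (reE 986) = true := two_l 986 994 q497

theorem r994 : I.C.oneB (reE 994) = true := two_r 986 994 q497

end Pool.Agent.Lib.MP_afdd4d_co.K10.LR
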