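import Pool.Agent.Lib.MP_afdd4d_co.K10.LR.R466

/-!
# The rows of the links, part 498
-/

namespace Pool.Agent.Lib.MP_afdd4d_co.K10.LR

open K8 K8.L9

theorem q498 : twoG oneJ 988 989 = true := by decide +kernel

theorem r988 : I.C.oneB (reE 988) = true := two_l 988 989 q498

theorem r989 : I.C.oneB (reE 989) = true := two_r 988 989 q498

end Pool.Agent.Lib.MP_afdd4d_co.K10.LR
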