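import Pool.Agent.Lib.MP_afdd4d_co.K10.LR.R467

/-!
# The rows of the links, part 499
-/

namespace Pool.Agent.Lib.MP_afdd4d_co.K10.LR

open K8 K8.L9

theorem q499 : twoG oneJ 990 995 = true := by decide +kernel

theorem r990 : I.C.oneB (reE 990) = true := two_l 990 995 q499

theorem r995 : I.C.oneB (reE 995) = true := two_r 990 995 q499

end Pool.Agent.Lib.MP_afdd4d_co.K10.LR
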