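import Pool.Agent.Lib.MP_afdd4d_co.K10.LR.R468

/-!
# The rows of the links, part 500
-/

namespace Pool.Agent.Lib.MP_afdd4d_co.K10.LR

open K8 K8.L9

theorem q500 : twoG oneJ 996 997 = true := by decide +kernel

theorem r996 : I.C.oneB (reE 996) = true := two_l 996 997 q500

theorem r997 : I.C.oneB (reE 997) = true := two_r 996 997 q500

end Pool.Agent.Lib.MP_afdd4d_co.K10.LR
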