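import Pool.Agent.Lib.MP_afdd4d_co.K10.LR.R470

/-!
# The rows of the links, part 502
-/

namespace Pool.Agent.Lib.MP_afdd4d_co.K10.LR

open K8 K8.L9

theorem q502 : twoG oneJ 1002 1010 = true := by decide +kernel

theorem r1002 : I.C.oneB (reE 1002) = true := two_l 1002 1010 q502

theorem r1010 : I.C.oneB (reE 1010) = true := two_r 1002 1010 q502

end Pool.Agent.Lib.MP_afdd4d_co.K10.LR
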