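import Pool.Agent.Lib.MP_afdd4d_co.K10.LR.R472

/-!
# The rows of the links, part 504
-/

namespace Pool.Agent.Lib.MP_afdd4d_co.K10.LR

open K8 K8.L9

theorem q504 : twoG oneJ 1004 1005 = true := by decide +kernel

theorem r1004 : I.C.oneB (reE 1004) = true := two_l 1004 1005 q504

theorem r1005 : I.C.oneB (reE 1005) = true := two_r 1004 1005 q504

end Pool.Agent.Lib.MP_afdd4d_co.K10.LR
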