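import Pool.Agent.Lib.MP_afdd4d_co.K10.LR.R476

/-!
# The rows of the links, part 508
-/

namespace Pool.Agent.Lib.MP_afdd4d_co.K10.LR

open K8 K8.L9

theorem q508 : twoG oneJ 1013 1023 = true := by decide +kernel

theorem r1013 : I.C.oneB (reE 1013) = true := two_l 1013 1023 q508

theorem r1023 : I.C.oneB (reE 1023) = true := two_r 1013 1023 q508

end Pool.Agent.Lib.MP_afdd4d_co.K10.LR
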