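import Pool.Agent.Lib.MP_afdd4d_co.K10.LR.R477

/-!
# The rows of the links, part 509
-/

namespace Pool.Agent.Lib.MP_afdd4d_co.K10.LR

open K8 K8.L9

theorem q509 : twoG oneJ 1015 1021 = true := by decide +kernel

theorem r1015 : I.C.oneB (reE 1015) = true := two_l 1015 1021 q509

theorem r1021 : I.C.oneB (reE 1021) = true := two_r 1015 1021 q509

end Pool.Agent.Lib.MP_afdd4d_co.K10.LR
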