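import Pool.Agent.Lib.MP_afdd4d_co.K10.LR.R480
import Pool.Agent.Lib.MP_afdd4d_co.K10.LR.R481
import Pool.Agent.Lib.MP_afdd4d_co.K10.LR.R482
import Pool.Agent.Lib.MP_afdd4d_co.K10.LR.R483
import Pool.Agent.Lib.MP_afdd4d_co.K10.LR.R484
import Pool.Agent.Lib.MP_afdd4d_co.K10.LR.R485
import Pool.Agent.Lib.MP_afdd4d_co.K10.LR.R486
import Pool.Agent.Lib.MP_afdd4d_co.K10.LR.R487
import Pool.Agent.Lib.MP_afdd4d_co.K10.LR.R488
import Pool.Agent.Lib.MP_afdd4d_co.K10.LR.R489
import Pool.Agent.Lib.MP_afdd4d_co.K10.LR.R490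
import Pool.Agent.Lib.MP_afdd4d_co.K10.LR.R491
import Pool.Agent.Lib.MP_afdd4d_co.K10.LR.R492
import Pool.Agent.Lib.MP_afdd4d_co.K10.LR.R493
import Pool.Agent.Lib.MP_afdd4d_co.K10.LR.R494
import Pool.Agent.Lib.MP_afdd4d_co.K10.LR.R495
import Pool.Agent.Lib.MP_afdd4d_co.K10.LR.R496
import Pool.Agent.Lib.MP_afdd4d_co.K10.LR.R497
import Pool.Agent.Lib.MP_afdd4d_co.K10.LR.R498
import Pool.Agent.Lib.MP_afdd4d_co.K10.LR.R499
import Pool.Agent.Lib.MP_afdd4d_co.K10.LR.R500
import Pool.Agent.Lib.MP_afdd4d_co.K10.LR.R501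
import Pool.Agent.Lib.MP_afdd4d_co.K10.LR.R502
import Pool.Agent.Lib.MP_afdd4d_co.K10.LR.R503
import Pool.Agent.Lib.MP_afdd4d_co.K10.LR.R504
import Pool.Agent.Lib.MP_afdd4d_co.K10.LR.R505
import Pool.Agent.Lib.MP_afdd4d_co.K10.LR.R506
import Pool.Agent.Lib.MP_afdd4d_co.K10.LR.R507
import Pool.Agent.Lib.MP_afdd4d_co.K10.LR.R508
import Pool.Agent.Lib.MP_afdd4d_co.K10.LR.R509
import Pool.Agent.Lib.MP_afdd4d_co.K10.LR.R510
import Pool.Agent.Lib.MP_afdd4d_co.K10.LR.R511

/-!
# The rows of the links, group 15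
-/

namespace Pool.Agent.Lib.MP_afdd4d_co.K10.LR

open K8 K8.L9

theorem j15 : ∀ j, 960 ≤ j → j < 1024 → I.C.oneB (reE j) = true := by
  intro j h1 h2
  interval_cases j
  · exact r960
  · exact r961
  · exact r962
  · exact r963
  · exact r964
  · exact r965
  · exact r966
  · exact r967
  · exact r968
  · exact r969
  · exact r970
  · exact r971
  · exact r972
  · exact r973
  · exact r974
  · exact r975
  · exact r976
  · exact r977
  · exact r978
  · exact r979
  · exact r980
  · exact r981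
  · exact r982
  · exact r983
  · exact r984
  · exact r985
  · exact r986
  · exact r987
  · exact r988
  · exact r989
  · exact r990
  · exact r991
  · exact r992
  · exact r993
  · exact r994
  · exact r995
  · exact r996
  · exact r997
  · exact r998
  · exact r999
  · exact r1000
  · exact r1001
  · exact r1002
  · exact r1003
  · exact r1004
  · exact r1005
  · exact r1006
  · exact r1007
  · exact r1008
  · exact r1009
  · exact r1010
  · exact r1011
  · exact r1012
  · exact r1013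
  · exact r1014
  · exact r1015
  · exact r1016
  · exact r1017
  · exact r1018
  · exact r1019
  · exact r1020
  · exact r1021
  · exact r1022
  · exact r1023

end Pool.Agent.Lib.MP_afdd4d_co.K10.LR
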