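import Pool.Agent.Lib.MP_afdd4d_co.K10.LR.R483

/-!
# The rows of the links, part 515
-/

namespace Pool.Agent.Lib.MP_afdd4d_co.K10.LR

open K8 K8.L9

theorem q515 : twoG oneJ 1028 1030 = true := by decide +kernel

theorem r1028 : I.C.oneB (reE 1028) = true := two_l 1028 1030 q515

theorem r1030 : I.C.oneB (reE 1030) = true := two_r 1028 1030 q515

end Pool.Agent.Lib.MP_afdd4d_co.K10.LR
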