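import Pool.Agent.Lib.MP_afdd4d_co.K10.LR.R484

/-!
# The rows of the links, part 516
-/

namespace Pool.Agent.Lib.MP_afdd4d_co.K10.LR

open K8 K8.L9

theorem q516 : twoG oneJ 1031 1084 = true := by decide +kernel

theorem r1031 : I.C.oneB (reE 1031) = true := two_l 1031 1084 q516

theorem r1084 : I.C.oneB (reE 1084) = true := two_r 1031 1084 q516

end Pool.Agent.Lib.MP_afdd4d_co.K10.LR
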