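import Pool.Agent.Lib.MP_afdd4d_co.K10.LR.R485

/-!
# The rows of the links, part 517
-/

namespace Pool.Agent.Lib.MP_afdd4d_co.K10.LR

open K8 K8.L9

theorem q517 : twoG oneJ 1032 1041 = true := by decide +kernel

theorem r1032 : I.C.oneB (reE 1032) = true := two_l 1032 1041 q517

theorem r1041 : I.C.oneB (reE 1041) = true := two_r 1032 1041 q517

end Pool.Agent.Lib.MP_afdd4d_co.K10.LR
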