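import Pool.Agent.Lib.MP_afdd4d_co.K10.LR.R486

/-!
# The rows of the links, part 518
-/

namespace Pool.Agent.Lib.MP_afdd4d_co.K10.LR

open K8 K8.L9

theorem q518 : twoG oneJ 1033 1035 = true := by decide +kernel

theorem r1033 : I.C.oneB (reE 1033) = true := two_l 1033 1035 q518

theorem r1035 : I.C.oneB (reE 1035) = true := two_r 1033 1035 q518

end Pool.Agent.Lib.MP_afdd4d_co.K10.LR
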