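import Pool.Agent.Lib.MP_afdd4d_co.K10.LR.R487

/-!
# The rows of the links, part 519
-/

namespace Pool.Agent.Lib.MP_afdd4d_co.K10.LR

open K8 K8.L9

theorem q519 : twoG oneJ 1034 1036 = true := by decide +kernel

theorem r1034 : I.C.oneB (reE 1034) = true := two_l 1034 1036 q519

theorem r1036 : I.C.oneB (reE 1036) = true := two_r 1034 1036 q519

end Pool.Agent.Lib.MP_afdd4d_co.K10.LR
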