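import Pool.Agent.Lib.MP_afdd4d_co.K10.LR.R489

/-!
# The rows of the links, part 521
-/

namespace Pool.Agent.Lib.MP_afdd4d_co.K10.LR

open K8 K8.L9

theorem q521 : twoG oneJ 1038 1049 = true := by decide +kernel

theorem r1038 : I.C.oneB (reE 1038) = true := two_l 1038 1049 q521

theorem r1049 : I.C.oneB (reE 1049) = true := two_r 1038 1049 q521

end Pool.Agent.Lib.MP_afdd4d_co.K10.LR
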