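import Pool.Agent.Lib.MP_afdd4d_co.K10.LR.R494

/-!
# The rows of the links, part 526
-/

namespace Pool.Agent.Lib.MP_afdd4d_co.K10.LR

open K8 K8.L9

theorem q526 : twoG oneJ 1050 1052 = true := by decide +kernel

theorem r1050 : I.C.oneB (reE 1050) = true := two_l 1050 1052 q526

theorem r1052 : I.C.oneB (reE 1052) = true := two_r 1050 1052 q526

end Pool.Agent.Lib.MP_afdd4d_co.K10.LR
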