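import Pool.Agent.Lib.MP_afdd4d_co.K10.LR.R496

/-!
# The rows of the links, part 528
-/

namespace Pool.Agent.Lib.MP_afdd4d_co.K10.LR

open K8 K8.L9

theorem q528 : twoG oneJ 1053 1073 = true := by decide +kernel

theorem r1053 : I.C.oneB (reE 1053) = true := two_l 1053 1073 q528

theorem r1073 : I.C.oneB (reE 1073) = true := two_r 1053 1073 q528

end Pool.Agent.Lib.MP_afdd4d_co.K10.LR
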