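import Pool.Agent.Lib.MP_afdd4d_co.K10.LR.R497

/-!
# The rows of the links, part 529
-/

namespace Pool.Agent.Lib.MP_afdd4d_co.K10.LR

open K8 K8.L9

theorem q529 : twoG oneJ 1054 1078 = true := by decide +kernel

theorem r1054 : I.C.oneB (reE 1054) = true := two_l 1054 1078 q529

theorem r1078 : I.C.oneB (reE 1078) = true := two_r 1054 1078 q529

end Pool.Agent.Lib.MP_afdd4d_co.K10.LR
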