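import Pool.Agent.Lib.MP_afdd4d_co.K10.LR.R498

/-!
# The rows of the links, part 530
-/

namespace Pool.Agent.Lib.MP_afdd4d_co.K10.LR

open K8 K8.L9

theorem q530 : twoG oneJ 1055 1082 = true := by decide +kernel

theorem r1055 : I.C.oneB (reE 1055) = true := two_l 1055 1082 q530

theorem r1082 : I.C.oneB (reE 1082) = true := two_r 1055 1082 q530

end Pool.Agent.Lib.MP_afdd4d_co.K10.LR
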