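import Pool.Agent.Lib.MP_afdd4d_co.K10.LR.R499

/-!
# The rows of the links, part 531
-/

namespace Pool.Agent.Lib.MP_afdd4d_co.K10.LR

open K8 K8.L9

theorem q531 : twoG oneJ 1056 1087 = true := by decide +kernel

theorem r1056 : I.C.oneB (reE 1056) = true := two_l 1056 1087 q531

theorem r1087 : I.C.oneB (reE 1087) = true := two_r 1056 1087 q531

end Pool.Agent.Lib.MP_afdd4d_co.K10.LR
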