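import Pool.Agent.Lib.MP_afdd4d_co.K10.LR.R503

/-!
# The rows of the links, part 535
-/

namespace Pool.Agent.Lib.MP_afdd4d_co.K10.LR

open K8 K8.L9

theorem q535 : twoG oneJ 1063 1075 = true := by decide +kernel

theorem r1063 : I.C.oneB (reE 1063) = true := two_l 1063 1075 q535

theorem r1075 : I.C.oneB (reE 1075) = true := two_r 1063 1075 q535

end Pool.Agent.Lib.MP_afdd4d_co.K10.LR
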