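import Pool.Agent.Lib.MP_afdd4d_co.K10.LR.R504

/-!
# The rows of the links, part 536
-/

namespace Pool.Agent.Lib.MP_afdd4d_co.K10.LR

open K8 K8.L9

theorem q536 : twoG oneJ 1065 1066 = true := by decide +kernel

theorem r1065 : I.C.oneB (reE 1065) = true := two_l 1065 1066 q536

theorem r1066 : I.C.oneB (reE 1066) = true := two_r 1065 1066 q536

end Pool.Agent.Lib.MP_afdd4d_co.K10.LR
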