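import Pool.Agent.Lib.MP_afdd4d_co.K10.LR.R507

/-!
# The rows of the links, part 539
-/

namespace Pool.Agent.Lib.MP_afdd4d_co.K10.LR

open K8 K8.L9

theorem q539 : twoG oneJ 1070 1074 = true := by decide +kernel

theorem r1070 : I.C.oneB (reE 1070) = true := two_l 1070 1074 q539

theorem r1074 : I.C.oneB (reE 1074) = true := two_r 1070 1074 q539

end Pool.Agent.Lib.MP_afdd4d_co.K10.LR
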