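import Pool.Agent.Lib.MP_afdd4d_co.K10.LR.R508

/-!
# The rows of the links, part 540
-/

namespace Pool.Agent.Lib.MP_afdd4d_co.K10.LR

open K8 K8.L9

theorem q540 : twoG oneJ 1076 1077 = true := by decide +kernel

theorem r1076 : I.C.oneB (reE 1076) = true := two_l 1076 1077 q540

theorem r1077 : I.C.oneB (reE 1077) = true := two_r 1076 1077 q540

end Pool.Agent.Lib.MP_afdd4d_co.K10.LR
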