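import Pool.Agent.Lib.MP_afdd4d_co.K10.LR.R509

/-!
# The rows of the links, part 541
-/

namespace Pool.Agent.Lib.MP_afdd4d_co.K10.LR

open K8 K8.L9

theorem q541 : twoG oneJ 1079 1083 = true := by decide +kernel

theorem r1079 : I.C.oneB (reE 1079) = true := two_l 1079 1083 q541

theorem r1083 : I.C.oneB (reE 1083) = true := two_r 1079 1083 q541

end Pool.Agent.Lib.MP_afdd4d_co.K10.LR
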