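import Pool.Agent.Lib.MP_afdd4d_co.K10.LR.R511

/-!
# The rows of the links, part 543
-/

namespace Pool.Agent.Lib.MP_afdd4d_co.K10.LR

open K8 K8.L9

theorem q543 : twoG oneJ 1085 1086 = true := by decide +kernel

theorem r1085 : I.C.oneB (reE 1085) = true := two_l 1085 1086 q543

theorem r1086 : I.C.oneB (reE 1086) = true := two_r 1085 1086 q543

end Pool.Agent.Lib.MP_afdd4d_co.K10.LR
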