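import Pool.Agent.Lib.MP_afdd4d_co.K10.LR.R512
import Pool.Agent.Lib.MP_afdd4d_co.K10.LR.R513
import Pool.Agent.Lib.MP_afdd4d_co.K10.LR.R514
import Pool.Agent.Lib.MP_afdd4d_co.K10.LR.R515
import Pool.Agent.Lib.MP_afdd4d_co.K10.LR.R516
import Pool.Agent.Lib.MP_afdd4d_co.K10.LR.R517
import Pool.Agent.Lib.MP_afdd4d_co.K10.LR.R518
import Pool.Agent.Lib.MP_afdd4d_co.K10.LR.R519
import Pool.Agent.Lib.MP_afdd4d_co.K10.LR.R520
import Pool.Agent.Lib.MP_afdd4d_co.K10.LR.R521
import Pool.Agent.Lib.MP_afdd4d_co.K10.LR.R522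
import Pool.Agent.Lib.MP_afdd4d_co.K10.LR.R523
import Pool.Agent.Lib.MP_afdd4d_co.K10.LR.R524
import Pool.Agent.Lib.MP_afdd4d_co.K10.LR.R525
import Pool.Agent.Lib.MP_afdd4d_co.K10.LR.R526
import Pool.Agent.Lib.MP_afdd4d_co.K10.LR.R527
import Pool.Agent.Lib.MP_afdd4d_co.K10.LR.R528
import Pool.Agent.Lib.MP_afdd4d_co.K10.LR.R529
import Pool.Agent.Lib.MP_afdd4d_co.K10.LR.R530
import Pool.Agent.Lib.MP_afdd4d_co.K10.LR.R531
import Pool.Agent.Lib.MP_afdd4d_co.K10.LR.R532
import Pool.Agent.Lib.MP_afdd4d_co.K10.LR.R533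
import Pool.Agent.Lib.MP_afdd4d_co.K10.LR.R534
import Pool.Agent.Lib.MP_afdd4d_co.K10.LR.R535
import Pool.Agent.Lib.MP_afdd4d_co.K10.LR.R536
import Pool.Agent.Lib.MP_afdd4d_co.K10.LR.R537
import Pool.Agent.Lib.MP_afdd4d_co.K10.LR.R538
import Pool.Agent.Lib.MP_afdd4d_co.K10.LR.R539
import Pool.Agent.Lib.MP_afdd4d_co.K10.LR.R540
import Pool.Agent.Lib.MP_afdd4d_co.K10.LR.R541
import Pool.Agent.Lib.MP_afdd4d_co.K10.LR.R542
import Pool.Agent.Lib.MP_afdd4d_co.K10.LR.R543

/-!
# The rows of the links, group 16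
-/

namespace Pool.Agent.Lib.MP_afdd4d_co.K10.LR

open K8 K8.L9

theorem j16 : ∀ j, 1024 ≤ j → j < 1088 → I.C.oneB (reE j) = true := by
  intro j h1 h2
  interval_cases j
  · exact r1024
  · exact r1025
  · exact r1026
  · exact r1027
  · exact r1028
  · exact r1029
  · exact r1030
  · exact r1031
  · exact r1032
  · exact r1033
  · exact r1034
  · exact r1035
  · exact r1036
  · exact r1037
  · exact r1038
  · exact r1039
  · exact r1040
  · exact r1041
  · exact r1042
  · exact r1043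
  · exact r1044
  · exact r1045
  · exact r1046
  · exact r1047
  · exact r1048
  · exact r1049
  · exact r1050
  · exact r1051
  · exact r1052
  · exact r1053
  · exact r1054
  · exact r1055
  · exact r1056
  · exact r1057
  · exact r1058
  · exact r1059
  · exact r1060
  · exact r1061
  · exact r1062
  · exact r1063
  · exact r1064
  · exact r1065
  · exact r1066
  · exact r1067
  · exact r1068
  · exact r1069
  · exact r1070
  · exact r1071
  · exact r1072
  · exact r1073
  · exact r1074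
  · exact r1075
  · exact r1076
  · exact r1077
  · exact r1078
  · exact r1079
  · exact r1080
  · exact r1081
  · exact r1082
  · exact r1083
  · exact r1084
  · exact r1085
  · exact r1086
  · exact r1087

end Pool.Agent.Lib.MP_afdd4d_co.K10.LR
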