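import Pool.Agent.Lib.MP_afdd4d_co.K10.LR.J00
import Pool.Agent.Lib.MP_afdd4d_co.K10.LR.J01
import Pool.Agent.Lib.MP_afdd4d_co.K10.LR.J02
import Pool.Agent.Lib.MP_afdd4d_co.K10.LR.J03
import Pool.Agent.Lib.MP_afdd4d_co.K10.LR.J04
import Pool.Agent.Lib.MP_afdd4d_co.K10.LR.J05
import Pool.Agent.Lib.MP_afdd4d_co.K10.LR.J06
import Pool.Agent.Lib.MP_afdd4d_co.K10.LR.J07
import Pool.Agent.Lib.MP_afdd4d_co.K10.LR.J08
import Pool.Agent.Lib.MP_afdd4d_co.K10.LR.J09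
import Pool.Agent.Lib.MP_afdd4d_co.K10.LR.J10
import Pool.Agent.Lib.MP_afdd4d_co.K10.LR.J11
import Pool.Agent.Lib.MP_afdd4d_co.K10.LR.J12
import Pool.Agent.Lib.MP_afdd4d_co.K10.LR.J13
import Pool.Agent.Lib.MP_afdd4d_co.K10.LR.J14
import Pool.Agent.Lib.MP_afdd4d_co.K10.LR.J15
import Pool.Agent.Lib.MP_afdd4d_co.K10.LR.J16

/-!
# The rows of the links
-/

namespace Pool.Agent.Lib.MP_afdd4d_co.K10.LR

open K8 K8.L9

theorem hall : ∀ j < 1088, I.C.oneB (reE j) = true := by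
  intro j hj
  by_cases h0 : j < 64
  · exact j0 j (Nat.zero_le _) h0
  by_cases h1 : j < 128
  · exact j1 j (not_lt.mp h0) h1
  by_cases h2 : j < 192
  · exact j2 j (not_lt.mp h1) h2
  by_cases h3 : j < 256
  · exact j3 j (not_lt.mp h2) h3
  by_cases h4 : j < 320
  · exact j4 j (not_lt.mp h3) h4
  by_cases h5 : j < 384
  · exact j5 j (not_lt.mp h4) h5
  by_cases h6 : j < 448
  · exact j6 j (not_lt.mp h5) h6
  by_cases h7 : j < 512
  · exact j7 j (not_lt.mp h6) h7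
  by_cases h8 : j < 576
  · exact j8 j (not_lt.mp h7) h8
  by_cases h9 : j < 640
  · exact j9 j (not_lt.mp h8) h9
  by_cases h10 : j < 704
  · exact j10 j (not_lt.mp h9) h10
  by_cases h11 : j < 768
  · exact j11 j (not_lt.mp h10) h11
  by_cases h12 : j < 832
  · exact j12 j (not_lt.mp h11) h12
  by_cases h13 : j < 896
  · exact j13 j (not_lt.mp h12) h13
  by_cases h14 : j < 960
  · exact j14 j (not_lt.mp h13) h14
  by_cases h15 : j < 1024
  · exact j15 j (not_lt.mp h14) h15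
  exact j16 j (not_lt.mp h15) hj

end Pool.Agent.Lib.MP_afdd4d_co.K10.LR
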