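import Pool.Agent.Lib.MP_afdd4d_co.K10.LR.Dat

/-!
# The rows of the links, part 1
-/

namespace Pool.Agent.Lib.MP_afdd4d_co.K10.LR

open K8 K8.L9

theorem q1 : twoG oneJ 1 4 = true := by decide +kernel

theorem r1 : I.C.oneB (reE 1) = true := two_l 1 4 q1

theorem r4 : I.C.oneB (reE 4) = true := two_r 1 4 q1

end Pool.Agent.Lib.MP_afdd4d_co.K10.LR
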