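import Pool.Agent.Lib.MP_afdd4d_co.K10.LR.Dat

/-!
# The rows of the links, part 2
-/

namespace Pool.Agent.Lib.MP_afdd4d_co.K10.LR

open K8 K8.L9

theorem q2 : twoG oneJ 2 49 = true := by decide +kernel

theorem r2 : I.C.oneB (reE 2) = true := two_l 2 49 q2

theorem r49 : I.C.oneB (reE 49) = true := two_r 2 49 q2

end Pool.Agent.Lib.MP_afdd4d_co.K10.LR
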