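import Pool.Agent.Lib.MP_afdd4d_co.K10.LR.Dat

/-!
# The rows of the links, part 3
-/

namespace Pool.Agent.Lib.MP_afdd4d_co.K10.LR

open K8 K8.L9

theorem q3 : twoG oneJ 3 23 = true := by decide +kernel

theorem r3 : I.C.oneB (reE 3) = true := two_l 3 23 q3

theorem r23 : I.C.oneB (reE 23) = true := two_r 3 23 q3

end Pool.Agent.Lib.MP_afdd4d_co.K10.LR
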