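import Pool.Agent.Lib.MP_afdd4d_co.K10.LR.Dat

/-!
# The rows of the links, part 5
-/

namespace Pool.Agent.Lib.MP_afdd4d_co.K10.LR

open K8 K8.L9

theorem q5 : twoG oneJ 6 11 = true := by decide +kernel

theorem r6 : I.C.oneB (reE 6) = true := two_l 6 11 q5

theorem r11 : I.C.oneB (reE 11) = true := two_r 6 11 q5

end Pool.Agent.Lib.MP_afdd4d_co.K10.LR
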