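import Pool.Agent.Lib.MP_afdd4d_co.K10.LR.Dat

/-!
# The rows of the links, part 7
-/

namespace Pool.Agent.Lib.MP_afdd4d_co.K10.LR

open K8 K8.L9

theorem q7 : twoG oneJ 10 16 = true := by decide +kernel

theorem r10 : I.C.oneB (reE 10) = true := two_l 10 16 q7

theorem r16 : I.C.oneB (reE 16) = true := two_r 10 16 q7

end Pool.Agent.Lib.MP_afdd4d_co.K10.LR
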