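import Pool.Agent.Lib.MP_afdd4d_co.K10.LR.Dat

/-!
# The rows of the links, part 8
-/

namespace Pool.Agent.Lib.MP_afdd4d_co.K10.LR

open K8 K8.L9

theorem q8 : twoG oneJ 12 14 = true := by decide +kernel

theorem r12 : I.C.oneB (reE 12) = true := two_l 12 14 q8

theorem r14 : I.C.oneB (reE 14) = true := two_r 12 14 q8

end Pool.Agent.Lib.MP_afdd4d_co.K10.LR
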