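import Pool.Agent.Lib.MP_afdd4d_co.K10.LR.Dat

/-!
# The rows of the links, part 11
-/

namespace Pool.Agent.Lib.MP_afdd4d_co.K10.LR

open K8 K8.L9

theorem q11 : twoG oneJ 19 51 = true := by decide +kernel

theorem r19 : I.C.oneB (reE 19) = true := two_l 19 51 q11

theorem r51 : I.C.oneB (reE 51) = true := two_r 19 51 q11

end Pool.Agent.Lib.MP_afdd4d_co.K10.LR
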