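import Pool.Agent.Lib.MP_afdd4d_co.K10.LR.Dat

/-!
# The rows of the links, part 13
-/

namespace Pool.Agent.Lib.MP_afdd4d_co.K10.LR

open K8 K8.L9

theorem q13 : twoG oneJ 21 32 = true := by decide +kernel

theorem r21 : I.C.oneB (reE 21) = true := two_l 21 32 q13

theorem r32 : I.C.oneB (reE 32) = true := two_r 21 32 q13

end Pool.Agent.Lib.MP_afdd4d_co.K10.LR
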