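import Pool.Agent.Lib.MP_afdd4d_co.K10.LR.Dat

/-!
# The rows of the links, part 16
-/

namespace Pool.Agent.Lib.MP_afdd4d_co.K10.LR

open K8 K8.L9

theorem q16 : twoG oneJ 26 54 = true := by decide +kernel

theorem r26 : I.C.oneB (reE 26) = true := two_l 26 54 q16

theorem r54 : I.C.oneB (reE 54) = true := two_r 26 54 q16

end Pool.Agent.Lib.MP_afdd4d_co.K10.LR
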