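import Pool.Agent.Lib.MP_afdd4d_co.K10.LR.Dat

/-!
# The rows of the links, part 19
-/

namespace Pool.Agent.Lib.MP_afdd4d_co.K10.LR

open K8 K8.L9

theorem q19 : twoG oneJ 30 60 = true := by decide +kernel

theorem r30 : I.C.oneB (reE 30) = true := two_l 30 60 q19

theorem r60 : I.C.oneB (reE 60) = true := two_r 30 60 q19

end Pool.Agent.Lib.MP_afdd4d_co.K10.LR
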