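import Pool.Agent.Lib.MP_afdd4d_co.K10.LR.Dat

/-!
# The rows of the links, part 20
-/

namespace Pool.Agent.Lib.MP_afdd4d_co.K10.LR

open K8 K8.L9

theorem q20 : twoG oneJ 31 61 = true := by decide +kernel

theorem r31 : I.C.oneB (reE 31) = true := two_l 31 61 q20

theorem r61 : I.C.oneB (reE 61) = true := two_r 31 61 q20

end Pool.Agent.Lib.MP_afdd4d_co.K10.LR
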