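import Pool.Agent.Lib.MP_afdd4d_co.K10.LR.Dat

/-!
# The rows of the links, part 22
-/

namespace Pool.Agent.Lib.MP_afdd4d_co.K10.LR

open K8 K8.L9

theorem q22 : twoG oneJ 34 57 = true := by decide +kernel

theorem r34 : I.C.oneB (reE 34) = true := two_l 34 57 q22

theorem r57 : I.C.oneB (reE 57) = true := two_r 34 57 q22

end Pool.Agent.Lib.MP_afdd4d_co.K10.LR
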