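import Pool.Agent.Lib.MP_afdd4d_co.K10.LR.Dat

/-!
# The rows of the links, part 23
-/

namespace Pool.Agent.Lib.MP_afdd4d_co.K10.LR

open K8 K8.L9

theorem q23 : twoG oneJ 35 58 = true := by decide +kernel

theorem r35 : I.C.oneB (reE 35) = true := two_l 35 58 q23

theorem r58 : I.C.oneB (reE 58) = true := two_r 35 58 q23

end Pool.Agent.Lib.MP_afdd4d_co.K10.LR
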