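import Pool.Agent.Lib.MP_afdd4d_co.K10.LR.Dat

/-!
# The rows of the links, part 25
-/

namespace Pool.Agent.Lib.MP_afdd4d_co.K10.LR

open K8 K8.L9

theorem q25 : twoG oneJ 37 41 = true := by decide +kernel

theorem r37 : I.C.oneB (reE 37) = true := two_l 37 41 q25

theorem r41 : I.C.oneB (reE 41) = true := two_r 37 41 q25

end Pool.Agent.Lib.MP_afdd4d_co.K10.LR
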