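import Pool.Agent.Lib.MP_afdd4d_co.K10.LR.Dat

/-!
# The rows of the links, part 26
-/

namespace Pool.Agent.Lib.MP_afdd4d_co.K10.LR

open K8 K8.L9

theorem q26 : twoG oneJ 38 63 = true := by decide +kernel

theorem r38 : I.C.oneB (reE 38) = true := two_l 38 63 q26

theorem r63 : I.C.oneB (reE 63) = true := two_r 38 63 q26

end Pool.Agent.Lib.MP_afdd4d_co.K10.LR
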