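import Pool.Agent.Lib.MP_afdd4d_co.K10.LR.Dat

/-!
# The rows of the links, part 27
-/

namespace Pool.Agent.Lib.MP_afdd4d_co.K10.LR

open K8 K8.L9

theorem q27 : twoG oneJ 39 42 = true := by decide +kernel

theorem r39 : I.C.oneB (reE 39) = true := two_l 39 42 q27

theorem r42 : I.C.oneB (reE 42) = true := two_r 39 42 q27

end Pool.Agent.Lib.MP_afdd4d_co.K10.LR
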