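import Pool.Agent.Lib.MP_afdd4d_co.K10.LR.Dat

/-!
# The rows of the links, part 28
-/

namespace Pool.Agent.Lib.MP_afdd4d_co.K10.LR

open K8 K8.L9

theorem q28 : twoG oneJ 40 43 = true := by decide +kernel

theorem r40 : I.C.oneB (reE 40) = true := two_l 40 43 q28

theorem r43 : I.C.oneB (reE 43) = true := two_r 40 43 q28

end Pool.Agent.Lib.MP_afdd4d_co.K10.LR
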