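import Pool.Agent.Lib.MP_afdd4d_co.K10.LR.Dat

/-!
# The rows of the links, part 29
-/

namespace Pool.Agent.Lib.MP_afdd4d_co.K10.LR

open K8 K8.L9

theorem q29 : twoG oneJ 45 48 = true := by decide +kernel

theorem r45 : I.C.oneB (reE 45) = true := two_l 45 48 q29

theorem r48 : I.C.oneB (reE 48) = true := two_r 45 48 q29

end Pool.Agent.Lib.MP_afdd4d_co.K10.LR
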