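import Pool.Agent.Lib.MP_afdd4d_co.K10.LR.R000
import Pool.Agent.Lib.MP_afdd4d_co.K10.LR.R001
import Pool.Agent.Lib.MP_afdd4d_co.K10.LR.R002
import Pool.Agent.Lib.MP_afdd4d_co.K10.LR.R003
import Pool.Agent.Lib.MP_afdd4d_co.K10.LR.R004
import Pool.Agent.Lib.MP_afdd4d_co.K10.LR.R005
import Pool.Agent.Lib.MP_afdd4d_co.K10.LR.R006
import Pool.Agent.Lib.MP_afdd4d_co.K10.LR.R007
import Pool.Agent.Lib.MP_afdd4d_co.K10.LR.R008
import Pool.Agent.Lib.MP_afdd4d_co.K10.LR.R009
import Pool.Agent.Lib.MP_afdd4d_co.K10.LR.R010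
import Pool.Agent.Lib.MP_afdd4d_co.K10.LR.R011
import Pool.Agent.Lib.MP_afdd4d_co.K10.LR.R012
import Pool.Agent.Lib.MP_afdd4d_co.K10.LR.R013
import Pool.Agent.Lib.MP_afdd4d_co.K10.LR.R014
import Pool.Agent.Lib.MP_afdd4d_co.K10.LR.R015
import Pool.Agent.Lib.MP_afdd4d_co.K10.LR.R016
import Pool.Agent.Lib.MP_afdd4d_co.K10.LR.R017
import Pool.Agent.Lib.MP_afdd4d_co.K10.LR.R018
import Pool.Agent.Lib.MP_afdd4d_co.K10.LR.R019
import Pool.Agent.Lib.MP_afdd4d_co.K10.LR.R020
import Pool.Agent.Lib.MP_afdd4d_co.K10.LR.R021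
import Pool.Agent.Lib.MP_afdd4d_co.K10.LR.R022
import Pool.Agent.Lib.MP_afdd4d_co.K10.LR.R023
import Pool.Agent.Lib.MP_afdd4d_co.K10.LR.R024
import Pool.Agent.Lib.MP_afdd4d_co.K10.LR.R025
import Pool.Agent.Lib.MP_afdd4d_co.K10.LR.R026
import Pool.Agent.Lib.MP_afdd4d_co.K10.LR.R027
import Pool.Agent.Lib.MP_afdd4d_co.K10.LR.R028
import Pool.Agent.Lib.MP_afdd4d_co.K10.LR.R029
import Pool.Agent.Lib.MP_afdd4d_co.K10.LR.R030
import Pool.Agent.Lib.MP_afdd4d_co.K10.LR.R031

/-!
# The rows of the links, group 0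
-/

namespace Pool.Agent.Lib.MP_afdd4d_co.K10.LR

open K8 K8.L9

theorem j0 : ∀ j, 0 ≤ j → j < 64 → I.C.oneB (reE j) = true := by
  intro j h1 h2
  interval_cases j
  · exact r0
  · exact r1
  · exact r2
  · exact r3
  · exact r4
  · exact r5
  · exact r6
  · exact r7
  · exact r8
  · exact r9
  · exact r10
  · exact r11
  · exact r12
  · exact r13
  · exact r14
  · exact r15
  · exact r16
  · exact r17
  · exact r18
  · exact r19
  · exact r20
  · exact r21
  · exact r22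
  · exact r23
  · exact r24
  · exact r25
  · exact r26
  · exact r27
  · exact r28
  · exact r29
  · exact r30
  · exact r31
  · exact r32
  · exact r33
  · exact r34
  · exact r35
  · exact r36
  · exact r37
  · exact r38
  · exact r39
  · exact r40
  · exact r41
  · exact r42
  · exact r43
  · exact r44
  · exact r45
  · exact r46
  · exact r47
  · exact r48
  · exact r49
  · exact r50
  · exact r51
  · exact r52
  · exact r53
  · exact r54
  · exact r55
  · exact r56
  · exact r57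
  · exact r58
  · exact r59
  · exact r60
  · exact r61
  · exact r62
  · exact r63

end Pool.Agent.Lib.MP_afdd4d_co.K10.LR
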