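import Pool.Agent.Lib.MP_afdd4d_co.K10.LR.R257

/-!
# The rows of the links, part 289
-/

namespace Pool.Agent.Lib.MP_afdd4d_co.K10.LR

open K8 K8.L9

theorem q289 : twoG oneJ 578 579 = true := by decide +kernel

theorem r578 : I.C.oneB (reE 578) = true := two_l 578 579 q289

theorem r579 : I.C.oneB (reE 579) = true := two_r 578 579 q289

end Pool.Agent.Lib.MP_afdd4d_co.K10.LR
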