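import Pool.Agent.Lib.MP_afdd4d_co.K10.LR.R258

/-!
# The rows of the links, part 290
-/

namespace Pool.Agent.Lib.MP_afdd4d_co.K10.LR

open K8 K8.L9

theorem q290 : twoG oneJ 580 586 = true := by decide +kernel

theorem r580 : I.C.oneB (reE 580) = true := two_l 580 586 q290

theorem r586 : I.C.oneB (reE 586) = true := two_r 580 586 q290

end Pool.Agent.Lib.MP_afdd4d_co.K10.LR
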