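import Pool.Agent.Lib.MP_afdd4d_co.K10.LR.R259

/-!
# The rows of the links, part 291
-/

namespace Pool.Agent.Lib.MP_afdd4d_co.K10.LR

open K8 K8.L9

theorem q291 : twoG oneJ 581 587 = true := by decide +kernel

theorem r581 : I.C.oneB (reE 581) = true := two_l 581 587 q291

theorem r587 : I.C.oneB (reE 587) = true := two_r 581 587 q291

end Pool.Agent.Lib.MP_afdd4d_co.K10.LR
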