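import Pool.Agent.Lib.MP_afdd4d_co.K10.LR.R260

/-!
# The rows of the links, part 292
-/

namespace Pool.Agent.Lib.MP_afdd4d_co.K10.LR

open K8 K8.L9

theorem q292 : twoG oneJ 582 588 = true := by decide +kernel

theorem r582 : I.C.oneB (reE 582) = true := two_l 582 588 q292

theorem r588 : I.C.oneB (reE 588) = true := two_r 582 588 q292

end Pool.Agent.Lib.MP_afdd4d_co.K10.LR
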