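import Pool.Agent.Lib.MP_afdd4d_co.K10.LR.R261

/-!
# The rows of the links, part 293
-/

namespace Pool.Agent.Lib.MP_afdd4d_co.K10.LR

open K8 K8.L9

theorem q293 : twoG oneJ 583 584 = true := by decide +kernel

theorem r583 : I.C.oneB (reE 583) = true := two_l 583 584 q293

theorem r584 : I.C.oneB (reE 584) = true := two_r 583 584 q293

end Pool.Agent.Lib.MP_afdd4d_co.K10.LR
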