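import Pool.Agent.Lib.MP_afdd4d_co.K10.LR.R262

/-!
# The rows of the links, part 294
-/

namespace Pool.Agent.Lib.MP_afdd4d_co.K10.LR

open K8 K8.L9

theorem q294 : twoG oneJ 585 589 = true := by decide +kernel

theorem r585 : I.C.oneB (reE 585) = true := two_l 585 589 q294

theorem r589 : I.C.oneB (reE 589) = true := two_r 585 589 q294

end Pool.Agent.Lib.MP_afdd4d_co.K10.LR
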