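import Pool.Agent.Lib.MP_afdd4d_co.K10.LR.R263

/-!
# The rows of the links, part 295
-/

namespace Pool.Agent.Lib.MP_afdd4d_co.K10.LR

open K8 K8.L9

theorem q295 : twoG oneJ 590 591 = true := by decide +kernel

theorem r590 : I.C.oneB (reE 590) = true := two_l 590 591 q295

theorem r591 : I.C.oneB (reE 591) = true := two_r 590 591 q295

end Pool.Agent.Lib.MP_afdd4d_co.K10.LR
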