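import Pool.Agent.Lib.MP_afdd4d_co.K10.LR.R264

/-!
# The rows of the links, part 296
-/

namespace Pool.Agent.Lib.MP_afdd4d_co.K10.LR

open K8 K8.L9

theorem q296 : twoG oneJ 592 593 = true := by decide +kernel

theorem r592 : I.C.oneB (reE 592) = true := two_l 592 593 q296

theorem r593 : I.C.oneB (reE 593) = true := two_r 592 593 q296

end Pool.Agent.Lib.MP_afdd4d_co.K10.LR
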