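import Pool.Agent.Lib.MP_afdd4d_co.K10.LR.R265

/-!
# The rows of the links, part 297
-/

namespace Pool.Agent.Lib.MP_afdd4d_co.K10.LR

open K8 K8.L9

theorem q297 : twoG oneJ 594 597 = true := by decide +kernel

theorem r594 : I.C.oneB (reE 594) = true := two_l 594 597 q297

theorem r597 : I.C.oneB (reE 597) = true := two_r 594 597 q297

end Pool.Agent.Lib.MP_afdd4d_co.K10.LR
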