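import Pool.Agent.Lib.MP_afdd4d_co.K10.LR.R267

/-!
# The rows of the links, part 299
-/

namespace Pool.Agent.Lib.MP_afdd4d_co.K10.LR

open K8 K8.L9

theorem q299 : twoG oneJ 598 599 = true := by decide +kernel

theorem r598 : I.C.oneB (reE 598) = true := two_l 598 599 q299

theorem r599 : I.C.oneB (reE 599) = true := two_r 598 599 q299

end Pool.Agent.Lib.MP_afdd4d_co.K10.LR
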