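import Pool.Agent.Lib.MP_afdd4d_co.K10.LR.R268

/-!
# The rows of the links, part 300
-/

namespace Pool.Agent.Lib.MP_afdd4d_co.K10.LR

open K8 K8.L9

theorem q300 : twoG oneJ 600 601 = true := by decide +kernel

theorem r600 : I.C.oneB (reE 600) = true := two_l 600 601 q300

theorem r601 : I.C.oneB (reE 601) = true := two_r 600 601 q300

end Pool.Agent.Lib.MP_afdd4d_co.K10.LR
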