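import Pool.Agent.Lib.MP_afdd4d_co.K10.LR.R269

/-!
# The rows of the links, part 301
-/

namespace Pool.Agent.Lib.MP_afdd4d_co.K10.LR

open K8 K8.L9

theorem q301 : twoG oneJ 602 626 = true := by decide +kernel

theorem r602 : I.C.oneB (reE 602) = true := two_l 602 626 q301

theorem r626 : I.C.oneB (reE 626) = true := two_r 602 626 q301

end Pool.Agent.Lib.MP_afdd4d_co.K10.LR
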