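import Pool.Agent.Lib.MP_afdd4d_co.K10.LR.R270

/-!
# The rows of the links, part 302
-/

namespace Pool.Agent.Lib.MP_afdd4d_co.K10.LR

open K8 K8.L9

theorem q302 : twoG oneJ 603 611 = true := by decide +kernel

theorem r603 : I.C.oneB (reE 603) = true := two_l 603 611 q302

theorem r611 : I.C.oneB (reE 611) = true := two_r 603 611 q302

end Pool.Agent.Lib.MP_afdd4d_co.K10.LR
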