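import Pool.Agent.Lib.MP_afdd4d_co.K10.LR.R271

/-!
# The rows of the links, part 303
-/

namespace Pool.Agent.Lib.MP_afdd4d_co.K10.LR

open K8 K8.L9

theorem q303 : twoG oneJ 604 612 = true := by decide +kernel

theorem r604 : I.C.oneB (reE 604) = true := two_l 604 612 q303

theorem r612 : I.C.oneB (reE 612) = true := two_r 604 612 q303

end Pool.Agent.Lib.MP_afdd4d_co.K10.LR
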