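import Pool.Agent.Lib.MP_afdd4d_co.K10.LR.R272

/-!
# The rows of the links, part 304
-/

namespace Pool.Agent.Lib.MP_afdd4d_co.K10.LR

open K8 K8.L9

theorem q304 : twoG oneJ 605 613 = true := by decide +kernel

theorem r605 : I.C.oneB (reE 605) = true := two_l 605 613 q304

theorem r613 : I.C.oneB (reE 613) = true := two_r 605 613 q304

end Pool.Agent.Lib.MP_afdd4d_co.K10.LR
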