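import Pool.Agent.Lib.MP_afdd4d_co.K10.LR.R273

/-!
# The rows of the links, part 305
-/

namespace Pool.Agent.Lib.MP_afdd4d_co.K10.LR

open K8 K8.L9

theorem q305 : twoG oneJ 606 622 = true := by decide +kernel

theorem r606 : I.C.oneB (reE 606) = true := two_l 606 622 q305

theorem r622 : I.C.oneB (reE 622) = true := two_r 606 622 q305

end Pool.Agent.Lib.MP_afdd4d_co.K10.LR
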