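import Pool.Agent.Lib.MP_afdd4d_co.K10.LR.R274

/-!
# The rows of the links, part 306
-/

namespace Pool.Agent.Lib.MP_afdd4d_co.K10.LR

open K8 K8.L9

theorem q306 : twoG oneJ 607 608 = true := by decide +kernel

theorem r607 : I.C.oneB (reE 607) = true := two_l 607 608 q306

theorem r608 : I.C.oneB (reE 608) = true := two_r 607 608 q306

end Pool.Agent.Lib.MP_afdd4d_co.K10.LR
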