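import Pool.Agent.Lib.MP_afdd4d_co.K10.LR.R275

/-!
# The rows of the links, part 307
-/

namespace Pool.Agent.Lib.MP_afdd4d_co.K10.LR

open K8 K8.L9

theorem q307 : twoG oneJ 609 615 = true := by decide +kernel

theorem r609 : I.C.oneB (reE 609) = true := two_l 609 615 q307

theorem r615 : I.C.oneB (reE 615) = true := two_r 609 615 q307

end Pool.Agent.Lib.MP_afdd4d_co.K10.LR
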