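import Pool.Agent.Lib.MP_afdd4d_co.K10.LR.R276

/-!
# The rows of the links, part 308
-/

namespace Pool.Agent.Lib.MP_afdd4d_co.K10.LR

open K8 K8.L9

theorem q308 : twoG oneJ 610 621 = true := by decide +kernel

theorem r610 : I.C.oneB (reE 610) = true := two_l 610 621 q308

theorem r621 : I.C.oneB (reE 621) = true := two_r 610 621 q308

end Pool.Agent.Lib.MP_afdd4d_co.K10.LR
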