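import Pool.Agent.Lib.MP_afdd4d_co.K10.LR.R278

/-!
# The rows of the links, part 310
-/

namespace Pool.Agent.Lib.MP_afdd4d_co.K10.LR

open K8 K8.L9

theorem q310 : twoG oneJ 617 619 = true := by decide +kernel

theorem r617 : I.C.oneB (reE 617) = true := two_l 617 619 q310

theorem r619 : I.C.oneB (reE 619) = true := two_r 617 619 q310

end Pool.Agent.Lib.MP_afdd4d_co.K10.LR
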