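import Pool.Agent.Lib.MP_afdd4d_co.K10.LR.R279

/-!
# The rows of the links, part 311
-/

namespace Pool.Agent.Lib.MP_afdd4d_co.K10.LR

open K8 K8.L9

theorem q311 : twoG oneJ 618 620 = true := by decide +kernel

theorem r618 : I.C.oneB (reE 618) = true := two_l 618 620 q311

theorem r620 : I.C.oneB (reE 620) = true := two_r 618 620 q311

end Pool.Agent.Lib.MP_afdd4d_co.K10.LR
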