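import Pool.Agent.Lib.MP_afdd4d_co.K10.LR.R280

/-!
# The rows of the links, part 312
-/

namespace Pool.Agent.Lib.MP_afdd4d_co.K10.LR

open K8 K8.L9

theorem q312 : twoG oneJ 623 625 = true := by decide +kernel

theorem r623 : I.C.oneB (reE 623) = true := two_l 623 625 q312

theorem r625 : I.C.oneB (reE 625) = true := two_r 623 625 q312

end Pool.Agent.Lib.MP_afdd4d_co.K10.LR
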