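import Pool.Agent.Lib.MP_afdd4d_co.K10.LR.R281

/-!
# The rows of the links, part 313
-/

namespace Pool.Agent.Lib.MP_afdd4d_co.K10.LR

open K8 K8.L9

theorem q313 : twoG oneJ 624 636 = true := by decide +kernel

theorem r624 : I.C.oneB (reE 624) = true := two_l 624 636 q313

theorem r636 : I.C.oneB (reE 636) = true := two_r 624 636 q313

end Pool.Agent.Lib.MP_afdd4d_co.K10.LR
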