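import Pool.Agent.Lib.MP_afdd4d_co.K10.LR.R282

/-!
# The rows of the links, part 314
-/

namespace Pool.Agent.Lib.MP_afdd4d_co.K10.LR

open K8 K8.L9

theorem q314 : twoG oneJ 627 638 = true := by decide +kernel

theorem r627 : I.C.oneB (reE 627) = true := two_l 627 638 q314

theorem r638 : I.C.oneB (reE 638) = true := two_r 627 638 q314

end Pool.Agent.Lib.MP_afdd4d_co.K10.LR
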