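import Pool.Agent.Lib.MP_afdd4d_co.K10.LR.R283

/-!
# The rows of the links, part 315
-/

namespace Pool.Agent.Lib.MP_afdd4d_co.K10.LR

open K8 K8.L9

theorem q315 : twoG oneJ 628 629 = true := by decide +kernel

theorem r628 : I.C.oneB (reE 628) = true := two_l 628 629 q315

theorem r629 : I.C.oneB (reE 629) = true := two_r 628 629 q315

end Pool.Agent.Lib.MP_afdd4d_co.K10.LR
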