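import Pool.Agent.Lib.MP_afdd4d_co.K10.LR.R284

/-!
# The rows of the links, part 316
-/

namespace Pool.Agent.Lib.MP_afdd4d_co.K10.LR

open K8 K8.L9

theorem q316 : twoG oneJ 630 633 = true := by decide +kernel

theorem r630 : I.C.oneB (reE 630) = true := two_l 630 633 q316

theorem r633 : I.C.oneB (reE 633) = true := two_r 630 633 q316

end Pool.Agent.Lib.MP_afdd4d_co.K10.LR
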