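import Pool.Agent.Lib.MP_afdd4d_co.K10.LR.R285

/-!
# The rows of the links, part 317
-/

namespace Pool.Agent.Lib.MP_afdd4d_co.K10.LR

open K8 K8.L9

theorem q317 : twoG oneJ 631 632 = true := by decide +kernel

theorem r631 : I.C.oneB (reE 631) = true := two_l 631 632 q317

theorem r632 : I.C.oneB (reE 632) = true := two_r 631 632 q317

end Pool.Agent.Lib.MP_afdd4d_co.K10.LR
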