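import Pool.Agent.Lib.MP_afdd4d_co.K10.LR.R286

/-!
# The rows of the links, part 318
-/

namespace Pool.Agent.Lib.MP_afdd4d_co.K10.LR

open K8 K8.L9

theorem q318 : twoG oneJ 634 635 = true := by decide +kernel

theorem r634 : I.C.oneB (reE 634) = true := two_l 634 635 q318

theorem r635 : I.C.oneB (reE 635) = true := two_r 634 635 q318

end Pool.Agent.Lib.MP_afdd4d_co.K10.LR
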