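import Pool.Agent.Lib.MP_afdd4d_co.K10.LR.R287

/-!
# The rows of the links, part 319
-/

namespace Pool.Agent.Lib.MP_afdd4d_co.K10.LR

open K8 K8.L9

theorem q319 : twoG oneJ 637 639 = true := by decide +kernel

theorem r637 : I.C.oneB (reE 637) = true := two_l 637 639 q319

theorem r639 : I.C.oneB (reE 639) = true := two_r 637 639 q319

end Pool.Agent.Lib.MP_afdd4d_co.K10.LR
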