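import Pool.Agent.Lib.MP_afdd4d_co.K10.LR.R288
import Pool.Agent.Lib.MP_afdd4d_co.K10.LR.R289
import Pool.Agent.Lib.MP_afdd4d_co.K10.LR.R290
import Pool.Agent.Lib.MP_afdd4d_co.K10.LR.R291
import Pool.Agent.Lib.MP_afdd4d_co.K10.LR.R292
import Pool.Agent.Lib.MP_afdd4d_co.K10.LR.R293
import Pool.Agent.Lib.MP_afdd4d_co.K10.LR.R294
import Pool.Agent.Lib.MP_afdd4d_co.K10.LR.R295
import Pool.Agent.Lib.MP_afdd4d_co.K10.LR.R296
import Pool.Agent.Lib.MP_afdd4d_co.K10.LR.R297
import Pool.Agent.Lib.MP_afdd4d_co.K10.LR.R298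
import Pool.Agent.Lib.MP_afdd4d_co.K10.LR.R299
import Pool.Agent.Lib.MP_afdd4d_co.K10.LR.R300
import Pool.Agent.Lib.MP_afdd4d_co.K10.LR.R301
import Pool.Agent.Lib.MP_afdd4d_co.K10.LR.R302
import Pool.Agent.Lib.MP_afdd4d_co.K10.LR.R303
import Pool.Agent.Lib.MP_afdd4d_co.K10.LR.R304
import Pool.Agent.Lib.MP_afdd4d_co.K10.LR.R305
import Pool.Agent.Lib.MP_afdd4d_co.K10.LR.R306
import Pool.Agent.Lib.MP_afdd4d_co.K10.LR.R307
import Pool.Agent.Lib.MP_afdd4d_co.K10.LR.R308
import Pool.Agent.Lib.MP_afdd4d_co.K10.LR.R309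
import Pool.Agent.Lib.MP_afdd4d_co.K10.LR.R310
import Pool.Agent.Lib.MP_afdd4d_co.K10.LR.R311
import Pool.Agent.Lib.MP_afdd4d_co.K10.LR.R312
import Pool.Agent.Lib.MP_afdd4d_co.K10.LR.R313
import Pool.Agent.Lib.MP_afdd4d_co.K10.LR.R314
import Pool.Agent.Lib.MP_afdd4d_co.K10.LR.R315
import Pool.Agent.Lib.MP_afdd4d_co.K10.LR.R316
import Pool.Agent.Lib.MP_afdd4d_co.K10.LR.R317
import Pool.Agent.Lib.MP_afdd4d_co.K10.LR.R318
import Pool.Agent.Lib.MP_afdd4d_co.K10.LR.R319

/-!
# The rows of the links, group 9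
-/

namespace Pool.Agent.Lib.MP_afdd4d_co.K10.LR

open K8 K8.L9

theorem j9 : ∀ j, 576 ≤ j → j < 640 → I.C.oneB (reE j) = true := by
  intro j h1 h2
  interval_cases j
  · exact r576
  · exact r577
  · exact r578
  · exact r579
  · exact r580
  · exact r581
  · exact r582
  · exact r583
  · exact r584
  · exact r585
  · exact r586
  · exact r587
  · exact r588
  · exact r589
  · exact r590
  · exact r591
  · exact r592
  · exact r593
  · exact r594
  · exact r595
  · exact r596
  · exact r597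
  · exact r598
  · exact r599
  · exact r600
  · exact r601
  · exact r602
  · exact r603
  · exact r604
  · exact r605
  · exact r606
  · exact r607
  · exact r608
  · exact r609
  · exact r610
  · exact r611
  · exact r612
  · exact r613
  · exact r614
  · exact r615
  · exact r616
  · exact r617
  · exact r618
  · exact r619
  · exact r620
  · exact r621
  · exact r622
  · exact r623
  · exact r624
  · exact r625
  · exact r626
  · exact r627
  · exact r628
  · exact r629
  · exact r630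
  · exact r631
  · exact r632
  · exact r633
  · exact r634
  · exact r635
  · exact r636
  · exact r637
  · exact r638
  · exact r639

end Pool.Agent.Lib.MP_afdd4d_co.K10.LR
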