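import Pool.Agent.Lib.MP_afdd4d_co.K10.LR.Dat

/-!
# The rows of the links, part 10
-/

namespace Pool.Agent.Lib.MP_afdd4d_co.K10.LR

open K8 K8.L9

theorem q10 : twoG oneJ 15 44 = true := by decide +kernel

theorem r15 : I.C.oneB (reE 15) = true := two_l 15 44 q10

theorem r44 : I.C.oneB (reE 44) = true := two_r 15 44 q10

end Pool.Agent.Lib.MP_afdd4d_co.K10.LR
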