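import Pool.Agent.Lib.MP_afdd4d_co.K10.LR.R000

/-!
# The rows of the links, part 32
-/

namespace Pool.Agent.Lib.MP_afdd4d_co.K10.LR

open K8 K8.L9

theorem q32 : twoG oneJ 64 119 = true := by decide +kernel

theorem r64 : I.C.oneB (reE 64) = true := two_l 64 119 q32

theorem r119 : I.C.oneB (reE 119) = true := two_r 64 119 q32

end Pool.Agent.Lib.MP_afdd4d_co.K10.LR
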