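import Pool.Agent.Lib.MP_afdd4d_co.K10.LR.R010

/-!
# The rows of the links, part 42
-/

namespace Pool.Agent.Lib.MP_afdd4d_co.K10.LR

open K8 K8.L9

theorem q42 : twoG oneJ 76 79 = true := by decide +kernel

theorem r76 : I.C.oneB (reE 76) = true := two_l 76 79 q42

theorem r79 : I.C.oneB (reE 79) = true := two_r 76 79 q42

end Pool.Agent.Lib.MP_afdd4d_co.K10.LR
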