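import Pool.Agent.Lib.MP_afdd4d_co.K10.LR.R021

/-!
# The rows of the links, part 53
-/

namespace Pool.Agent.Lib.MP_afdd4d_co.K10.LR

open K8 K8.L9

theorem q53 : twoG oneJ 100 123 = true := by decide +kernel

theorem r100 : I.C.oneB (reE 100) = true := two_l 100 123 q53

theorem r123 : I.C.oneB (reE 123) = true := two_r 100 123 q53

end Pool.Agent.Lib.MP_afdd4d_co.K10.LR
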