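import Pool.Agent.Lib.MP_afdd4d_co.K10.LR.R032

/-!
# The rows of the links, part 64
-/

namespace Pool.Agent.Lib.MP_afdd4d_co.K10.LR

open K8 K8.L9

theorem q64 : twoG oneJ 128 130 = true := by decide +kernel

theorem r128 : I.C.oneB (reE 128) = true := two_l 128 130 q64

theorem r130 : I.C.oneB (reE 130) = true := two_r 128 130 q64

end Pool.Agent.Lib.MP_afdd4d_co.K10.LR
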