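import Pool.Agent.Lib.MP_afdd4d_co.K10.LR.R042

/-!
# The rows of the links, part 74
-/

namespace Pool.Agent.Lib.MP_afdd4d_co.K10.LR

open K8 K8.L9

theorem q74 : twoG oneJ 141 166 = true := by decide +kernel

theorem r141 : I.C.oneB (reE 141) = true := two_l 141 166 q74

theorem r166 : I.C.oneB (reE 166) = true := two_r 141 166 q74

end Pool.Agent.Lib.MP_afdd4d_co.K10.LR
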