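import Pool.Agent.Lib.MP_afdd4d_co.K10.LR.R053

/-!
# The rows of the links, part 85
-/

namespace Pool.Agent.Lib.MP_afdd4d_co.K10.LR

open K8 K8.L9

theorem q85 : twoG oneJ 155 180 = true := by decide +kernel

theorem r155 : I.C.oneB (reE 155) = true := two_l 155 180 q85

theorem r180 : I.C.oneB (reE 180) = true := two_r 155 180 q85

end Pool.Agent.Lib.MP_afdd4d_co.K10.LR
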