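import Pool.Agent.Lib.MP_afdd4d_co.K10.LR.R064

/-!
# The rows of the links, part 96
-/

namespace Pool.Agent.Lib.MP_afdd4d_co.K10.LR

open K8 K8.L9

theorem q96 : twoG oneJ 192 197 = true := by decide +kernel

theorem r192 : I.C.oneB (reE 192) = true := two_l 192 197 q96

theorem r197 : I.C.oneB (reE 197) = true := two_r 192 197 q96

end Pool.Agent.Lib.MP_afdd4d_co.K10.LR
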