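import Pool.Agent.Lib.MP_afdd4d_co.K10.LR.R074

/-!
# The rows of the links, part 106
-/

namespace Pool.Agent.Lib.MP_afdd4d_co.K10.LR

open K8 K8.L9

theorem q106 : twoG oneJ 208 215 = true := by decide +kernel

theorem r208 : I.C.oneB (reE 208) = true := two_l 208 215 q106

theorem r215 : I.C.oneB (reE 215) = true := two_r 208 215 q106

end Pool.Agent.Lib.MP_afdd4d_co.K10.LR
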