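import Pool.Agent.Lib.MP_afdd4d_co.K10.LR.R085

/-!
# The rows of the links, part 117
-/

namespace Pool.Agent.Lib.MP_afdd4d_co.K10.LR

open K8 K8.L9

theorem q117 : twoG oneJ 224 227 = true := by decide +kernel

theorem r224 : I.C.oneB (reE 224) = true := two_l 224 227 q117

theorem r227 : I.C.oneB (reE 227) = true := two_r 224 227 q117

end Pool.Agent.Lib.MP_afdd4d_co.K10.LR
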