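import Pool.Agent.Lib.MP_afdd4d_co.K10.LR.R096

/-!
# The rows of the links, part 128
-/

namespace Pool.Agent.Lib.MP_afdd4d_co.K10.LR

open K8 K8.L9

theorem q128 : twoG oneJ 256 319 = true := by decide +kernel

theorem r256 : I.C.oneB (reE 256) = true := two_l 256 319 q128

theorem r319 : I.C.oneB (reE 319) = true := two_r 256 319 q128

end Pool.Agent.Lib.MP_afdd4d_co.K10.LR
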