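import Pool.Agent.Lib.MP_afdd4d_co.K10.LR.R106

/-!
# The rows of the links, part 138
-/

namespace Pool.Agent.Lib.MP_afdd4d_co.K10.LR

open K8 K8.L9

theorem q138 : twoG oneJ 269 291 = true := by decide +kernel

theorem r269 : I.C.oneB (reE 269) = true := two_l 269 291 q138

theorem r291 : I.C.oneB (reE 291) = true := two_r 269 291 q138

end Pool.Agent.Lib.MP_afdd4d_co.K10.LR
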