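import Pool.Agent.Lib.MP_afdd4d_co.K10.LR.R117

/-!
# The rows of the links, part 149
-/

namespace Pool.Agent.Lib.MP_afdd4d_co.K10.LR

open K8 K8.L9

theorem q149 : twoG oneJ 287 306 = true := by decide +kernel

theorem r287 : I.C.oneB (reE 287) = true := two_l 287 306 q149

theorem r306 : I.C.oneB (reE 306) = true := two_r 287 306 q149

end Pool.Agent.Lib.MP_afdd4d_co.K10.LR
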