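import Pool.Agent.Lib.MP_afdd4d_co.K10.LR.R128

/-!
# The rows of the links, part 160
-/

namespace Pool.Agent.Lib.MP_afdd4d_co.K10.LR

open K8 K8.L9

theorem q160 : twoG oneJ 320 336 = true := by decide +kernel

theorem r320 : I.C.oneB (reE 320) = true := two_l 320 336 q160

theorem r336 : I.C.oneB (reE 336) = true := two_r 320 336 q160

end Pool.Agent.Lib.MP_afdd4d_co.K10.LR
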