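import Pool.Agent.Lib.MP_afdd4d_co.K10.LR.R138

/-!
# The rows of the links, part 170
-/

namespace Pool.Agent.Lib.MP_afdd4d_co.K10.LR

open K8 K8.L9

theorem q170 : twoG oneJ 331 383 = true := by decide +kernel

theorem r331 : I.C.oneB (reE 331) = true := two_l 331 383 q170

theorem r383 : I.C.oneB (reE 383) = true := two_r 331 383 q170

end Pool.Agent.Lib.MP_afdd4d_co.K10.LR
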