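import Pool.Agent.Lib.MP_afdd4d_co.K10.LR.R149

/-!
# The rows of the links, part 181
-/

namespace Pool.Agent.Lib.MP_afdd4d_co.K10.LR

open K8 K8.L9

theorem q181 : twoG oneJ 348 352 = true := by decide +kernel

theorem r348 : I.C.oneB (reE 348) = true := two_l 348 352 q181

theorem r352 : I.C.oneB (reE 352) = true := two_r 348 352 q181

end Pool.Agent.Lib.MP_afdd4d_co.K10.LR
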