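import Pool.Agent.Lib.MP_afdd4d_co.K10.LR.R160

/-!
# The rows of the links, part 192
-/

namespace Pool.Agent.Lib.MP_afdd4d_co.K10.LR

open K8 K8.L9

theorem q192 : twoG oneJ 384 447 = true := by decide +kernel

theorem r384 : I.C.oneB (reE 384) = true := two_l 384 447 q192

theorem r447 : I.C.oneB (reE 447) = true := two_r 384 447 q192

end Pool.Agent.Lib.MP_afdd4d_co.K10.LR
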