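import Pool.Agent.Lib.MP_afdd4d_co.K10.LR.R170

/-!
# The rows of the links, part 202
-/

namespace Pool.Agent.Lib.MP_afdd4d_co.K10.LR

open K8 K8.L9

theorem q202 : twoG oneJ 395 428 = true := by decide +kernel

theorem r395 : I.C.oneB (reE 395) = true := two_l 395 428 q202

theorem r428 : I.C.oneB (reE 428) = true := two_r 395 428 q202

end Pool.Agent.Lib.MP_afdd4d_co.K10.LR
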