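import Pool.Agent.Lib.MP_afdd4d_co.K10.LR.R181

/-!
# The rows of the links, part 213
-/

namespace Pool.Agent.Lib.MP_afdd4d_co.K10.LR

open K8 K8.L9

theorem q213 : twoG oneJ 408 432 = true := by decide +kernel

theorem r408 : I.C.oneB (reE 408) = true := two_l 408 432 q213

theorem r432 : I.C.oneB (reE 432) = true := two_r 408 432 q213

end Pool.Agent.Lib.MP_afdd4d_co.K10.LR
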