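import Pool.Agent.Lib.MP_afdd4d_co.K10.LR.R192

/-!
# The rows of the links, part 224
-/

namespace Pool.Agent.Lib.MP_afdd4d_co.K10.LR

open K8 K8.L9

theorem q224 : twoG oneJ 448 455 = true := by decide +kernel

theorem r448 : I.C.oneB (reE 448) = true := two_l 448 455 q224

theorem r455 : I.C.oneB (reE 455) = true := two_r 448 455 q224

end Pool.Agent.Lib.MP_afdd4d_co.K10.LR
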