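import Pool.Agent.Lib.MP_afdd4d_co.K10.LR.R202

/-!
# The rows of the links, part 234
-/

namespace Pool.Agent.Lib.MP_afdd4d_co.K10.LR

open K8 K8.L9

theorem q234 : twoG oneJ 464 468 = true := by decide +kernel

theorem r464 : I.C.oneB (reE 464) = true := two_l 464 468 q234

theorem r468 : I.C.oneB (reE 468) = true := two_r 464 468 q234

end Pool.Agent.Lib.MP_afdd4d_co.K10.LR
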