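import Pool.Agent.Lib.MP_afdd4d_co.K10.LR.R213

/-!
# The rows of the links, part 245
-/

namespace Pool.Agent.Lib.MP_afdd4d_co.K10.LR

open K8 K8.L9

theorem q245 : twoG oneJ 485 500 = true := by decide +kernel

theorem r485 : I.C.oneB (reE 485) = true := two_l 485 500 q245

theorem r500 : I.C.oneB (reE 500) = true := two_r 485 500 q245

end Pool.Agent.Lib.MP_afdd4d_co.K10.LR
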