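import Pool.Agent.Lib.MP_afdd4d_co.K10.LR.R224

/-!
# The rows of the links, part 256
-/

namespace Pool.Agent.Lib.MP_afdd4d_co.K10.LR

open K8 K8.L9

theorem q256 : twoG oneJ 512 518 = true := by decide +kernel

theorem r512 : I.C.oneB (reE 512) = true := two_l 512 518 q256

theorem r518 : I.C.oneB (reE 518) = true := two_r 512 518 q256

end Pool.Agent.Lib.MP_afdd4d_co.K10.LR
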