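import Pool.Agent.Lib.MP_afdd4d_co.K10.LR.R234

/-!
# The rows of the links, part 266
-/

namespace Pool.Agent.Lib.MP_afdd4d_co.K10.LR

open K8 K8.L9

theorem q266 : twoG oneJ 527 545 = true := by decide +kernel

theorem r527 : I.C.oneB (reE 527) = true := two_l 527 545 q266

theorem r545 : I.C.oneB (reE 545) = true := two_r 527 545 q266

end Pool.Agent.Lib.MP_afdd4d_co.K10.LR
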