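import Pool.Agent.Lib.MP_afdd4d_co.K10.LR.R245

/-!
# The rows of the links, part 277
-/

namespace Pool.Agent.Lib.MP_afdd4d_co.K10.LR

open K8 K8.L9

theorem q277 : twoG oneJ 553 555 = true := by decide +kernel

theorem r553 : I.C.oneB (reE 553) = true := two_l 553 555 q277

theorem r555 : I.C.oneB (reE 555) = true := two_r 553 555 q277

end Pool.Agent.Lib.MP_afdd4d_co.K10.LR
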