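import Pool.Agent.Lib.MP_afdd4d_co.K10.LR.R256

/-!
# The rows of the links, part 288
-/

namespace Pool.Agent.Lib.MP_afdd4d_co.K10.LR

open K8 K8.L9

theorem q288 : twoG oneJ 576 577 = true := by decide +kernel

theorem r576 : I.C.oneB (reE 576) = true := two_l 576 577 q288

theorem r577 : I.C.oneB (reE 577) = true := two_r 576 577 q288

end Pool.Agent.Lib.MP_afdd4d_co.K10.LR
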