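import Pool.Agent.Lib.MP_afdd4d_co.K10.LR.R266

/-!
# The rows of the links, part 298
-/

namespace Pool.Agent.Lib.MP_afdd4d_co.K10.LR

open K8 K8.L9

theorem q298 : twoG oneJ 595 596 = true := by decide +kernel

theorem r595 : I.C.oneB (reE 595) = true := two_l 595 596 q298

theorem r596 : I.C.oneB (reE 596) = true := two_r 595 596 q298

end Pool.Agent.Lib.MP_afdd4d_co.K10.LR
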