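import Pool.Agent.Lib.MP_afdd4d_co.K10.LR.R277

/-!
# The rows of the links, part 309
-/

namespace Pool.Agent.Lib.MP_afdd4d_co.K10.LR

open K8 K8.L9

theorem q309 : twoG oneJ 614 616 = true := by decide +kernel

theorem r614 : I.C.oneB (reE 614) = true := two_l 614 616 q309

theorem r616 : I.C.oneB (reE 616) = true := two_r 614 616 q309

end Pool.Agent.Lib.MP_afdd4d_co.K10.LR
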