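import Pool.Agent.Lib.MP_afdd4d_co.K10.LR.R288

/-!
# The rows of the links, part 320
-/

namespace Pool.Agent.Lib.MP_afdd4d_co.K10.LR

open K8 K8.L9

theorem q320 : twoG oneJ 640 642 = true := by decide +kernel

theorem r640 : I.C.oneB (reE 640) = true := two_l 640 642 q320

theorem r642 : I.C.oneB (reE 642) = true := two_r 640 642 q320

end Pool.Agent.Lib.MP_afdd4d_co.K10.LR
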