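import Pool.Agent.Lib.MP_afdd4d_co.K10.LR.R298

/-!
# The rows of the links, part 330
-/

namespace Pool.Agent.Lib.MP_afdd4d_co.K10.LR

open K8 K8.L9

theorem q330 : twoG oneJ 655 658 = true := by decide +kernel

theorem r655 : I.C.oneB (reE 655) = true := two_l 655 658 q330

theorem r658 : I.C.oneB (reE 658) = true := two_r 655 658 q330

end Pool.Agent.Lib.MP_afdd4d_co.K10.LR
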