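import Pool.Agent.Lib.MP_afdd4d_co.K10.LR.R309

/-!
# The rows of the links, part 341
-/

namespace Pool.Agent.Lib.MP_afdd4d_co.K10.LR

open K8 K8.L9

theorem q341 : twoG oneJ 676 681 = true := by decide +kernel

theorem r676 : I.C.oneB (reE 676) = true := two_l 676 681 q341

theorem r681 : I.C.oneB (reE 681) = true := two_r 676 681 q341

end Pool.Agent.Lib.MP_afdd4d_co.K10.LR
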