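import Pool.Agent.Lib.MP_afdd4d_co.K10.LR.R320

/-!
# The rows of the links, part 352
-/

namespace Pool.Agent.Lib.MP_afdd4d_co.K10.LR

open K8 K8.L9

theorem q352 : twoG oneJ 704 722 = true := by decide +kernel

theorem r704 : I.C.oneB (reE 704) = true := two_l 704 722 q352

theorem r722 : I.C.oneB (reE 722) = true := two_r 704 722 q352

end Pool.Agent.Lib.MP_afdd4d_co.K10.LR
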