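import Pool.Agent.Lib.MP_afdd4d_co.K10.LR.R330

/-!
# The rows of the links, part 362
-/

namespace Pool.Agent.Lib.MP_afdd4d_co.K10.LR

open K8 K8.L9

theorem q362 : twoG oneJ 714 751 = true := by decide +kernel

theorem r714 : I.C.oneB (reE 714) = true := two_l 714 751 q362

theorem r751 : I.C.oneB (reE 751) = true := two_r 714 751 q362

end Pool.Agent.Lib.MP_afdd4d_co.K10.LR
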