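import Pool.Agent.Lib.MP_afdd4d_co.K10.LR.R341

/-!
# The rows of the links, part 373
-/

namespace Pool.Agent.Lib.MP_afdd4d_co.K10.LR

open K8 K8.L9

theorem q373 : twoG oneJ 738 739 = true := by decide +kernel

theorem r738 : I.C.oneB (reE 738) = true := two_l 738 739 q373

theorem r739 : I.C.oneB (reE 739) = true := two_r 738 739 q373

end Pool.Agent.Lib.MP_afdd4d_co.K10.LR
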