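import Pool.Agent.Lib.MP_afdd4d_co.K10.LR.R352

/-!
# The rows of the links, part 384
-/

namespace Pool.Agent.Lib.MP_afdd4d_co.K10.LR

open K8 K8.L9

theorem q384 : twoG oneJ 768 775 = true := by decide +kernel

theorem r768 : I.C.oneB (reE 768) = true := two_l 768 775 q384

theorem r775 : I.C.oneB (reE 775) = true := two_r 768 775 q384

end Pool.Agent.Lib.MP_afdd4d_co.K10.LR
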