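import Pool.Agent.Lib.MP_afdd4d_co.K10.LR.R362

/-!
# The rows of the links, part 394
-/

namespace Pool.Agent.Lib.MP_afdd4d_co.K10.LR

open K8 K8.L9

theorem q394 : twoG oneJ 781 805 = true := by decide +kernel

theorem r781 : I.C.oneB (reE 781) = true := two_l 781 805 q394

theorem r805 : I.C.oneB (reE 805) = true := two_r 781 805 q394

end Pool.Agent.Lib.MP_afdd4d_co.K10.LR
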