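import Pool.Agent.Lib.MP_afdd4d_co.K10.LR.R373

/-!
# The rows of the links, part 405
-/

namespace Pool.Agent.Lib.MP_afdd4d_co.K10.LR

open K8 K8.L9

theorem q405 : twoG oneJ 799 818 = true := by decide +kernel

theorem r799 : I.C.oneB (reE 799) = true := two_l 799 818 q405

theorem r818 : I.C.oneB (reE 818) = true := two_r 799 818 q405

end Pool.Agent.Lib.MP_afdd4d_co.K10.LR
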