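import Pool.Agent.Lib.MP_afdd4d_co.K10.LR.R384

/-!
# The rows of the links, part 416
-/

namespace Pool.Agent.Lib.MP_afdd4d_co.K10.LR

open K8 K8.L9

theorem q416 : twoG oneJ 832 833 = true := by decide +kernel

theorem r832 : I.C.oneB (reE 832) = true := two_l 832 833 q416

theorem r833 : I.C.oneB (reE 833) = true := two_r 832 833 q416

end Pool.Agent.Lib.MP_afdd4d_co.K10.LR
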