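import Pool.Agent.Lib.MP_afdd4d_co.K10.LR.R394

/-!
# The rows of the links, part 426
-/

namespace Pool.Agent.Lib.MP_afdd4d_co.K10.LR

open K8 K8.L9

theorem q426 : twoG oneJ 844 848 = true := by decide +kernel

theorem r844 : I.C.oneB (reE 844) = true := two_l 844 848 q426

theorem r848 : I.C.oneB (reE 848) = true := two_r 844 848 q426

end Pool.Agent.Lib.MP_afdd4d_co.K10.LR
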