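import Pool.Agent.Lib.MP_afdd4d_co.K10.LR.R405

/-!
# The rows of the links, part 437
-/

namespace Pool.Agent.Lib.MP_afdd4d_co.K10.LR

open K8 K8.L9

theorem q437 : twoG oneJ 859 886 = true := by decide +kernel

theorem r859 : I.C.oneB (reE 859) = true := two_l 859 886 q437

theorem r886 : I.C.oneB (reE 886) = true := two_r 859 886 q437

end Pool.Agent.Lib.MP_afdd4d_co.K10.LR
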