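import Pool.Agent.Lib.MP_afdd4d_co.K10.LR.R416

/-!
# The rows of the links, part 448
-/

namespace Pool.Agent.Lib.MP_afdd4d_co.K10.LR

open K8 K8.L9

theorem q448 : twoG oneJ 896 904 = true := by decide +kernel

theorem r896 : I.C.oneB (reE 896) = true := two_l 896 904 q448

theorem r904 : I.C.oneB (reE 904) = true := two_r 896 904 q448

end Pool.Agent.Lib.MP_afdd4d_co.K10.LR
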