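import Pool.Agent.Lib.MP_afdd4d_co.K10.LR.R426

/-!
# The rows of the links, part 458
-/

namespace Pool.Agent.Lib.MP_afdd4d_co.K10.LR

open K8 K8.L9

theorem q458 : twoG oneJ 912 914 = true := by decide +kernel

theorem r912 : I.C.oneB (reE 912) = true := two_l 912 914 q458

theorem r914 : I.C.oneB (reE 914) = true := two_r 912 914 q458

end Pool.Agent.Lib.MP_afdd4d_co.K10.LR
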