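import Pool.Agent.Lib.MP_afdd4d_co.K10.LR.R437

/-!
# The rows of the links, part 469
-/

namespace Pool.Agent.Lib.MP_afdd4d_co.K10.LR

open K8 K8.L9

theorem q469 : twoG oneJ 930 931 = true := by decide +kernel

theorem r930 : I.C.oneB (reE 930) = true := two_l 930 931 q469

theorem r931 : I.C.oneB (reE 931) = true := two_r 930 931 q469

end Pool.Agent.Lib.MP_afdd4d_co.K10.LR
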