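import Pool.Agent.Lib.MP_afdd4d_co.K10.LR.R448

/-!
# The rows of the links, part 480
-/

namespace Pool.Agent.Lib.MP_afdd4d_co.K10.LR

open K8 K8.L9

theorem q480 : twoG oneJ 960 991 = true := by decide +kernel

theorem r960 : I.C.oneB (reE 960) = true := two_l 960 991 q480

theorem r991 : I.C.oneB (reE 991) = true := two_r 960 991 q480

end Pool.Agent.Lib.MP_afdd4d_co.K10.LR
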