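import Pool.Agent.Lib.MP_afdd4d_co.K10.LR.R458

/-!
# The rows of the links, part 490
-/

namespace Pool.Agent.Lib.MP_afdd4d_co.K10.LR

open K8 K8.L9

theorem q490 : twoG oneJ 974 978 = true := by decide +kernel

theorem r974 : I.C.oneB (reE 974) = true := two_l 974 978 q490

theorem r978 : I.C.oneB (reE 978) = true := two_r 974 978 q490

end Pool.Agent.Lib.MP_afdd4d_co.K10.LR
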