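import Pool.Agent.Lib.MP_afdd4d_co.K10.LR.R469

/-!
# The rows of the links, part 501
-/

namespace Pool.Agent.Lib.MP_afdd4d_co.K10.LR

open K8 K8.L9

theorem q501 : twoG oneJ 999 1000 = true := by decide +kernel

theorem r999 : I.C.oneB (reE 999) = true := two_l 999 1000 q501

theorem r1000 : I.C.oneB (reE 1000) = true := two_r 999 1000 q501

end Pool.Agent.Lib.MP_afdd4d_co.K10.LR
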